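import Pool.Agent.EMB.Defs

/-!
# EMB-BASE subfields of the algebraic closure

`Fix E g` iff `g ∈ E.fixingSubgroup`. `fix_iff_restrict`: `AlgEquiv.restrictNormalHom` is onto (`AlgEquiv.restrictNormalHom_surjective`), `AlgEquiv.restrictNormal_commutes`. `fix_sup`: `fixingSubgroup` of a sup, or: the elements fixed by `g` form an intermediate field. `fix_adjoin`.
`exists_field`: let `D'` be the image of `D` in `Gal(F/ℚ)` (a normal subgroup), `L` its fixed field in `F`, `E = L.map F.val` (`IntermediateField.map`) or `lift`; `E` is stable under all `g ∈ GQ` (`D'` normal), so normal over `ℚ`;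
`Fix E g` iff `g|_F` is in `fixingSubgroup (fixedField D') = D'` iff `g ∈ D` (because `D` contains the kernel `Fix F`).
-/

set_option autoImplicit false

noncomputable section

open NumberField Pool.Agent.CMR
open scoped Pointwise

namespace Pool.Agent.EMB

section Fix

variable {E E' F : IntermediateField ℚ Qb} {g h : GQ}

theorem Fix.one : Fix E 1 := fun _ _ => rfl

theorem Fix.mul (hg : Fix E g) (hh : Fix E h) : Fix E (g * h) := fun x hx => by
  rw [AlgEquiv.mul_apply, hh x hx, hg x hx]

theorem Fix.inv (hg : Fix E g) : Fix E g⁻¹ := by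
  intro x hx
  nth_rewrite 1 [← hg x hx]
  rw [← AlgEquiv.mul_apply, inv_mul_cancel, AlgEquiv.one_apply]

private theorem normal_Qb : Normal ℚ Qb :=
  @IsAlgClosure.normal ℚ (AlgebraicClosure ℚ) _ _ (AlgebraicClosure.instAlgebra ℚ) _

private theorem isGalois_Qb : IsGalois ℚ Qb :=
  @IsAlgClosure.isGalois ℚ (AlgebraicClosure ℚ) _ _ (AlgebraicClosure.instAlgebra ℚ) _ _

private theorem fix_iff_mem : Fix E g ↔ g ∈ E.fixingSubgroup :=
  (IntermediateField.mem_fixingSubgroup_iff E g).symm

private theorem fix_iff_le : Fix E g ↔ E ≤ IntermediateField.fixedField (Subgroup.zpowers g) := by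
  rw [fix_iff_mem, IntermediateField.le_iff_le, Subgroup.zpowers_le]

private theorem fix_restrict_apply [Normal ℚ E] (g : GQ) (x : E) :
    ((AlgEquiv.restrictNormalHom E g : Gal(E/ℚ)) x : Qb) = g x :=
  AlgEquiv.restrictNormal_commutes g E x

theorem Fix.mono (h : E' ≤ E) (hg : Fix E g) : Fix E' g := fun x hx => hg x (h hx)

theorem Fix.conj [Normal ℚ E] (hg : Fix E g) (h : GQ) : Fix E (h * g * h⁻¹) := by
  intro x hx
  have h1 : h⁻¹ x ∈ E := by
    rw [← fix_restrict_apply h⁻¹ ⟨x, hx⟩]
    exact Subtype.mem _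
  rw [AlgEquiv.mul_apply, AlgEquiv.mul_apply, hg _ h1, ← AlgEquiv.mul_apply, mul_inv_cancel,
    AlgEquiv.one_apply]

theorem fix_sup : Fix (E ⊔ E') g ↔ Fix E g ∧ Fix E' g := by
  rw [fix_iff_le, fix_iff_le, fix_iff_le, sup_le_iff]

theorem fix_iSup {ι : Type} (E : ι → IntermediateField ℚ Qb) (g : GQ) :
    Fix (⨆ i, E i) g ↔ ∀ i, Fix (E i) g := by
  simp only [fix_iff_le, iSup_le_iff]

theorem fix_adjoin (S : Set Qb) (g : GQ) :
    Fix (IntermediateField.adjoin ℚ S) g ↔ ∀ x ∈ S, g x = x := by
  constructor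
  · intro h x hx
    exact h x (IntermediateField.subset_adjoin ℚ S hx)
  · intro h
    rw [fix_iff_le, IntermediateField.adjoin_le_iff]
    intro x hx
    have h1 : Subgroup.zpowers g ≤ MulAction.stabilizer GQ x := by
      rw [Subgroup.zpowers_le]
      exact h x hx
    rw [SetLike.mem_coe, IntermediateField.mem_fixedField_iff]
    intro f hf
    exact h1 hf

theorem fix_iff_restrict [Normal ℚ E] :
    Fix E g ↔ (AlgEquiv.restrictNormalHom E g : Gal(E/ℚ)) = 1 := by
  constructor
  · intro h
    apply AlgEquiv.ext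
    intro x
    apply Subtype.val_injective
    rw [fix_restrict_apply, h _ x.2, AlgEquiv.one_apply]
  · intro h x hx
    rw [← fix_restrict_apply g ⟨x, hx⟩, h, AlgEquiv.one_apply]

theorem exists_restrict [Normal ℚ E] (σ : Gal(E/ℚ)) :
    ∃ g : GQ, (AlgEquiv.restrictNormalHom E g : Gal(E/ℚ)) = σ := by
  have _ := normal_Qb
  exact AlgEquiv.restrictNormalHom_surjective Qb σ

theorem restrict_apply [Normal ℚ E] (g : GQ) (x : E) :
    ((AlgEquiv.restrictNormalHom E g : Gal(E/ℚ)) x : Qb) = g x :=
  fix_restrict_apply g x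

/-- an element fixed by all automorphisms which fix `E` is in `E`. -/
theorem mem_of_fix {x : Qb} (h : ∀ g : GQ, Fix E g → g x = x) : x ∈ E := by
  have _ := isGalois_Qb
  rw [← InfiniteGalois.fixedField_fixingSubgroup E, IntermediateField.mem_fixedField_iff]
  intro f hf
  exact h f (fix_iff_mem.2 hf)

theorem le_of_fix (h : ∀ g : GQ, Fix E g → Fix E' g) : E' ≤ E :=
  fun _ hx => mem_of_fix fun g hg => h g hg _ hx

/-- the field of a normal subgroup -/
theorem exists_field {D : Subgroup GQ} (hD : D.Normal) (hF : FiniteDimensional ℚ F)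
    (hF' : Normal ℚ F) (h : ∀ g, Fix F g → g ∈ D) :
    ∃ E : IntermediateField ℚ Qb, E ≤ F ∧ FiniteDimensional ℚ E ∧ Normal ℚ E ∧
      ∀ g, Fix E g ↔ g ∈ D := by
  have hmem : ∀ g ∈ D, ∀ x ∈ IntermediateField.fixedField D, g x = x := by
    intro g hg x hx
    exact (IntermediateField.mem_fixedField_iff D x).1 hx g hg
  have hle : IntermediateField.fixedField D ≤ F :=
    le_of_fix fun g hg x hx => hmem g (h g hg) x hx
  refine ⟨IntermediateField.fixedField D, hle, ?_, ?_, fun g => ⟨fun hg => ?_, fun hg => ?_⟩⟩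
  · exact Submodule.finiteDimensional_of_le
      (S₁ := (IntermediateField.fixedField D).toSubalgebra.toSubmodule)
      (S₂ := F.toSubalgebra.toSubmodule) hle
  · have _ := normal_Qb
    refine (IntermediateField.normal_iff_forall_map_le' (F := ℚ) (L := Qb)
      (K := IntermediateField.fixedField D)).2 ?_
    rintro σ y ⟨x, hx, rfl⟩
    rw [IntermediateField.mem_fixedField_iff]
    intro f hf
    have h1 : σ⁻¹ * f * σ ∈ D := by
      have h2 := hD.conj_mem f hf σ⁻¹
      rwa [inv_inv] at h2
    have h3 := hmem _ h1 x hx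
    have h4 : f (σ x) = σ ((σ⁻¹ * f * σ) x) := by
      rw [← AlgEquiv.mul_apply, ← AlgEquiv.mul_apply]
      congr 1
      group
    change f (σ x) = σ x
    rw [h4, h3]
  · have h1 : (AlgEquiv.restrictNormalHom F g : Gal(F/ℚ)) ∈
        (IntermediateField.fixedField (Subgroup.map (AlgEquiv.restrictNormalHom F) D)
          : IntermediateField ℚ F).fixingSubgroup := by
      rw [IntermediateField.mem_fixingSubgroup_iff]
      intro x hx
      apply Subtype.val_injective
      rw [fix_restrict_apply]
      apply hg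
      rw [IntermediateField.mem_fixedField_iff]
      intro f hf
      have h2 := (IntermediateField.mem_fixedField_iff _ _).1 hx _ (Subgroup.mem_map_of_mem _ hf)
      have h3 := congrArg Subtype.val h2
      rwa [fix_restrict_apply] at h3
    rw [IntermediateField.fixingSubgroup_fixedField, Subgroup.mem_map] at h1
    obtain ⟨d, hd, hdg⟩ := h1
    have h2 : Fix F (g * d⁻¹) := by
      rw [fix_iff_restrict, map_mul, map_inv, hdg, mul_inv_cancel]
    have h3 := D.mul_mem (h _ h2) hd
    rwa [inv_mul_cancel_right] at h3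
  · exact hmem g hg

end Fix

end Pool.Agent.EMB
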