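import Mathlib

/-!
# EMB-COMP groups with central squares: characters, center and commutators (pure group theory)

`exists_chars`: `G/Z` has exponent two (squares are central), so it is a vector space over `ZMod 2` (`AddCommGroup.zmodModule` on `Additive (G ⧸ Z)`, commutative since of exponent two) of dimension `d` (order `2^d`); the coordinates with respect to a basis, composed with `G → G/Z`. `index_ne_two`: if `G/Z` is cyclic then `G` is commutative (Mathlib: `commutative_of_cyclic_center_quotient`). `comp_group`: write `χ : G → V = (Fin d → ZMod 2)`.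
(1) `center = ker χ`: `⊇` is `hZ`; let `g` be central, `i` given; since `d ≠ 1` there is `j ≠ i`; choose `h` with `χ i h = 0`, `χ j h = 1`: the form of `χ i, χ j` at `g, h` is `χ i g · 1 + 0`; `[g, h] = 1`, so if it were `1` then `z ∈ D`, a contradiction (for `j < i` exchange the roles: the form is symmetric). So `χ i g = 0`. Hence the index is `|V| = 2^d` (surjectivity). (2) squares: `χ (g g) = 0`.
(3) `C = commutator G`. All commutators are central, so `[g g', h] = [g, h][g', h]`, and `[g, h]² = [g², h] = 1`. Choose `e i ∈ G` with `χ j (e i) = δ i j`. Every `g` is a product of a central element and of the `e i` with `χ i g = 1`, so every commutator is a product of some `[e i, e j]`, `i < j`: `C` is commutative, of exponent two, generated by the `d (d - 1) / 2` elements `c i j = [e i, e j]`, so `|C| ≤ 2^(d (d - 1) / 2)`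
(the map from functions `{(i, j) : i < j} → ZMod 2` to `C` is onto). It is injective: for `i < j` there is a homomorphism `λ i j : C → ZMod 2` with `λ i j [g, h] = χ i g χ j h + χ i h χ j g` and kernel `C ∩ D i j`: indeed all elements of `C` are in `D i j` or in `D i j z⁻¹` (`z² ∈ D`, `z ∉ D`): `λ w = 0` iff `w ∈ D i j`; it is a homomorphism because `D i j` is normal and `D ∪ D z` is a group in which `D` has index two. `λ i j (c i' j') = δ`.
-/

set_option autoImplicit false

noncomputable section

namespace Pool.Agent.EMB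

variable {G : Type} [Group G] [Finite G]

omit [Finite G] in
private theorem cg_one {χ : G → ZMod 2} (hχ : ∀ g h, χ (g * h) = χ g + χ h) : χ 1 = 0 := by
  have h := hχ 1 1
  rw [mul_one] at h
  simpa using h

omit [Finite G] in
private theorem cg_inv {χ : G → ZMod 2} (hχ : ∀ g h, χ (g * h) = χ g + χ h) (g : G) :
    χ g⁻¹ = χ g := by
  have h := hχ g⁻¹ g
  rw [inv_mul_cancel, cg_one hχ] at h
  rw [← sub_eq_zero, CharTwo.sub_eq_add]
  exact h.symm

private theorem cg_two (x : ZMod 2) : x + x = 0 := CharTwo.add_self_eq_zero x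

/-- the characters of the quotient by the center -/
theorem exists_chars (hsq : ∀ g h : G, g * g * h = h * (g * g)) {d : ℕ}
    (hidx : (Subgroup.center G).index = 2 ^ d) :
    ∃ χ : Fin d → G → ZMod 2, (∀ i g h, χ i (g * h) = χ i g + χ i h) ∧
      (∀ v : Fin d → ZMod 2, ∃ g, ∀ i, χ i g = v i) ∧
      ∀ g, (∀ i, χ i g = 0) ↔ ∀ h, g * h = h * g := by
  classical
  have hQ : ∀ x : G ⧸ Subgroup.center G, x * x = 1 := by
    intro x
    obtain ⟨g, rfl⟩ := QuotientGroup.mk_surjective x
    rw [← QuotientGroup.mk_mul, QuotientGroup.eq_one_iff, Subgroup.mem_center_iff]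
    exact fun h => (hsq g h).symm
  have hcomm : ∀ x y : G ⧸ Subgroup.center G, x * y = y * x := by
    intro x y
    have hi : ∀ x : G ⧸ Subgroup.center G, x⁻¹ = x := fun x => inv_eq_of_mul_eq_one_left (hQ x)
    have h1 := hi (x * y)
    rw [mul_inv_rev, hi, hi] at h1
    exact h1.symm
  let _ : CommGroup (G ⧸ Subgroup.center G) :=
    { (inferInstance : Group (G ⧸ Subgroup.center G)) with mul_comm := hcomm }
  let _ : Module (ZMod 2) (Additive (G ⧸ Subgroup.center G)) :=
    AddCommGroup.zmodModule (n := 2) fun x => by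
      rw [two_nsmul]
      exact hQ (Additive.toMul x)
  have hfin : Finite (Additive (G ⧸ Subgroup.center G)) :=
    inferInstanceAs (Finite (G ⧸ Subgroup.center G))
  have hmf : Module.Finite (ZMod 2) (Additive (G ⧸ Subgroup.center G)) := Module.Finite.of_finite
  have hcard : Nat.card (Additive (G ⧸ Subgroup.center G)) = 2 ^ d := hidx
  have hrank : Module.finrank (ZMod 2) (Additive (G ⧸ Subgroup.center G)) = d := by
    have h1 := Module.natCard_eq_pow_finrank (K := ZMod 2)
      (V := Additive (G ⧸ Subgroup.center G))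
    rw [hcard, Nat.card_zmod] at h1
    exact (Nat.pow_right_injective le_rfl h1).symm
  let b := Module.finBasisOfFinrankEq (ZMod 2) (Additive (G ⧸ Subgroup.center G)) hrank
  refine ⟨fun i g => b.repr (Additive.ofMul (QuotientGroup.mk g)) i, fun i g h => ?_, fun v => ?_,
    fun g => ?_⟩
  · beta_reduce
    rw [QuotientGroup.mk_mul]
    have h1 : (Additive.ofMul ((g : G ⧸ Subgroup.center G) * (h : G ⧸ Subgroup.center G))) =
        Additive.ofMul (g : G ⧸ Subgroup.center G) + Additive.ofMul (h : G ⧸ Subgroup.center G) :=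
      rfl
    rw [h1, map_add, Finsupp.add_apply]
  · obtain ⟨g, hg⟩ := QuotientGroup.mk_surjective (s := Subgroup.center G)
      (Additive.toMul (b.equivFun.symm v))
    refine ⟨g, fun i => ?_⟩
    beta_reduce
    rw [hg, ofMul_toMul, ← Module.Basis.equivFun_apply, LinearEquiv.apply_symm_apply]
  · constructor
    · intro h
      have h1 : b.repr (Additive.ofMul (g : G ⧸ Subgroup.center G)) = 0 :=
        Finsupp.ext h
      have h2 : Additive.ofMul (g : G ⧸ Subgroup.center G) = 0 := by
        rwa [map_eq_zero_iff _ b.repr.injective] at h1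
      have h3 : (g : G ⧸ Subgroup.center G) = 1 := h2
      rw [QuotientGroup.eq_one_iff, Subgroup.mem_center_iff] at h3
      exact fun h => (h3 h).symm
    · intro h i
      have h3 : (g : G ⧸ Subgroup.center G) = 1 := by
        rw [QuotientGroup.eq_one_iff, Subgroup.mem_center_iff]
        exact fun x => (h x).symm
      beta_reduce
      rw [h3, ofMul_one, map_zero, Finsupp.zero_apply]

theorem index_ne_two {d : ℕ} (hidx : (Subgroup.center G).index = 2 ^ d) : d ≠ 1 := by
  rintro rfl
  have hc : Nat.card (G ⧸ Subgroup.center G) = 2 := by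
    rw [← Subgroup.index_eq_card, hidx, pow_one]
  have : Fact (Nat.Prime 2) := ⟨Nat.prime_two⟩
  have hcyc : IsCyclic (G ⧸ Subgroup.center G) := isCyclic_of_prime_card hc
  have h1 := MonoidHom.isMulCommutative_of_isCyclic_of_ker_le_center
    (QuotientGroup.mk' (Subgroup.center G)) (by rw [QuotientGroup.ker_mk'])
  have h2 : Subgroup.center G = ⊤ := by
    rw [eq_top_iff]
    intro g _
    rw [Subgroup.mem_center_iff]
    exact fun h => h1.is_comm.comm h g
  rw [h2, Subgroup.index_top] at hidx
  norm_num at hidx

/-- the pairs `i < j` -/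
private abbrev Prs (d : ℕ) : Type := Σ j : Fin d, Fin (j : ℕ)

/-- the smaller index -/
private def Prs.lo {d : ℕ} (p : Prs d) : Fin d := ⟨p.2, p.2.2.trans p.1.2⟩

private theorem Prs.lt {d : ℕ} (p : Prs d) : p.lo < p.1 := p.2.2

private theorem cg_card (d : ℕ) : Nat.card (Prs d → ZMod 2) = 2 ^ (d * (d - 1) / 2) := by
  rw [Nat.card_eq_fintype_card, Fintype.card_fun, ZMod.card, Fintype.card_sigma]
  congr 1
  rw [← Finset.sum_range_id, Finset.sum_range]
  exact Finset.sum_congr rfl fun j _ => Fintype.card_fin _

omit [Finite G] in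
/-- a subgroup which contains the center and the elements of a basis -/
private theorem cg_top {d : ℕ} {χ : Fin d → G → ZMod 2}
    (hχ : ∀ i g h, χ i (g * h) = χ i g + χ i h) {e : Fin d → G}
    (he : ∀ i j, χ j (e i) = if j = i then 1 else 0) (K : Subgroup G)
    (hK : ∀ g, (∀ i, χ i g = 0) → g ∈ K) (heK : ∀ i, e i ∈ K) (g : G) : g ∈ K := by
  classical
  let A : AddSubgroup (Fin d → ZMod 2) :=
    { carrier := {v | ∃ x ∈ K, ∀ i, χ i x = v i}
      zero_mem' := ⟨1, K.one_mem, fun i => cg_one (hχ i)⟩
      add_mem' := by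
        rintro v w ⟨x, hx, hx'⟩ ⟨y, hy, hy'⟩
        exact ⟨x * y, K.mul_mem hx hy, fun i => by rw [hχ, hx', hy', Pi.add_apply]⟩
      neg_mem' := by
        rintro v ⟨x, hx, hx'⟩
        exact ⟨x⁻¹, K.inv_mem hx, fun i => by
          rw [cg_inv (hχ i), hx', Pi.neg_apply, CharTwo.neg_eq]⟩ }
  have hA : ∀ v : Fin d → ZMod 2, v ∈ A := by
    intro v
    rw [← Finset.univ_sum_single v]
    refine AddSubgroup.sum_mem _ fun i _ => ?_
    by_cases h : v i = 0
    · rw [h, Pi.single_zero]
      exact A.zero_mem
    · have h1 : v i = 1 := by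
        have h2 : ∀ x : ZMod 2, x ≠ 0 → x = 1 := by decide
        exact h2 _ h
      refine ⟨e i, heK i, fun j => ?_⟩
      rw [he, h1, Pi.single_apply]
  obtain ⟨x, hx, hx'⟩ := hA fun i => χ i g
  have h1 : x⁻¹ * g ∈ K := hK _ fun i => by
    rw [hχ, cg_inv (hχ i), hx', cg_two]
  have h2 := K.mul_mem hx h1
  rwa [mul_inv_cancel_left] at h2

private theorem cg_ite {A B : Prop} [Decidable A] [Decidable B] (h : ¬ (A ∧ B)) :
    (if A then (1 : ZMod 2) else 0) * (if B then 1 else 0) = 0 := by
  by_cases hA : A
  · rw [if_neg (fun hB => h ⟨hA, hB⟩), mul_zero]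
  · rw [if_neg hA, zero_mul]

open scoped IsMulCommutative in
theorem comp_group {d : ℕ} (hd : d ≠ 1) {χ : Fin d → G → ZMod 2}
    (hχ : ∀ i g h, χ i (g * h) = χ i g + χ i h)
    (hsurj : ∀ v : Fin d → ZMod 2, ∃ g, ∀ i, χ i g = v i)
    (hZ : ∀ g, (∀ i, χ i g = 0) → ∀ h, g * h = h * g)
    {D : Fin d → Fin d → Subgroup G} {z : Fin d → Fin d → G}
    (hD : ∀ i j, i < j → (D i j).Normal) (hz : ∀ i j, i < j → z i j ∉ D i j)
    (hz2 : ∀ i j, i < j → z i j * z i j ∈ D i j)
    (h0 : ∀ i j, i < j → ∀ g h, χ i g * χ j h + χ i h * χ j g = 0 → g * h * g⁻¹ * h⁻¹ ∈ D i j)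
    (h1 : ∀ i j, i < j → ∀ g h, χ i g * χ j h + χ i h * χ j g = 1 →
      g * h * g⁻¹ * h⁻¹ * z i j ∈ D i j) :
    (∀ g h : G, g * g * h = h * (g * g)) ∧ (Subgroup.center G).index = 2 ^ d ∧
      Nat.card (commutator G) = 2 ^ (d * (d - 1) / 2) := by
  classical
  have _ := hD
  have _ := hz2
  have hv : ∀ x : ZMod 2, x ≠ 0 → x = 1 := by decide
  -- the center
  have hcen : ∀ g, g ∈ Subgroup.center G ↔ ∀ i, χ i g = 0 := by
    intro g
    rw [Subgroup.mem_center_iff]
    constructor
    · intro hg i
      by_contra hi
      have hi1 := hv _ hi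
      obtain ⟨j, hj⟩ : ∃ j : Fin d, j ≠ i := by
        have : Nontrivial (Fin d) := by
          have h2 : 2 ≤ d := by
            have := i.2
            omega
          exact Fin.nontrivial_iff_two_le.2 h2
        exact exists_ne i
      obtain ⟨h, hh⟩ := hsurj (Pi.single j 1)
      have hhi : χ i h = 0 := by rw [hh, Pi.single_eq_of_ne hj.symm]
      have hhj : χ j h = 1 := by rw [hh, Pi.single_eq_same]
      have hgh : g * h * g⁻¹ * h⁻¹ = 1 := by
        rw [← hg h]
        group
      rcases lt_or_gt_of_ne hj with hlt | hlt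
      · have h3 := h1 j i hlt g h (by rw [hhi, hhj, hi1]; ring)
        rw [hgh, one_mul] at h3
        exact hz j i hlt h3
      · have h3 := h1 i j hlt g h (by rw [hhi, hhj, hi1]; ring)
        rw [hgh, one_mul] at h3
        exact hz i j hlt h3
    · exact fun h x => (hZ g h x).symm
  have hcc : ∀ g h : G, ∀ i, χ i (g * h * g⁻¹ * h⁻¹) = 0 := by
    intro g h i
    rw [hχ, hχ, hχ, cg_inv (hχ i), cg_inv (hχ i)]
    have := cg_two (χ i g)
    have := cg_two (χ i h)
    linear_combination cg_two (χ i g) + cg_two (χ i h)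
  refine ⟨fun g h => hZ _ (fun i => by rw [hχ, cg_two]) h, ?_, ?_⟩
  · let Φ : G →* Multiplicative (Fin d → ZMod 2) := MonoidHom.mk'
      (fun g => Multiplicative.ofAdd fun i => χ i g) fun g h => by
        rw [← ofAdd_add]
        congr 1
        funext i
        exact hχ i g h
    have hk : Φ.ker = Subgroup.center G := by
      ext g
      rw [MonoidHom.mem_ker, hcen]
      constructor
      · intro h i
        exact congrFun (Multiplicative.ofAdd.injective h) i
      · intro h
        exact congrArg Multiplicative.ofAdd (funext h)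
    have hr : Φ.range = ⊤ := by
      rw [MonoidHom.range_eq_top]
      intro v
      obtain ⟨g, hg⟩ := hsurj (Multiplicative.toAdd v)
      exact ⟨g, congrArg Multiplicative.ofAdd (funext hg)⟩
    rw [← hk, Subgroup.index_ker, hr, Subgroup.card_top]
    show Nat.card (Fin d → ZMod 2) = 2 ^ d
    rw [Nat.card_eq_fintype_card, Fintype.card_fun, ZMod.card, Fintype.card_fin]
  · choose e he using fun i : Fin d => hsurj (Pi.single i 1)
    have he' : ∀ i j, χ j (e i) = if j = i then 1 else 0 := fun i j => by
      rw [he, Pi.single_apply]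
    -- the commutators of the elements of the basis
    let c : Prs d → Subgroup.center G := fun p =>
      ⟨e p.lo * e p.1 * (e p.lo)⁻¹ * (e p.1)⁻¹, (hcen _).2 (hcc _ _)⟩
    -- commutators are multiplicative
    have hmul : ∀ g g' h : G, g * g' * h * (g * g')⁻¹ * h⁻¹ =
        (g * h * g⁻¹ * h⁻¹) * (g' * h * g'⁻¹ * h⁻¹) := by
      intro g g' h
      have h2 : (g' * h * g'⁻¹ * h⁻¹) * g = g * (g' * h * g'⁻¹ * h⁻¹) :=
        hZ _ (hcc g' h) g
      have h3 : (g' * h * g'⁻¹ * h⁻¹) * (h * g⁻¹ * h⁻¹) = (h * g⁻¹ * h⁻¹) * (g' * h * g'⁻¹ * h⁻¹) :=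
        hZ _ (hcc g' h) _
      calc g * g' * h * (g * g')⁻¹ * h⁻¹
          = g * ((g' * h * g'⁻¹ * h⁻¹) * (h * g⁻¹ * h⁻¹)) := by group
        _ = (g * h * g⁻¹ * h⁻¹) * (g' * h * g'⁻¹ * h⁻¹) := by
            rw [h3]
            group
    have hsq : ∀ g h : G, (g * h * g⁻¹ * h⁻¹) * (g * h * g⁻¹ * h⁻¹) = 1 := by
      intro g h
      rw [← hmul]
      have h2 : g * g * h = h * (g * g) := hZ _ (fun i => by rw [hχ, cg_two]) h
      rw [h2]
      group
    have hc2 : ∀ p, c p * c p = 1 := fun p => Subtype.ext (hsq _ _)
    have hpow : ∀ p, ∀ x y : ZMod 2, c p ^ (x + y).val = c p ^ x.val * c p ^ y.val := by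
      intro p x y
      have h3 : ∀ x : ZMod 2, x = 0 ∨ x = 1 := by decide
      rcases h3 x with rfl | rfl <;> rcases h3 y with rfl | rfl
      · simp
      · simp
      · simp
      · rw [cg_two, ZMod.val_zero, pow_zero, ZMod.val_one, pow_one, hc2]
    let P : Multiplicative (Prs d → ZMod 2) →* Subgroup.center G := MonoidHom.mk'
      (fun a => ∏ p, c p ^ (Multiplicative.toAdd a p).val) fun a b => by
        rw [← Finset.prod_mul_distrib]
        exact Finset.prod_congr rfl fun p _ => hpow p _ _
    have hPr : ∀ p, (c p : G) ∈ P.range.map (Subgroup.center G).subtype := by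
      intro p
      refine ⟨c p, ⟨Multiplicative.ofAdd (Pi.single p 1), ?_⟩, rfl⟩
      show ∏ q, c q ^ ((Pi.single p 1 : Prs d → ZMod 2) q).val = c p
      rw [Finset.prod_eq_single p]
      · rw [Pi.single_eq_same, ZMod.val_one, pow_one]
      · intro q _ hq
        rw [Pi.single_eq_of_ne hq, ZMod.val_zero, pow_zero]
      · exact fun h => absurd (Finset.mem_univ p) h
    have hrange : P.range.map (Subgroup.center G).subtype = commutator G := by
      apply le_antisymm
      · rintro _ ⟨_, ⟨a, rfl⟩, rfl⟩
        have h2 : ∀ p, c p ∈ (commutator G).comap (Subgroup.center G).subtype := by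
          intro p
          rw [Subgroup.mem_comap, commutator_eq_closure]
          exact Subgroup.subset_closure ⟨e p.lo, e p.1, rfl⟩
        have h3 : P a ∈ (commutator G).comap (Subgroup.center G).subtype :=
          prod_mem fun p _ => pow_mem (h2 p) _
        exact h3
      · set R := P.range.map (Subgroup.center G).subtype with hR
        -- the elements with commutators in `R`
        let K : G → Subgroup G := fun h =>
          { carrier := {g | g * h * g⁻¹ * h⁻¹ ∈ R}
            one_mem' := by
              show 1 * h * 1⁻¹ * h⁻¹ ∈ R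
              have : 1 * h * 1⁻¹ * h⁻¹ = 1 := by group
              rw [this]
              exact R.one_mem
            mul_mem' := by
              intro a b ha hb
              show a * b * h * (a * b)⁻¹ * h⁻¹ ∈ R
              rw [hmul]
              exact R.mul_mem ha hb
            inv_mem' := by
              intro a ha
              show a⁻¹ * h * a⁻¹⁻¹ * h⁻¹ ∈ R
              have h3 := hmul a⁻¹ a h
              have h4 : a⁻¹ * a * h * (a⁻¹ * a)⁻¹ * h⁻¹ = 1 := by group
              rw [h4] at h3
              rw [eq_inv_of_mul_eq_one_left h3.symm]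
              exact R.inv_mem ha }
        have hKc : ∀ h g, (∀ i, χ i g = 0) → g ∈ K h := by
          intro h g hg
          show g * h * g⁻¹ * h⁻¹ ∈ R
          rw [hZ g hg h]
          have : h * g * g⁻¹ * h⁻¹ = 1 := by group
          rw [this]
          exact R.one_mem
        have hinv : ∀ g h : G, h * g * h⁻¹ * g⁻¹ = (g * h * g⁻¹ * h⁻¹)⁻¹ := by
          intro g h
          group
        have hee : ∀ i j, e i ∈ K (e j) := by
          intro i j
          rcases lt_trichotomy i j with h | h | h
          · exact hPr ⟨j, ⟨i, h⟩⟩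
          · subst h
            show e i * e i * (e i)⁻¹ * (e i)⁻¹ ∈ R
            have : e i * e i * (e i)⁻¹ * (e i)⁻¹ = 1 := by group
            rw [this]
            exact R.one_mem
          · show e i * e j * (e i)⁻¹ * (e j)⁻¹ ∈ R
            rw [hinv]
            exact R.inv_mem (hPr ⟨i, ⟨j, h⟩⟩)
        have hej : ∀ j g, g ∈ K (e j) := fun j g =>
          cg_top hχ he' (K (e j)) (hKc _) (fun i => hee i j) g
        have hall : ∀ h g, g ∈ K h := fun h g =>
          cg_top hχ he' (K h) (hKc _) (fun i => by
            show e i * h * (e i)⁻¹ * h⁻¹ ∈ R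
            rw [hinv]
            exact R.inv_mem (hej i h)) g
        rw [commutator_eq_closure, Subgroup.closure_le]
        rintro _ ⟨g, h, rfl⟩
        exact hall h g
    have hinj : Function.Injective P := by
      rw [injective_iff_map_eq_one]
      intro a ha
      apply Multiplicative.toAdd.injective
      funext p
      show Multiplicative.toAdd a p = 0
      by_contra hp
      have hp1 := hv _ hp
      have hlt := p.lt
      -- the other factors are in `D`
      have h2 : ∀ q, q ≠ p → c q ∈ (D p.lo p.1).comap (Subgroup.center G).subtype := by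
        intro q hq
        apply h0 _ _ hlt
        rw [he', he', he', he']
        have hne : ¬ (p.lo = q.lo ∧ p.1 = q.1) := by
          rintro ⟨h3, h4⟩
          apply hq
          obtain ⟨j, i⟩ := p
          obtain ⟨j', i'⟩ := q
          dsimp only at h4
          subst h4
          congr 1
          ext
          exact (congrArg Fin.val h3).symm
        have hne' : ¬ (p.lo = q.1 ∧ p.1 = q.lo) := by
          rintro ⟨h3, h4⟩
          have h5 := q.lt
          rw [← h3, ← h4] at h5
          exact absurd h5 (not_lt.2 hlt.le)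
        rw [cg_ite hne, cg_ite hne', add_zero]
      have h3 : (c p : G) * z p.lo p.1 ∈ D p.lo p.1 := by
        apply h1 _ _ hlt
        rw [he', he', he', he', if_pos rfl, if_pos rfl, if_neg hlt.ne]
        ring
      have h4 : P a = c p * ∏ q ∈ Finset.univ.erase p, c q ^ (Multiplicative.toAdd a q).val := by
        show ∏ q, c q ^ (Multiplicative.toAdd a q).val = _
        rw [← Finset.mul_prod_erase _ _ (Finset.mem_univ p), hp1, ZMod.val_one, pow_one]
      have h5 : ∏ q ∈ Finset.univ.erase p, c q ^ (Multiplicative.toAdd a q).val ∈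
          (D p.lo p.1).comap (Subgroup.center G).subtype :=
        prod_mem fun q hq => pow_mem (h2 q (Finset.ne_of_mem_erase hq)) _
      rw [ha] at h4
      have h6 : c p ∈ (D p.lo p.1).comap (Subgroup.center G).subtype := by
        rw [eq_inv_of_mul_eq_one_left h4.symm]
        exact Subgroup.inv_mem _ h5
      have h7 := (D p.lo p.1).mul_mem ((D p.lo p.1).inv_mem h6) h3
      rw [Subgroup.subtype_apply, inv_mul_cancel_left] at h7
      exact hz _ _ hlt h7
    rw [← hrange, ← cg_card d]
    rw [Nat.card_congr (Subgroup.equivMapOfInjective P.range _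
      (Subgroup.center G).subtype_injective).toEquiv.symm]
    exact (Nat.card_congr (MonoidHom.ofInjective hinj).toEquiv).symm

end Pool.Agent.EMB
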