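import Pool.Agent.CMR.RDefs

/-!
# Existence of the auxiliary field: definitions

All fields are subfields of the algebraic closure `Qb` of `ℚ`, with Galois group `GQ`.
-/

set_option autoImplicit false

noncomputable section

open NumberField Pool.Agent.CMR
open scoped Pointwise

namespace Pool.Agent.EMB

/-- the algebraic closure of `ℚ` -/
abbrev Qb : Type := AlgebraicClosure ℚ

/-- the absolute Galois group -/
abbrev GQ : Type := Gal(Qb/ℚ)

/-- `g` fixes the elements of `E`. -/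
def Fix (E : IntermediateField ℚ Qb) (g : GQ) : Prop := ∀ x ∈ E, g x = x

/-- `E` is a finite Galois extension of `ℚ`, unramified outside `N`. -/
structure Nf (E : IntermediateField ℚ Qb) (N : ℕ) : Prop where
  fin : FiniteDimensional ℚ E
  gal : Normal ℚ E
  ram : ∀ (_ : NumberField E) (p : ℕ), p.Prime → (p : ℤ) ∣ discr E → p ∣ N

/-- `x ≠ 0` and `x²` is rational. -/
def Sq (x : Qb) : Prop := x ≠ 0 ∧ ∃ q : ℚ, x ^ 2 = algebraMap ℚ Qb q

/-- the field generated by `x` -/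
def Qx (x : Qb) : IntermediateField ℚ Qb := IntermediateField.adjoin ℚ {x}

/-- the field of the `m`-th roots of unity -/
def Qm (m : ℕ) : IntermediateField ℚ Qb := IntermediateField.adjoin ℚ {ζ | ζ ^ m = 1}

/-- the character of `ℚ(x)`, with values in `ZMod 2` -/
def sg (x : Qb) (g : GQ) : ZMod 2 := open Classical in if g x = x then 0 else 1

/-- the alternating form of two characters -/
def om (x y : Qb) (g h : GQ) : ZMod 2 := sg x g * sg y h + sg x h * sg y g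

/-- the characters of `x` and `y` are independent. -/
structure Ind (x y : Qb) : Prop where
  sq : Sq x
  sq' : Sq y
  ex : ∀ a b : ZMod 2, ∃ g : GQ, sg x g = a ∧ sg y g = b

/-- `E` is a finite Galois extension of `ℚ` of degree a power of two, and the commutators of its Galois
group are given by the form `om x y`. -/
structure Rz (E : IntermediateField ℚ Qb) (x y : Qb) : Prop where
  fin : FiniteDimensional ℚ E
  gal : Normal ℚ E
  two : ∃ m : ℕ, ∀ g : GQ, Fix E (g ^ 2 ^ m)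
  comm : ∃ z : GQ, ¬ Fix E z ∧ Fix E (z * z) ∧ ∀ g h : GQ,
    (om x y g h = 0 → Fix E (g * h * g⁻¹ * h⁻¹)) ∧
    (om x y g h = 1 → Fix E (g * h * g⁻¹ * h⁻¹ * z))

/-- `R g 𝔥`: the element `g` of the Galois group of the ray class field modulo `n` of `k` is the Artin
symbol of the ideal `𝔥`. -/
structure Ray (k : IntermediateField ℚ Qb) [NumberField k] [Normal ℚ k] (n : ℕ)
    (R : GQ → Ideal (𝓞 k) → Prop) : Prop where
  fix : ∀ g 𝔥, R g 𝔥 → Fix k g ∧ 𝔥 ≠ ⊥ ∧ Prm n 𝔥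
  ex : ∀ g, Fix k g → ∃ 𝔥, R g 𝔥
  mul : ∀ g g' 𝔥 𝔥', R g 𝔥 → R g' 𝔥' → R (g * g') (𝔥 * 𝔥')
  uniq : ∀ g 𝔥 𝔥', R g 𝔥 → R g 𝔥' → REq n 𝔥 𝔥'
  conj : ∀ g 𝔥, R g 𝔥 → ∀ c : GQ,
    R (c * g * c⁻¹) ((AlgEquiv.restrictNormalHom k c : Gal(k/ℚ)) • 𝔥)
  root : ∀ g 𝔥, R g 𝔥 → ∀ ζ : Qb, ζ ^ n = 1 → g ζ = ζ ^ Ideal.absNorm 𝔥
  fin : ∃ F : IntermediateField ℚ Qb, FiniteDimensional ℚ F ∧ Normal ℚ F ∧ k ≤ F ∧
    ∀ g, Fix F g → R g ⊤

end Pool.Agent.EMB
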