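import Pool.Agent.CMG.SplitTriv
import Pool.Agent.CMR.ZArt
import Pool.Agent.StarkRQ.FrobF

/-!
# EMB-GEN Frobenius elements generate the Galois group

As in `CMR/GGen.lean` (`gal_acts`, its private lemmas may be copied): `H = {τ : P τ}` is closed under products and contains `1`, so it is a subgroup (finite group). `E` = its fixed field in `F`. For a prime `𝔮` of `E` not containing `B`, `𝔓` a prime of `F` over `𝔮` and `φ ∈ Gal(F/k)` a Frobenius element at `𝔓` (`StarkRQ.exists_cong_over`), `φ ∈ H` by `hfrob`, so `φ` is trivial on `E`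
and `x ≡ x^{N𝔭}` mod `𝔮` for `x ∈ 𝓞 E`, `𝔭 = 𝔮 ∩ 𝓞 k`: `N𝔮 = N𝔭`. `CMG.split_trivial` (`S` = the primes of `k` containing `B`, finite): `[E : k] = 1`, so `H` is everything (`IntermediateField.fixingSubgroup_fixedField`).
-/

set_option autoImplicit false

noncomputable section

open NumberField Pool.Agent.StarkRQ
open scoped Pointwise

namespace Pool.Agent.EMB

/-- a residue field in which `x ^ q = x` -/
private lemma egen_card {k E : Type} [Field k] [NumberField k] [Field E] [NumberField E]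
    [Algebra k E] {𝔮 : Ideal (𝓞 E)} (h𝔮 : 𝔮.IsPrime) (h0 : 𝔮 ≠ ⊥)
    (h : ∀ x : 𝓞 E, x - x ^ Ideal.absNorm (𝔮.comap (algebraMap (𝓞 k) (𝓞 E))) ∈ 𝔮)
    (h0' : 𝔮.comap (algebraMap (𝓞 k) (𝓞 E)) ≠ ⊥) :
    Ideal.absNorm 𝔮 = Ideal.absNorm (𝔮.comap (algebraMap (𝓞 k) (𝓞 E))) := by
  classical
  set 𝔭 := 𝔮.comap (algebraMap (𝓞 k) (𝓞 E)) with h𝔭
  have hp : 𝔭.IsPrime := Ideal.comap_isPrime _ _
  have hmax : 𝔮.IsMaximal := h𝔮.isMaximal h0
  have hfin : Finite (𝓞 E ⧸ 𝔮) := Ideal.finiteQuotientOfFreeOfNeBot 𝔮 h0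
  have hfin' : Finite (𝓞 k ⧸ 𝔭) := Ideal.finiteQuotientOfFreeOfNeBot 𝔭 h0'
  have e1 : Ideal.absNorm 𝔮 = Nat.card (𝓞 E ⧸ 𝔮) := by
    rw [Ideal.absNorm_apply, Submodule.cardQuot_apply]
  have e2 : Ideal.absNorm 𝔭 = Nat.card (𝓞 k ⧸ 𝔭) := by
    rw [Ideal.absNorm_apply, Submodule.cardQuot_apply]
  apply le_antisymm
  · set q := Ideal.absNorm 𝔭 with hq
    have hq1 : 1 < q := by
      rw [e2]
      have : Nontrivial (𝓞 k ⧸ 𝔭) := Ideal.Quotient.nontrivial_iff.2 hp.ne_top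
      exact Finite.one_lt_card
    let _ : Field (𝓞 E ⧸ 𝔮) := Ideal.Quotient.field 𝔮
    have _ : Fintype (𝓞 E ⧸ 𝔮) := Fintype.ofFinite _
    set P : Polynomial (𝓞 E ⧸ 𝔮) := Polynomial.X ^ q - Polynomial.X with hP
    have hP0 : P ≠ 0 := FiniteField.X_pow_card_sub_X_ne_zero _ hq1
    have hPd : P.natDegree = q := FiniteField.X_pow_card_sub_X_natDegree_eq _ hq1
    rw [e1, Nat.card_eq_fintype_card]
    have hsub : (Finset.univ : Finset (𝓞 E ⧸ 𝔮)) ⊆ P.roots.toFinset := by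
      intro y _
      rw [Multiset.mem_toFinset, Polynomial.mem_roots hP0, Polynomial.IsRoot.def, hP]
      obtain ⟨x, rfl⟩ := Ideal.Quotient.mk_surjective y
      have h1 := Ideal.Quotient.eq_zero_iff_mem.2 (h x)
      rw [map_sub, map_pow, sub_eq_zero] at h1
      simp only [Polynomial.eval_sub, Polynomial.eval_pow, Polynomial.eval_X]
      rw [← h1, sub_self]
    calc Fintype.card (𝓞 E ⧸ 𝔮) = (Finset.univ : Finset (𝓞 E ⧸ 𝔮)).card := rfl
      _ ≤ P.roots.toFinset.card := Finset.card_le_card hsub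
      _ ≤ P.roots.card := Multiset.toFinset_card_le _
      _ ≤ P.natDegree := Polynomial.card_roots' P
      _ = q := hPd
  · rw [e1, e2]
    exact Nat.card_le_card_of_injective
      (Ideal.quotientMap 𝔮 (algebraMap (𝓞 k) (𝓞 E)) le_rfl) (Ideal.quotientMap_injective)

private lemma egen_comap_ne {k E : Type} [Field k] [NumberField k] [Field E] [NumberField E]
    [Algebra k E] {𝔮 : Ideal (𝓞 E)} (h0 : 𝔮 ≠ ⊥) :
    𝔮.comap (algebraMap (𝓞 k) (𝓞 E)) ≠ ⊥ := by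
  intro h
  have h1 : ((Ideal.absNorm 𝔮 : ℕ) : 𝓞 k) ∈ 𝔮.comap (algebraMap (𝓞 k) (𝓞 E)) := by
    rw [Ideal.mem_comap, map_natCast]
    exact Ideal.absNorm_mem 𝔮
  rw [h, Ideal.mem_bot, Nat.cast_eq_zero, Ideal.absNorm_eq_zero_iff] at h1
  exact h0 h1

/-- Frobenius elements outside a finite set of primes generate the Galois group -/
theorem frob_induction {k F : Type} [Field k] [NumberField k] [Field F] [NumberField F]
    [Algebra k F] [IsGalois k F] {B : ℕ} (hB : B ≠ 0) {P : Gal(F/k) → Prop} (h1 : P 1)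
    (hmul : ∀ σ τ, P σ → P τ → P (σ * τ))
    (hfrob : ∀ (𝔓 : Ideal (𝓞 F)) (φ : Gal(F/k)), 𝔓.IsPrime → 𝔓 ≠ ⊥ → (B : 𝓞 F) ∉ 𝔓 →
      (∀ x : 𝓞 F, φ • x - x ^ Ideal.absNorm (𝔓.comap (algebraMap (𝓞 k) (𝓞 F))) ∈ 𝔓) → P φ)
    (τ : Gal(F/k)) : P τ := by
  classical
  let H0 : Submonoid Gal(F/k) :=
    { carrier := {σ | P σ}
      one_mem' := h1
      mul_mem' := fun {a b} ha hb => hmul a b ha hb }
  let H : Subgroup Gal(F/k) :=
    { H0 with
      inv_mem' := by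
        intro σ hσ
        have h2 : σ⁻¹ ∈ Submonoid.powers σ :=
          (isOfFinOrder_of_finite σ).mem_powers_iff_mem_zpowers.2
            (inv_mem (Subgroup.mem_zpowers σ))
        exact (Submonoid.powers_le.2 (show σ ∈ H0 from hσ)) h2 }
  have hH : ∀ σ, σ ∈ H ↔ P σ := fun σ => Iff.rfl
  suffices hτ : τ ∈ H from hτ
  set E : IntermediateField k F := IntermediateField.fixedField H with hE
  have hone : Module.finrank k E = 1 := by
    have hBk : (Ideal.span {(B : 𝓞 k)} : Ideal (𝓞 k)) ≠ 0 := by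
      rw [Ne, Ideal.zero_eq_bot, Ideal.span_singleton_eq_bot]
      exact_mod_cast hB
    have hS : {𝔭 : Ideal (𝓞 k) | 𝔭 ∣ Ideal.span {(B : 𝓞 k)}}.Finite :=
      @Set.toFinite _ _ (@Finite.of_fintype _
        (UniqueFactorizationMonoid.fintypeSubtypeDvd _ hBk))
    refine CMG.split_trivial hS ?_
    intro 𝔮 h𝔮 h0 hnot
    have hBq : (B : 𝓞 E) ∉ 𝔮 := by
      intro h
      apply hnot
      show 𝔮.comap (algebraMap (𝓞 k) (𝓞 E)) ∣ Ideal.span {(B : 𝓞 k)}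
      rw [Ideal.dvd_span_singleton, Ideal.mem_comap, map_natCast]
      exact h
    obtain ⟨𝔓, h𝔓, hc⟩ := exists_over (F := E) (M := F) 𝔮
    have h𝔓0 : 𝔓 ≠ ⊥ := by
      rintro rfl
      apply h0
      rw [← hc, Ideal.comap_bot_of_injective _ (FaithfulSMul.algebraMap_injective (𝓞 E) (𝓞 F))]
    have hB𝔓 : (B : 𝓞 F) ∉ 𝔓 := by
      intro h
      apply hBq
      rw [← hc, Ideal.mem_comap, map_natCast]
      exact h
    set 𝔭 := 𝔓.comap (algebraMap (𝓞 k) (𝓞 F)) with h𝔭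
    have hp : 𝔭.IsPrime := Ideal.comap_isPrime _ _
    have hp0 : 𝔭 ≠ ⊥ := egen_comap_ne h𝔓0
    have hpq : 𝔮.comap (algebraMap (𝓞 k) (𝓞 E)) = 𝔭 := by
      rw [← hc, Ideal.comap_comap, h𝔭]
      congr 1
    obtain ⟨φ, hφ⟩ := exists_cong_over (F := k) (M := F) hp0 h𝔭.symm
    have hφH : φ ∈ H := by
      rw [hH]
      exact hfrob 𝔓 φ h𝔓 h𝔓0 hB𝔓 hφ
    refine egen_card h𝔮 h0 ?_ (egen_comap_ne h0)
    intro x
    rw [hpq, ← hc, Ideal.mem_comap]
    have h1 := hφ (algebraMap (𝓞 E) (𝓞 F) x)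
    have h2 : φ ((x : E) : F) = ((x : E) : F) :=
      (IntermediateField.mem_fixedField_iff H _).1 (x : E).2 φ hφH
    have h3 : toG k F φ • algebraMap (𝓞 E) (𝓞 F) x = algebraMap (𝓞 E) (𝓞 F) x := by
      ext
      exact h2
    rw [h3] at h1
    rw [map_sub, map_pow]
    exact h1
  have hbot : E = ⊥ := IntermediateField.finrank_eq_one_iff.1 hone
  have hfix : E.fixingSubgroup = H := IntermediateField.fixingSubgroup_fixedField H
  rw [hbot, IntermediateField.fixingSubgroup_bot] at hfix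
  rw [← hfix]
  trivial

end Pool.Agent.EMB
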