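import Mathlib

/-!
# EMB-GRP characters and involutions (pure group theory)

`exists_dual`: let `u a = τ a / a`, a homomorphism `A → A` with kernel `{τ a = a}`. `φ` is trivial on the kernel, so `φ = ψ₀ ∘ u` with `ψ₀ : u(A) → ℂˣ` (`QuotientGroup.kerLift`, `MonoidHom.rangeRestrict`); extend `ψ₀` to `ψ₁ : A → ℂˣ` (Mathlib: `MonoidHom.restrict_surjective`, `CommGroup.exists...`, `MonoidHom.exists_extension`, or
`AddChar`/`Character module` results for divisible groups; characters of subgroups of finite abelian groups extend). `|A| = 2^m r`, `r` odd: `ψ = ψ₁^r`; `φ^r = φ`. `exists_D`: `Γ₀ = ker α` (index two), `A = Γ₀ / K` is finite and abelian; choose `c` with `α c = 1`; `τ` = conjugation by `c` on `A` (`τ² =` conjugation by `c² ∈ Γ₀`, trivial), `φ = (-1)^β` on `A`. `exists_dual` gives `ψ`;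
let `ψ' : Γ₀ → ℂˣ` be the composition, so `ψ'(c g c⁻¹) = ψ'(g) (-1)^{β g}` for `g ∈ Γ₀`, and conjugation by elements of `Γ₀` does not change `ψ'`. `D = {g : α g = 0, β g = 0, ψ' g = 1}`, normal. Let `b ∈ Γ₀` with `β b = 1`, `z = c b c⁻¹ b⁻¹`: `β z = 0`, `ψ' z = -1`, so `z ∉ D`, `z² ∈ D`. For all `g, h`: `[g, h] ∈ ker α ∩ ker β` and
`ψ' [g, h] = (-1)^{α g β h + α h β g}`: (i) `g, h ∈ Γ₀`: `1`; (ii) `g ∈ Γ₀`, `α h = 1`: `[g, h] = g · (h g⁻¹ h⁻¹)`, `ψ'(h g⁻¹ h⁻¹) = ψ'(g⁻¹) (-1)^{β g}` (`h ∈ Γ₀ c`); (iii) `α g = 1`, `h ∈ Γ₀`: `[g, h] = [h, g]⁻¹`; (iv) `α g = α h = 1`: `g = k h`, `k ∈ Γ₀`, `[g, h] = [k, h]`, and `β k = β g + β h`. An element `w ∈ ker α ∩ ker β` with `ψ' w = -1` satisfies `w z ∈ D`.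
`g^{2^m}`: `g² ∈ Γ₀`, `g⁴ ∈ ker α ∩ ker β`..., `ψ'^{2^m} = 1`.
-/

set_option autoImplicit false

noncomputable section

namespace Pool.Agent.EMB

/-- duality for a finite abelian group with an involution -/
theorem exists_dual {A : Type} [CommGroup A] [Finite A] (τ : A →* A) (hτ : ∀ a, τ (τ a) = a)
    (φ : A →* ℂˣ) (hφ : ∀ a, φ a ^ 2 = 1) (h : ∀ a, τ a = a → φ a = 1) :
    ∃ ψ : A →* ℂˣ, (∀ a, ψ (τ a) = ψ a * φ a) ∧ ∃ m : ℕ, ∀ a, ψ a ^ 2 ^ m = 1 := by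
  classical
  let u : A →* A := τ * (MonoidHom.id A)⁻¹
  have hu : ∀ a, u a = τ a * a⁻¹ := fun a => rfl
  have hker : ∀ a ∈ u.ker, φ a = 1 := by
    intro a ha
    rw [MonoidHom.mem_ker, hu, mul_inv_eq_one] at ha
    exact h a ha
  let ψ0 : u.range →* ℂˣ :=
    (QuotientGroup.lift u.ker φ hker).comp (QuotientGroup.quotientKerEquivRange u).symm.toMonoidHom
  have h0 : ∀ a, ψ0 ⟨u a, a, rfl⟩ = φ a := by
    intro a
    have h1 : (QuotientGroup.quotientKerEquivRange u) (QuotientGroup.mk a) = ⟨u a, a, rfl⟩ := rfl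
    have h2 : (QuotientGroup.quotientKerEquivRange u).symm ⟨u a, a, rfl⟩ = QuotientGroup.mk a := by
      rw [MulEquiv.symm_apply_eq, h1]
    change QuotientGroup.lift u.ker φ hker
      ((QuotientGroup.quotientKerEquivRange u).symm ⟨u a, a, rfl⟩) = φ a
    rw [h2]
    rfl
  have : NeZero (Monoid.exponent A) := ⟨Monoid.exponent_ne_zero_of_finite⟩
  obtain ⟨ψ1, hψ1⟩ := MonoidHom.domRestrict_surjective ℂ u.range ψ0
  have h1 : ∀ a, ψ1 (τ a) = ψ1 a * φ a := by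
    intro a
    have h2 : ψ1 (u a) = φ a := by
      rw [← h0 a, ← hψ1]
      rfl
    rw [hu, map_mul, map_inv] at h2
    rw [← h2, mul_comm (ψ1 (τ a)), mul_inv_cancel_left]
  obtain ⟨m, r, hr, hcard⟩ := Nat.exists_eq_two_pow_mul_odd (n := Nat.card A) Nat.card_pos.ne'
  refine ⟨ψ1 ^ r, fun a => ?_, m, fun a => ?_⟩
  · have h3 : φ a ^ r = φ a := by
      obtain ⟨k, rfl⟩ := hr
      rw [pow_add, pow_mul, hφ, one_pow, one_mul, pow_one]
    rw [MonoidHom.pow_apply, MonoidHom.pow_apply, h1, mul_pow, h3]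
  · rw [MonoidHom.pow_apply, ← pow_mul, mul_comm, ← hcard, ← map_pow, pow_card_eq_one', map_one]

section

variable {Q : Type} [Group Q] {α β : Q → ZMod 2}

private theorem add_one_eq (hα : ∀ g h, α (g * h) = α g + α h) : α 1 = 0 := by
  have h := hα 1 1
  rw [mul_one] at h
  exact (left_eq_add.1 h)

private theorem add_inv_eq (hα : ∀ g h, α (g * h) = α g + α h) (g : Q) : α g⁻¹ = α g := by
  have h := hα g g⁻¹
  rw [mul_inv_cancel, add_one_eq hα] at h
  have h2 : ∀ a b : ZMod 2, 0 = a + b → b = a := by decide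
  exact h2 _ _ h

private theorem add_conj_eq (hα : ∀ g h, α (g * h) = α g + α h) (c g : Q) :
    α (c * g * c⁻¹) = α g := by
  rw [hα, hα, add_inv_eq hα]
  have h2 : ∀ a b : ZMod 2, a + b + a = b := by decide
  exact h2 _ _

private theorem add_comm_eq (hα : ∀ g h, α (g * h) = α g + α h) (g h : Q) :
    α (g * h * g⁻¹ * h⁻¹) = 0 := by
  rw [hα, add_conj_eq hα, add_inv_eq hα]
  have h2 : ∀ a : ZMod 2, a + a = 0 := by decide
  exact h2 _

private theorem add_sq_eq (hα : ∀ g h, α (g * h) = α g + α h) (g : Q) : α (g * g) = 0 := by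
  rw [hα]
  have h2 : ∀ a : ZMod 2, a + a = 0 := by decide
  exact h2 _

/-- the sign -/
private def sgn (a : ZMod 2) : ℂˣ := if a = 0 then 1 else -1

private theorem sgn_zero : sgn 0 = 1 := rfl

private theorem sgn_one : sgn 1 = -1 := rfl

private theorem sgn_add (a b : ZMod 2) : sgn (a + b) = sgn a * sgn b := by
  have h : ∀ a : ZMod 2, a = 0 ∨ a = 1 := by decide
  rcases h a with rfl | rfl <;> rcases h b with rfl | rfl
  · simp [sgn_zero]
  · simp [sgn_zero]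
  · simp [sgn_zero]
  · rw [show (1 : ZMod 2) + 1 = 0 from by decide, sgn_zero, sgn_one]
    simp

private theorem sgn_sq (a : ZMod 2) : sgn a ^ 2 = 1 := by
  rw [sq, ← sgn_add]
  have h : ∀ a : ZMod 2, a + a = 0 := by decide
  rw [h, sgn_zero]

private theorem exists_char [Finite Q] (hα : ∀ g h, α (g * h) = α g + α h)
    (hβ : ∀ g h, β (g * h) = β g + β h) (hind : ∀ a b : ZMod 2, ∃ g, α g = a ∧ β g = b)
    (hab : ∀ g h, α g = 0 → α h = 0 → g * h = h * g)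
    (hinv : ∀ c g, α c = 1 → α g = 0 → c * g * c⁻¹ = g → β g = 0) :
    ∃ (Ψ : Q → ℂˣ) (m : ℕ), (∀ g h, α g = 0 → α h = 0 → Ψ (g * h) = Ψ g * Ψ h) ∧
      (∀ c g, α c = 1 → α g = 0 → Ψ (c * g * c⁻¹) = Ψ g * sgn (β g)) ∧
      ∀ g, α g = 0 → Ψ g ^ 2 ^ m = 1 := by
  classical
  let Γ : Subgroup Q :=
    { carrier := {g | α g = 0}
      mul_mem' := by
        intro g h hg hh
        simp only [Set.mem_ofPred_eq] at hg hh ⊢
        rw [hα, hg, hh, add_zero]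
      one_mem' := add_one_eq hα
      inv_mem' := by
        intro g hg
        simp only [Set.mem_ofPred_eq] at hg ⊢
        rw [add_inv_eq hα, hg] }
  have hΓ : ∀ g, g ∈ Γ ↔ α g = 0 := fun g => Iff.rfl
  have hn : Γ.Normal := ⟨fun g hg c => by
    rw [hΓ] at hg ⊢
    rw [add_conj_eq hα, hg]⟩
  let : CommGroup Γ :=
    { (inferInstance : Group Γ) with
      mul_comm := fun a b => Subtype.ext (hab a b a.2 b.2) }
  obtain ⟨c, hc, -⟩ := hind 1 0
  let τ : Γ →* Γ := (MulAut.conjNormal c : MulAut Γ).toMonoidHom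
  have hτ : ∀ a : Γ, ((τ a : Γ) : Q) = c * a * c⁻¹ := fun a => MulAut.conjNormal_apply c a
  let φ : Γ →* ℂˣ :=
    { toFun := fun a => sgn (β a)
      map_one' := by
        change sgn (β 1) = 1
        rw [add_one_eq hβ, sgn_zero]
      map_mul' := fun a b => by
        change sgn (β (a * b)) = _
        rw [hβ, sgn_add] }
  have hφ : ∀ a : Γ, φ a = sgn (β a) := fun a => rfl
  obtain ⟨ψ, h1, m, h2⟩ := exists_dual τ (fun a => by
    apply Subtype.ext
    rw [hτ, hτ]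
    have e1 : c * (c * (a : Q) * c⁻¹) * c⁻¹ = (c * c) * a * (c * c)⁻¹ := by group
    rw [e1, hab (c * c) a (add_sq_eq hα c) a.2]
    group) φ (fun a => sgn_sq _) (fun a ha => by
    have h3 := congrArg (Subtype.val) ha
    rw [hτ] at h3
    rw [hφ, hinv c a hc a.2 h3, sgn_zero])
  refine ⟨fun g => if h : α g = 0 then ψ ⟨g, h⟩ else 1, m, ?_, ?_, ?_⟩
  · intro g h hg hh
    have hgh : α (g * h) = 0 := by rw [hα, hg, hh, add_zero]
    simp only [hg, hh, hgh, dif_pos]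
    rw [← map_mul]
    rfl
  · intro d g hd hg
    have hgh : α (d * g * d⁻¹) = 0 := by rw [add_conj_eq hα, hg]
    simp only [hg, hgh, dif_pos]
    have h3 := h1 ⟨g, hg⟩
    rw [hφ] at h3
    rw [← h3]
    congr 1
    apply Subtype.ext
    rw [hτ]
    have hk : α (d * c⁻¹) = 0 := by
      rw [hα, add_inv_eq hα, hd, hc]
      decide
    have e1 : d * g * d⁻¹ = (d * c⁻¹) * (c * g * c⁻¹) * (d * c⁻¹)⁻¹ := by group
    have e2 : α (c * g * c⁻¹) = 0 := by rw [add_conj_eq hα, hg]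
    change d * g * d⁻¹ = c * g * c⁻¹
    rw [e1, hab _ _ hk e2]
    group
  · intro g hg
    simp only [hg, dif_pos]
    exact h2 _

private theorem exists_D' [Finite Q] (hα : ∀ g h, α (g * h) = α g + α h)
    (hβ : ∀ g h, β (g * h) = β g + β h) (hind : ∀ a b : ZMod 2, ∃ g, α g = a ∧ β g = b)
    (hab : ∀ g h, α g = 0 → α h = 0 → g * h = h * g)
    (hinv : ∀ c g, α c = 1 → α g = 0 → c * g * c⁻¹ = g → β g = 0) :
    ∃ D : Subgroup Q, D.Normal ∧ (∃ m : ℕ, ∀ g, g ^ 2 ^ m ∈ D) ∧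
      ∃ z, z ∉ D ∧ z * z ∈ D ∧ ∀ g h, (α g * β h + α h * β g = 0 → g * h * g⁻¹ * h⁻¹ ∈ D) ∧
        (α g * β h + α h * β g = 1 → g * h * g⁻¹ * h⁻¹ * z ∈ D) := by
  obtain ⟨Ψ, m, h1, h2, h3⟩ := exists_char hα hβ hind hab hinv
  have hΨ1 : Ψ 1 = 1 := by
    have h := h1 1 1 (add_one_eq hα) (add_one_eq hα)
    rw [mul_one] at h
    exact (left_eq_mul.1 h)
  have hΨi : ∀ g, α g = 0 → Ψ g⁻¹ = (Ψ g)⁻¹ := by
    intro g hg
    have h := h1 g g⁻¹ hg (by rw [add_inv_eq hα, hg])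
    rw [mul_inv_cancel, hΨ1] at h
    exact (inv_eq_of_mul_eq_one_right h.symm).symm
  let D : Subgroup Q :=
    { carrier := {g | α g = 0 ∧ β g = 0 ∧ Ψ g = 1}
      mul_mem' := by
        rintro g h ⟨a1, a2, a3⟩ ⟨b1, b2, b3⟩
        refine ⟨?_, ?_, ?_⟩
        · rw [hα, a1, b1, add_zero]
        · rw [hβ, a2, b2, add_zero]
        · rw [h1 g h a1 b1, a3, b3, one_mul]
      one_mem' := ⟨add_one_eq hα, add_one_eq hβ, hΨ1⟩
      inv_mem' := by
        rintro g ⟨a1, a2, a3⟩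
        refine ⟨?_, ?_, ?_⟩
        · rw [add_inv_eq hα, a1]
        · rw [add_inv_eq hβ, a2]
        · rw [hΨi g a1, a3, inv_one] }
  have hD : ∀ g, g ∈ D ↔ α g = 0 ∧ β g = 0 ∧ Ψ g = 1 := fun g => Iff.rfl
  have hz2 : ∀ a : ZMod 2, a = 0 ∨ a = 1 := by decide
  -- the value on commutators
  have hcom1 : ∀ g h, α g = 0 → Ψ (g * h * g⁻¹ * h⁻¹) = sgn (α h * β g) := by
    intro g h hg
    rcases hz2 (α h) with hh | hh
    · rw [hab g h hg hh, hh, zero_mul, sgn_zero, mul_inv_cancel_right, mul_inv_cancel, hΨ1]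
    · have e1 : g * h * g⁻¹ * h⁻¹ = g * (h * g⁻¹ * h⁻¹) := by group
      rw [e1, h1 _ _ hg (by rw [add_conj_eq hα, add_inv_eq hα, hg]),
        h2 h g⁻¹ hh (by rw [add_inv_eq hα, hg]), hΨi g hg, add_inv_eq hβ, hh, one_mul,
        mul_inv_cancel_left]
  have hcom : ∀ g h, Ψ (g * h * g⁻¹ * h⁻¹) = sgn (α g * β h + α h * β g) := by
    intro g h
    rcases hz2 (α g) with hg | hg
    · rw [hcom1 g h hg, hg, zero_mul, zero_add]
    · rcases hz2 (α h) with hh | hh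
      · have e1 : g * h * g⁻¹ * h⁻¹ = (h * g * h⁻¹ * g⁻¹)⁻¹ := by group
        rw [e1, hΨi _ (add_comm_eq hα h g), hcom1 h g hh, hh, zero_mul, add_zero]
        rcases hz2 (α g * β h) with h4 | h4
        · rw [h4, sgn_zero, inv_one]
        · rw [h4, sgn_one]
          simp
      · have hk : α (g * h⁻¹) = 0 := by
          rw [hα, add_inv_eq hα, hg, hh]
          decide
        have e1 : g * h * g⁻¹ * h⁻¹ = (g * h⁻¹) * h * (g * h⁻¹)⁻¹ * h⁻¹ := by group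
        rw [e1, hcom1 _ h hk, hβ, add_inv_eq hβ, hg, hh, one_mul, one_mul, one_mul, add_comm]
  obtain ⟨c, hc, -⟩ := hind 1 0
  obtain ⟨b, hb, hb'⟩ := hind 0 1
  have hzα : α (c * b * c⁻¹ * b⁻¹) = 0 := add_comm_eq hα c b
  have hzβ : β (c * b * c⁻¹ * b⁻¹) = 0 := add_comm_eq hβ c b
  have hzΨ : Ψ (c * b * c⁻¹ * b⁻¹) = -1 := by
    rw [hcom, hc, hb, hb', one_mul, zero_mul, add_zero, sgn_one]
  refine ⟨D, ⟨fun g hg h => ?_⟩, ⟨m + 1, fun g => ?_⟩, c * b * c⁻¹ * b⁻¹, ?_, ?_, fun g h =>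
    ⟨fun h4 => ?_, fun h4 => ?_⟩⟩
  · rw [hD] at hg ⊢
    obtain ⟨a1, a2, a3⟩ := hg
    refine ⟨by rw [add_conj_eq hα, a1], by rw [add_conj_eq hβ, a2], ?_⟩
    rcases hz2 (α h) with hh | hh
    · rw [hab h g hh a1, mul_inv_cancel_right, a3]
    · rw [h2 h g hh a1, a2, a3, sgn_zero, one_mul]
  · have h5 : ∀ k : ℕ, ∀ w, α w = 0 → α (w ^ k) = 0 ∧ Ψ (w ^ k) = Ψ w ^ k := by
      intro k w hw
      induction k with
      | zero => exact ⟨by rw [pow_zero]; exact add_one_eq hα, by rw [pow_zero, pow_zero, hΨ1]⟩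
      | succ k ih =>
        refine ⟨by rw [pow_succ, hα, ih.1, hw, add_zero], ?_⟩
        rw [pow_succ, h1 _ _ ih.1 hw, ih.2, pow_succ]
    have h6 : ∀ k : ℕ, ∀ w, β w = 0 → β (w ^ k) = 0 := by
      intro k w hw
      induction k with
      | zero => rw [pow_zero]; exact add_one_eq hβ
      | succ k ih => rw [pow_succ, hβ, ih, hw, add_zero]
    rw [hD, pow_succ, mul_comm, pow_mul, sq]
    have h7 := h5 (2 ^ m) (g * g) (add_sq_eq hα g)
    exact ⟨h7.1, h6 _ _ (add_sq_eq hβ g), by rw [h7.2, h3 _ (add_sq_eq hα g)]⟩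
  · rw [hD, hzΨ]
    rintro ⟨-, -, h5⟩
    have h6 := congrArg Units.val h5
    norm_num at h6
  · rw [hD]
    refine ⟨by rw [hα, hzα, add_zero], by rw [hβ, hzβ, add_zero], ?_⟩
    rw [h1 _ _ hzα hzα, hzΨ]
    simp
  · rw [hD]
    exact ⟨add_comm_eq hα g h, add_comm_eq hβ g h, by rw [hcom, h4, sgn_zero]⟩
  · rw [hD]
    refine ⟨by rw [hα, add_comm_eq hα, hzα, add_zero],
      by rw [hβ, add_comm_eq hβ, hzβ, add_zero], ?_⟩
    rw [h1 _ _ (add_comm_eq hα g h) hzα, hcom, h4, sgn_one, hzΨ]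
    simp

end

theorem exists_D {G : Type} [Group G] {α β : G → ZMod 2} (hα : ∀ g h, α (g * h) = α g + α h)
    (hβ : ∀ g h, β (g * h) = β g + β h) (hind : ∀ a b : ZMod 2, ∃ g, α g = a ∧ β g = b)
    {K : Subgroup G} (hK : K.Normal) (hfin : K.index ≠ 0) (hle : ∀ g ∈ K, α g = 0 ∧ β g = 0)
    (hab : ∀ g h, α g = 0 → α h = 0 → g * h * g⁻¹ * h⁻¹ ∈ K)
    (hinv : ∀ c g, α c = 1 → α g = 0 → c * g * c⁻¹ * g⁻¹ ∈ K → β g = 0) :
    ∃ D : Subgroup G, D.Normal ∧ K ≤ D ∧ (∃ m : ℕ, ∀ g, g ^ 2 ^ m ∈ D) ∧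
      ∃ z, z ∉ D ∧ z * z ∈ D ∧ ∀ g h, (α g * β h + α h * β g = 0 → g * h * g⁻¹ * h⁻¹ ∈ D) ∧
        (α g * β h + α h * β g = 1 → g * h * g⁻¹ * h⁻¹ * z ∈ D) := by
  have hfq : Finite (G ⧸ K) := Nat.finite_of_card_ne_zero hfin
  let α' : G ⧸ K → ZMod 2 := fun q => α (Quotient.out q)
  let β' : G ⧸ K → ZMod 2 := fun q => β (Quotient.out q)
  have key : ∀ (γ : G → ZMod 2), (∀ g h, γ (g * h) = γ g + γ h) → (∀ g ∈ K, γ g = 0) →
      ∀ g : G, γ (Quotient.out (QuotientGroup.mk g : G ⧸ K)) = γ g := by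
    intro γ hγ h0 g
    have h1 : (QuotientGroup.mk (Quotient.out (QuotientGroup.mk g : G ⧸ K)) : G ⧸ K) =
      QuotientGroup.mk g := Quotient.out_eq _
    rw [QuotientGroup.eq] at h1
    have h2 := h0 _ h1
    rw [hγ, add_inv_eq hγ] at h2
    have h3 : ∀ a b : ZMod 2, a + b = 0 → a = b := by decide
    exact h3 _ _ h2
  have hα' : ∀ g : G, α' (QuotientGroup.mk g) = α g := key α hα fun g hg => (hle g hg).1
  have hβ' : ∀ g : G, β' (QuotientGroup.mk g) = β g := key β hβ fun g hg => (hle g hg).2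
  obtain ⟨D, hD, ⟨m, hm⟩, z, hz, hzz, hgh⟩ := exists_D' (Q := G ⧸ K) (α := α') (β := β')
    (by
      intro g h
      obtain ⟨g, rfl⟩ := QuotientGroup.mk_surjective g
      obtain ⟨h, rfl⟩ := QuotientGroup.mk_surjective h
      rw [← QuotientGroup.mk_mul, hα', hα', hα', hα])
    (by
      intro g h
      obtain ⟨g, rfl⟩ := QuotientGroup.mk_surjective g
      obtain ⟨h, rfl⟩ := QuotientGroup.mk_surjective h
      rw [← QuotientGroup.mk_mul, hβ', hβ', hβ', hβ])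
    (by
      intro a b
      obtain ⟨g, h1, h2⟩ := hind a b
      exact ⟨QuotientGroup.mk g, by rw [hα', h1], by rw [hβ', h2]⟩)
    (by
      intro g h hg hh
      obtain ⟨g, rfl⟩ := QuotientGroup.mk_surjective g
      obtain ⟨h, rfl⟩ := QuotientGroup.mk_surjective h
      rw [hα'] at hg hh
      have h1 := (QuotientGroup.eq_one_iff (N := K) _).2 (hab g h hg hh)
      rw [QuotientGroup.mk_mul, QuotientGroup.mk_inv, mul_inv_eq_one, QuotientGroup.mk_mul,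
        QuotientGroup.mk_inv, mul_inv_eq_iff_eq_mul, QuotientGroup.mk_mul] at h1
      exact h1)
    (by
      intro c g hc hg h1
      obtain ⟨c, rfl⟩ := QuotientGroup.mk_surjective c
      obtain ⟨g, rfl⟩ := QuotientGroup.mk_surjective g
      rw [hα'] at hc hg
      rw [hβ']
      refine hinv c g hc hg ((QuotientGroup.eq_one_iff (N := K) _).1 ?_)
      rw [QuotientGroup.mk_mul, QuotientGroup.mk_inv, mul_inv_eq_one]
      exact h1)
  obtain ⟨z, rfl⟩ := QuotientGroup.mk_surjective z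
  refine ⟨D.comap (QuotientGroup.mk' K), inferInstance, ?_, ⟨m, fun g => ?_⟩, z, ?_, ?_,
    fun g h => ⟨fun h1 => ?_, fun h1 => ?_⟩⟩
  · intro g hg
    rw [Subgroup.mem_comap, QuotientGroup.mk'_apply, (QuotientGroup.eq_one_iff (N := K) g).2 hg]
    exact D.one_mem
  · rw [Subgroup.mem_comap, map_pow]
    exact hm _
  · rw [Subgroup.mem_comap]
    exact hz
  · rw [Subgroup.mem_comap, map_mul]
    exact hzz
  · rw [Subgroup.mem_comap, map_mul, map_mul, map_mul, map_inv, map_inv]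
    refine (hgh (QuotientGroup.mk g) (QuotientGroup.mk h)).1 ?_
    rw [hα', hα', hβ', hβ', h1]
  · rw [Subgroup.mem_comap, map_mul, map_mul, map_mul, map_mul, map_inv, map_inv]
    refine (hgh (QuotientGroup.mk g) (QuotientGroup.mk h)).2 ?_
    rw [hα', hα', hβ', hβ', h1]

end Pool.Agent.EMB
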