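import Pool.Agent.EMB.Defs
import Pool.Agent.CMR.ZCls
import Pool.Agent.CMR.Mod
import Pool.Agent.StarkRQ.Split

/-!
# EMB-INV ray classes of an imaginary quadratic field which are invariant under complex conjugation

Write `𝔞̄ = σ • 𝔞`, `x̄ = σ x`. `inv_ideal`: induction on the norm. If `𝔟 ≠ ⊤` let `𝔭` be a prime containing `𝔟`, `p` the prime number in `𝔭`; `p ∤ m`, so `p` is unramified in `k`. If `𝔭̄ = 𝔭` then `𝔭` is the only prime over `p` (transitivity), `(p) = 𝔭^e`, and `e = 1` (unramified: see `StarkRQ` files, `not_dvd_discr_iff_isUnramifiedIn`), so `(p) = 𝔭 ⊇ 𝔟`.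
If `𝔭̄ ≠ 𝔭` then `𝔟 ⊆ 𝔭 ∩ 𝔭̄ = 𝔭𝔭̄ = (p)` (`N(p) = p²`, `N𝔭 N𝔭̄ ≥ p²` and `𝔭𝔭̄ ∣ (p)`). So `𝔟 = (p) 𝔟'` and `𝔟'` is invariant (cancel). `inv_class`: `α 𝔞 = β 𝔞̄`, `α = 1 + 2 m x`, `β = 1 + 2 m y`; `μ = 1 + m (x + y)`, so `α + β = 2 μ`. Norms: `N(α) = N(β)` (`N𝔞̄ = N𝔞`; norms are positive), that is `α ᾱ = β β̄`, so `β̄ (α + β) = α (ᾱ + β̄)`, so
`β̄ μ = α μ̄`. `𝔟 = (α)(μ̄) 𝔞` is invariant: `𝔟̄ = (ᾱ)(μ) 𝔞̄`, and `(β̄) 𝔞 = (ᾱ) 𝔞̄` (conjugate of `α 𝔞 = β 𝔞̄`), so `𝔟̄ = (β̄)(μ) 𝔞 = (α)(μ̄) 𝔞`. `𝔟` is prime to `m` (`prm_span`, `prm_mul_iff`). So `𝔟 = (r)`, `r² = N(α) N(μ) N𝔞 ≡ N𝔞` mod `m` (`norm_congr_one`, `absNorm_congr_one` in `CMR/Mod.lean`). `r` is prime to `m` since `𝔟` is.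
-/

set_option autoImplicit false

noncomputable section

open NumberField Pool.Agent.CMR
open scoped Pointwise

namespace Pool.Agent.EMB

variable {k : Type} [Field k] [NumberField k] [IsGalois ℚ k]

omit [IsGalois ℚ k] in
private theorem inv_span (σ : Gal(k/ℚ)) (a : 𝓞 k) :
    σ • Ideal.span {a} = Ideal.span {σ • a} := by
  rw [Ideal.smul_closure, Set.smul_set_singleton]

private theorem inv_two (hk : IsIQ k) {σ : Gal(k/ℚ)} (hσ : σ ≠ 1) (δ : Gal(k/ℚ)) :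
    δ = 1 ∨ δ = σ := by
  have h1 : Nat.card Gal(k/ℚ) = 2 := by
    rw [IsGalois.card_aut_eq_finrank, hk.finrank_eq]
  obtain ⟨y, -, hy⟩ := (Nat.card_eq_two_iff' (1 : Gal(k/ℚ))).1 h1
  by_cases h : δ = 1
  · exact Or.inl h
  · right
    rw [hy δ h, hy σ hσ]

private theorem inv_sq (hk : IsIQ k) {σ : Gal(k/ℚ)} (hσ : σ ≠ 1) : σ * σ = 1 := by
  rcases inv_two hk hσ (σ * σ) with h | h
  · exact h
  · exact absurd (mul_eq_left.1 h) hσ

omit [NumberField k] [IsGalois ℚ k] in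
private theorem inv_prime {n : ℕ} (hn : n ≠ 0) {𝔭 : Ideal (𝓞 k)} (h𝔭 : 𝔭.IsPrime)
    (h : (n : 𝓞 k) ∈ 𝔭) : ∃ p : ℕ, p.Prime ∧ (p : 𝓞 k) ∈ 𝔭 := by
  induction n using Nat.strong_induction_on with
  | _ n ih =>
    by_cases h1 : n = 1
    · subst h1
      rw [Nat.cast_one] at h
      exact absurd ((Ideal.eq_top_iff_one 𝔭).2 h) h𝔭.ne_top
    · have hp := Nat.minFac_prime h1
      obtain ⟨c, hc⟩ := Nat.minFac_dvd n
      have h2 : (n.minFac : 𝓞 k) * (c : 𝓞 k) ∈ 𝔭 := by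
        rw [← Nat.cast_mul, ← hc]
        exact h
      rcases h𝔭.mem_or_mem h2 with h3 | h3
      · exact ⟨_, hp, h3⟩
      · have hc0 : c ≠ 0 := by
          rintro rfl
          exact hn (by rw [hc, mul_zero])
        refine ih c ?_ hc0 h3
        conv_rhs => rw [hc]
        exact lt_mul_of_one_lt_left (Nat.pos_of_ne_zero hc0) hp.one_lt

set_option linter.unusedVariables false in
/-- invariant ideals prime to the discriminant are generated by natural numbers -/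
theorem inv_ideal (hk : IsIQ k) {m : ℕ} (hm : m ≠ 0)
    (hram : ∀ p : ℕ, p.Prime → (p : ℤ) ∣ discr k → p ∣ m) {σ : Gal(k/ℚ)} (hσ : σ ≠ 1)
    {𝔟 : Ideal (𝓞 k)} (h0 : 𝔟 ≠ ⊥) (hp : Prm m 𝔟) (h : σ • 𝔟 = 𝔟) :
    ∃ r : ℕ, 𝔟 = Ideal.span {(r : 𝓞 k)} := by
  classical
  have key : ∀ n : ℕ, ∀ 𝔟 : Ideal (𝓞 k), Ideal.absNorm 𝔟 = n → 𝔟 ≠ ⊥ → Prm m 𝔟 → σ • 𝔟 = 𝔟 →
      ∃ r : ℕ, 𝔟 = Ideal.span {(r : 𝓞 k)} := by
    intro n
    induction n using Nat.strong_induction_on with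
    | _ n ih =>
      intro 𝔟 hn h0 hpm h
      by_cases htop : 𝔟 = ⊤
      · exact ⟨1, by rw [htop, Nat.cast_one, Ideal.span_singleton_one]⟩
      obtain ⟨𝔭, h𝔭m, h𝔟𝔭⟩ := Ideal.exists_le_maximal 𝔟 htop
      have h𝔭 : 𝔭.IsPrime := h𝔭m.isPrime
      have hn0 : Ideal.absNorm 𝔟 ≠ 0 := by
        rw [Ne, Ideal.absNorm_eq_zero_iff]
        exact h0
      obtain ⟨p, hpp, hp𝔭⟩ := inv_prime hn0 h𝔭 (h𝔟𝔭 (Ideal.absNorm_mem 𝔟))
      have hpm' : p.Coprime m := by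
        rw [Nat.Prime.coprime_iff_not_dvd hpp]
        intro hpd
        have h1 : (m : 𝓞 k) ∈ 𝔭 := Ideal.mem_of_dvd 𝔭 (Nat.cast_dvd_cast hpd) hp𝔭
        have h2 : 𝔟 ⊔ Ideal.span {(m : 𝓞 k)} = ⊤ := Ideal.isCoprime_iff_sup_eq.1 hpm
        have h3 : 𝔟 ⊔ Ideal.span {(m : 𝓞 k)} ≤ 𝔭 :=
          sup_le h𝔟𝔭 ((Ideal.span_singleton_le_iff_mem _).2 h1)
        rw [h2] at h3
        exact h𝔭.ne_top (top_le_iff.1 h3)
      have hpb : Ideal.span {(p : 𝓞 k)} ≠ ⊥ := by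
        rw [Ne, Ideal.span_singleton_eq_bot]
        exact Nat.cast_ne_zero.2 hpp.ne_zero
      have hall : ∀ δ : Gal(k/ℚ), δ • 𝔟 = 𝔟 := by
        intro δ
        rcases inv_two hk hσ δ with rfl | rfl
        · exact one_smul _ _
        · exact h
      -- `(p)` is squarefree
      have hsq : (UniqueFactorizationMonoid.normalizedFactors
          (Ideal.span {(p : 𝓞 k)})).Nodup := by
        rw [← UniqueFactorizationMonoid.squarefree_iff_nodup_normalizedFactors hpb]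
        intro 𝔠 h𝔠
        by_contra hu
        have h𝔠0 : 𝔠 ≠ 0 := by
          rintro rfl
          rw [zero_mul, zero_dvd_iff] at h𝔠
          exact hpb h𝔠
        obtain ⟨𝔮, h𝔮, h𝔮𝔠⟩ := WfDvdMonoid.exists_irreducible_factor hu h𝔠0
        have h𝔮p : 𝔮.IsPrime := Ideal.isPrime_of_prime (irreducible_iff_prime.1 h𝔮)
        have h1 : 𝔮 * 𝔮 ∣ Ideal.span {(p : 𝓞 k)} := (mul_dvd_mul h𝔮𝔠 h𝔮𝔠).trans h𝔠
        have h2 : (p : 𝓞 k) ∈ 𝔮 := by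
          rw [← Ideal.dvd_span_singleton]
          exact (dvd_mul_right 𝔮 𝔮).trans h1
        exact StarkRQ.split_unram (F := k) (M := k) hram hpp hpm' h𝔮p h2 h1
      have hdvd : Ideal.span {(p : 𝓞 k)} ∣ 𝔟 := by
        rw [UniqueFactorizationMonoid.dvd_iff_normalizedFactors_le_normalizedFactors hpb h0,
          Multiset.le_iff_subset hsq]
        intro 𝔮 h𝔮
        rw [Ideal.mem_normalizedFactors_iff hpb] at h𝔮
        rw [Ideal.mem_normalizedFactors_iff h0]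
        refine ⟨h𝔮.1, ?_⟩
        have := h𝔮.1
        obtain ⟨δ, hδ⟩ := StarkRQ.exists_smul_eq hpp hp𝔭
          ((Ideal.span_singleton_le_iff_mem _).1 h𝔮.2)
        rw [← hδ, ← hall δ]
        exact smul_mono_right δ h𝔟𝔭
      obtain ⟨𝔟', rfl⟩ := hdvd
      have hb0 : 𝔟' ≠ ⊥ := by
        rintro rfl
        exact h0 (mul_zero _)
      have hb1 : σ • 𝔟' = 𝔟' := by
        rw [smul_mul', inv_span] at h
        have h1 : σ • (p : 𝓞 k) = p := by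
          have := map_natCast (MulSemiringAction.toRingHom Gal(k/ℚ) (𝓞 k) σ) p
          exact this
        rw [h1] at h
        exact mul_left_cancel₀ hpb h
      have hb2 : Prm m 𝔟' := ((prm_mul_iff _ _).1 hpm).2
      have hlt : Ideal.absNorm 𝔟' < n := by
        rw [← hn, map_mul, Ideal.absNorm_span_natCast, RingOfIntegers.rank, hk.finrank_eq]
        have h1 : Ideal.absNorm 𝔟' ≠ 0 := by
          rw [Ne, Ideal.absNorm_eq_zero_iff]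
          exact hb0
        exact lt_mul_of_one_lt_left (Nat.pos_of_ne_zero h1)
          (Nat.one_lt_pow two_ne_zero hpp.one_lt)
      obtain ⟨r, hr⟩ := ih _ hlt 𝔟' rfl hb0 hb2 hb1
      refine ⟨p * r, ?_⟩
      rw [hr, Ideal.span_singleton_mul_span_singleton, Nat.cast_mul]
  exact key _ 𝔟 rfl h0 hp h

private theorem inv_norm (hk : IsIQ k) {σ : Gal(k/ℚ)} (hσ : σ ≠ 1) (a : 𝓞 k) :
    ((Algebra.norm ℤ a : ℤ) : 𝓞 k) = a * σ • a := by
  classical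
  have hu : (Finset.univ : Finset Gal(k/ℚ)) = {1, σ} := by
    ext δ
    simp only [Finset.mem_univ, Finset.mem_insert, Finset.mem_singleton, true_iff]
    exact inv_two hk hσ δ
  apply RingOfIntegers.ext
  have h1 := Algebra.norm_eq_prod_automorphisms ℚ (a : k)
  rw [hu, Finset.prod_pair (Ne.symm hσ), ← Algebra.coe_norm_int] at h1
  have h2 : (algebraMap ℚ k) ((Algebra.norm ℤ a : ℤ) : ℚ) = ((Algebra.norm ℤ a : ℤ) : k) := by
    simp
  rw [h2] at h1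
  have h3 : (((Algebra.norm ℤ a : ℤ) : 𝓞 k) : k) = ((Algebra.norm ℤ a : ℤ) : k) := by simp
  exact h3.trans h1

/-- the norm of an ideal in an invariant ray class is a square modulo `m` -/
theorem inv_class (hk : IsIQ k) {m : ℕ} (hm : 2 ≤ m)
    (hram : ∀ p : ℕ, p.Prime → (p : ℤ) ∣ discr k → p ∣ m) {σ : Gal(k/ℚ)} (hσ : σ ≠ 1)
    {𝔞 : Ideal (𝓞 k)} (h0 : 𝔞 ≠ ⊥) (hp : Prm (2 * m) 𝔞) (h : REq (2 * m) 𝔞 (σ • 𝔞)) :
    ∃ r : ℕ, r.Coprime m ∧ Ideal.absNorm 𝔞 ≡ r ^ 2 [MOD m] := by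
  have hcx : IsTotallyComplex k := hk.isComplex
  obtain ⟨α, β, hα0, hβ0, ⟨x, hx⟩, ⟨y, hy⟩, hab⟩ := h
  have hσσ : ∀ a : 𝓞 k, σ • σ • a = a := by
    intro a
    rw [smul_smul, inv_sq hk hσ, one_smul]
  have hσσ' : ∀ 𝔠 : Ideal (𝓞 k), σ • σ • 𝔠 = 𝔠 := by
    intro 𝔠
    rw [smul_smul, inv_sq hk hσ, one_smul]
  have hs0 : ∀ a : 𝓞 k, a ≠ 0 → σ • a ≠ 0 := fun a ha => (smul_ne_zero_iff_ne σ).2 ha
  have hσ𝔞 : σ • 𝔞 ≠ ⊥ := by
    intro h1
    apply h0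
    rw [← hσσ' 𝔞, h1, Ideal.smul_bot]
  -- conjugate equation
  have hab' : Ideal.span {σ • α} * σ • 𝔞 = Ideal.span {σ • β} * 𝔞 := by
    have h1 := congrArg (fun 𝔠 => σ • 𝔠) hab
    simp only [smul_mul', inv_span, hσσ'] at h1
    exact h1
  -- equality of the norms
  have hN : α * σ • α = β * σ • β := by
    have h1 : Ideal.span {α * σ • α} = Ideal.span {β * σ • β} := by
      have h2 : Ideal.span {α * σ • α} * (𝔞 * σ • 𝔞) = Ideal.span {β * σ • β} * (𝔞 * σ • 𝔞) := by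
        rw [← Ideal.span_singleton_mul_span_singleton, ← Ideal.span_singleton_mul_span_singleton,
          mul_mul_mul_comm, hab, hab']
        ring
      exact mul_right_cancel₀ (mul_ne_zero h0 hσ𝔞) h2
    rw [← inv_norm hk hσ, ← inv_norm hk hσ] at h1 ⊢
    have hpos : ∀ a : 𝓞 k, a ≠ 0 → 0 < Algebra.norm ℤ a := by
      intro a ha
      have h3 : 0 < Algebra.norm ℚ (a : k) :=
        norm_pos_of_complex ((RingOfIntegers.coe_ne_zero_iff).2 ha)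
      rw [← Algebra.coe_norm_int] at h3
      exact_mod_cast h3
    have h4 := congrArg Ideal.absNorm h1
    obtain ⟨a, ha⟩ := Int.eq_ofNat_of_zero_le (hpos α hα0).le
    obtain ⟨b, hb⟩ := Int.eq_ofNat_of_zero_le (hpos β hβ0).le
    rw [ha, hb, Int.cast_natCast, Int.cast_natCast, Ideal.absNorm_span_natCast,
      Ideal.absNorm_span_natCast, RingOfIntegers.rank, hk.finrank_eq] at h4
    rw [ha, hb, Nat.pow_left_injective (n := 2) two_ne_zero h4]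
  set μ : 𝓞 k := 1 + m * (x + y) with hμ
  have h2m : ((2 * m : ℕ) : 𝓞 k) = 2 * m := by push_cast; ring
  rw [h2m] at hx hy
  have hαβ : α + β = 2 * μ := by
    rw [hμ]
    linear_combination hx + hy
  have hμ1 : (m : 𝓞 k) ∣ μ - 1 := ⟨x + y, by rw [hμ]; ring⟩
  have hα1 : (m : 𝓞 k) ∣ α - 1 := ⟨2 * x, by rw [hx]; ring⟩
  have hσm : σ • (m : 𝓞 k) = m := map_natCast (MulSemiringAction.toRingHom Gal(k/ℚ) (𝓞 k) σ) m
  have hσ2 : σ • (2 : 𝓞 k) = 2 := by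
    have := map_ofNat (MulSemiringAction.toRingHom Gal(k/ℚ) (𝓞 k) σ) 2
    exact this
  have hμ0 : μ ≠ 0 := by
    intro h1
    rw [h1] at hμ1
    have h3 := norm_congr_one hμ1
    have h4 : Algebra.norm ℤ (0 : 𝓞 k) = 0 := Algebra.norm_zero
    rw [h4, zero_sub, dvd_neg] at h3
    have h5 : (m : ℤ) ≤ 1 := Int.le_of_dvd one_pos h3
    omega
  have hσμ1 : (m : 𝓞 k) ∣ σ • μ - 1 := by
    obtain ⟨c, hc⟩ := hμ1
    refine ⟨σ • c, ?_⟩
    have h1 : σ • μ - 1 = σ • (μ - 1) := by rw [smul_sub, smul_one]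
    rw [h1, hc, smul_mul', hσm]
  -- `β̄ μ = α μ̄`
  have hmain : σ • β * μ = α * σ • μ := by
    have h1 : σ • α + σ • β = 2 * σ • μ := by
      rw [← smul_add, hαβ, smul_mul', hσ2]
    have h3 : (2 : 𝓞 k) * (σ • β * μ) = 2 * (α * σ • μ) := by
      linear_combination (-(σ • β)) * hαβ + α * h1 - hN
    exact mul_left_cancel₀ two_ne_zero h3
  set 𝔟 : Ideal (𝓞 k) := Ideal.span {α * σ • μ} * 𝔞 with h𝔟
  have hc0 : α * σ • μ ≠ 0 := mul_ne_zero hα0 (hs0 μ hμ0)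
  have hc1 : (m : 𝓞 k) ∣ α * σ • μ - 1 := by
    have h1 : α * σ • μ - 1 = α * (σ • μ - 1) + (α - 1) := by ring
    rw [h1]
    exact dvd_add (hσμ1.mul_left α) hα1
  have h𝔟0 : 𝔟 ≠ ⊥ := by
    refine mul_ne_zero ?_ h0
    rw [Ne, Ideal.zero_eq_bot, Ideal.span_singleton_eq_bot]
    exact hc0
  have h𝔟p : Prm m 𝔟 := (prm_mul_iff _ _).2 ⟨prm_span hc1, Prm.of_dvd (dvd_mul_left m 2) hp⟩
  have h𝔟i : σ • 𝔟 = 𝔟 := by
    rw [h𝔟, smul_mul', inv_span, smul_mul', hσσ, ← hmain,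
      mul_comm (σ • α) μ, mul_comm (σ • β) μ, ← Ideal.span_singleton_mul_span_singleton,
      ← Ideal.span_singleton_mul_span_singleton, mul_assoc, mul_assoc, hab']
  obtain ⟨r, hr⟩ := inv_ideal hk (by omega) hram hσ h𝔟0 h𝔟p h𝔟i
  have hNb : Ideal.absNorm 𝔟 = r ^ 2 := by
    rw [hr, Ideal.absNorm_span_natCast, RingOfIntegers.rank, hk.finrank_eq]
  refine ⟨r, ?_, ?_⟩
  · have h1 := (prm_iff 𝔟).1 h𝔟p
    rw [hNb] at h1
    exact (Nat.coprime_pow_left_iff (by norm_num) _ _).1 h1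
  · rw [← hNb, h𝔟, map_mul]
    have h1 := absNorm_congr_one hc0 hc1
    have h2 : Ideal.absNorm (Ideal.span {α * σ • μ}) ≡ 1 [MOD m] := by
      rw [← Int.natCast_modEq_iff]
      exact (Int.modEq_iff_dvd.2 (by exact_mod_cast h1)).symm
    have h3 := Nat.ModEq.mul_right (Ideal.absNorm 𝔞) h2
    rw [one_mul] at h3
    exact h3.symm

end Pool.Agent.EMB
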