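import Pool.Agent.EMB.KWa
import Pool.Agent.EMB.Defs
import Pool.Agent.CMG.LRam

/-!
# Kronecker-Weber (KW2)

`kw_gal`: `M/ℚ` Galois, all ramified primes divide the even number `N`: the maximal abelian subfield `F` of `M` is contained
in `ℚ(ζ_{8 N^a})` for some `a` (`ab_mem` for `E = F(i)`). `hmax_cyclotomic`: the maximal abelian subfield of `M(ζ_f)`,
`8 N^a ∣ f`, is `ℚ(ζ_f)`. `kw`: the same in the algebraic closure.
-/

set_option autoImplicit false

noncomputable section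

open NumberField Module Pool.Agent.StarkRQ Pool.Agent.CMG

namespace Pool.Agent.EMB

/-- an automorphism which is the identity on `M` and on a primitive root of unity -/
theorem eq_one_of_fix {M E : Type} [Field M] [NumberField M] [Field E]
    [NumberField E] [Algebra M E] {f : ℕ} [IsCyclotomicExtension {f} M E] [NeZero f] {ζ : E}
    (hζ : IsPrimitiveRoot ζ f) (g : Gal(E/ℚ))
    (hM : ∀ x : M, g (algebraMap M E x) = algebraMap M E x) (hg : g ζ = ζ) : g = 1 := by
  let t : E ≃ₐ[M] E := AlgEquiv.ofRingEquiv (f := g.toRingEquiv) hM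
  have ht : t = 1 := by
    have h8 := IsCyclotomicExtension.adjoin_primitive_root_eq_top (A := M) (B := E) hζ
    have h9 : (t : E →ₐ[M] E) = AlgHom.id M E := by
      apply AlgHom.ext_of_adjoin_eq_top h8
      intro x hx
      rw [Set.mem_singleton_iff] at hx
      rw [hx]
      exact hg
    ext x
    exact DFunLike.congr_fun h9 x
  ext x
  exact DFunLike.congr_fun ht x

/-- the fixed field of the commutator subgroup -/
theorem mem_fixed_commutator {M : Type} [Field M] [NumberField M] [IsGalois ℚ M] {x : M} :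
    x ∈ IntermediateField.fixedField (commutator Gal(M/ℚ)) ↔
      ∀ σ τ : Gal(M/ℚ), σ (τ x) = τ (σ x) := by
  constructor
  · intro hx σ τ
    have h2 : σ⁻¹ * τ⁻¹ * σ * τ ∈ commutator Gal(M/ℚ) := by
      have h3 := Subgroup.commutator_mem_commutator (H₁ := (⊤ : Subgroup Gal(M/ℚ)))
        (H₂ := ⊤) (Subgroup.mem_top σ⁻¹) (Subgroup.mem_top τ⁻¹)
      rw [commutatorElement_def, inv_inv, inv_inv] at h3
      exact h3
    have h3 : (σ⁻¹ * τ⁻¹ * σ * τ) x = x := hx ⟨_, h2⟩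
    have h4 : (τ * σ) ((σ⁻¹ * τ⁻¹ * σ * τ) x) = (τ * σ) x := by rw [h3]
    have h5 : (τ * σ) ((σ⁻¹ * τ⁻¹ * σ * τ) x) = (τ * σ * (σ⁻¹ * τ⁻¹ * σ * τ)) x := rfl
    have h6 : τ * σ * (σ⁻¹ * τ⁻¹ * σ * τ) = σ * τ := by group
    rw [h5, h6] at h4
    exact h4
  · intro hx
    have h1 : commutator Gal(M/ℚ) ≤ MulAction.stabilizer Gal(M/ℚ) x := by
      rw [commutator_def, Subgroup.commutator_le]
      intro g _ h _
      rw [MulAction.mem_stabilizer_iff, commutatorElement_def]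
      change g (h (g⁻¹ (h⁻¹ x))) = x
      rw [hx g⁻¹ h⁻¹]
      have e1 : h (h⁻¹ (g⁻¹ x)) = g⁻¹ x := by
        rw [← AlgEquiv.mul_apply, mul_inv_cancel, AlgEquiv.one_apply]
      rw [e1, ← AlgEquiv.mul_apply, mul_inv_cancel, AlgEquiv.one_apply]
    rintro ⟨g, hg⟩
    exact h1 hg

/-- the group of `M(ζ_f)` is abelian if the group of `M` is -/
theorem isAbelian_cyclotomic {M E : Type} [Field M] [NumberField M] [IsAbelianGalois ℚ M] [Field E]
    [NumberField E] [Algebra M E] {f : ℕ} (hf : f ≠ 0) [IsCyclotomicExtension {f} M E] :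
    IsAbelianGalois ℚ E := by
  have hfn : NeZero f := ⟨hf⟩
  have hE : IsGalois ℚ E := isGalois_cyclotomic (M := M) hf
  have hζ := IsCyclotomicExtension.zeta_spec f M E
  have : IsMulCommutative Gal(E/ℚ) := by
    refine ⟨⟨fun σ τ => ?_⟩⟩
    have h1 : (τ * σ)⁻¹ * (σ * τ) = 1 := by
      refine eq_one_of_fix (M := M) hζ _ (fun x => ?_) ?_
      · have h2 : σ (τ (algebraMap M E x)) = τ (σ (algebraMap M E x)) := by
          have e1 := AlgEquiv.restrictNormal_commutes σ M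
          have e2 := AlgEquiv.restrictNormal_commutes τ M
          rw [← e2, ← e1, ← e1, ← e2]
          congr 1
          have h3 : σ.restrictNormal M * τ.restrictNormal M =
            τ.restrictNormal M * σ.restrictNormal M := mul_comm' _ _
          exact DFunLike.congr_fun h3 x
        change (τ * σ)⁻¹ (σ (τ (algebraMap M E x))) = _
        rw [h2]
        exact (τ * σ).symm_apply_apply _
      · have h2 := commute_on_roots σ τ (IsCyclotomicExtension.zeta f M E) hζ.pow_eq_one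
        change (τ * σ)⁻¹ (σ (τ (IsCyclotomicExtension.zeta f M E))) = _
        rw [h2]
        exact (τ * σ).symm_apply_apply _
    exact (inv_mul_eq_one.1 h1).symm
  exact { }

theorem kw_gal {M : Type} [Field M] [NumberField M] [IsGalois ℚ M] {N : ℕ} (hN : 2 ≤ N) (h2N : 2 ∣ N)
    (hram : ∀ p : ℕ, p.Prime → (p : ℤ) ∣ discr M → p ∣ N) :
    ∃ a : ℕ, 1 ≤ a ∧ ∀ (ι : M →+* ℂ) (x : M), (∀ σ τ : Gal(M/ℚ), σ (τ x) = τ (σ x)) →
      ι x ∈ IntermediateField.adjoin ℚ
        {Complex.exp (2 * Real.pi * Complex.I / (8 * N ^ a : ℕ))} := by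
  classical
  let F : IntermediateField ℚ M := IntermediateField.fixedField (commutator Gal(M/ℚ))
  have hFn : (commutator Gal(M/ℚ)).Normal := inferInstance
  have hFG : IsGalois ℚ F := IsGalois.of_fixedField_normal_subgroup (commutator Gal(M/ℚ))
  have hFab : IsAbelianGalois ℚ F := by
    have : IsMulCommutative Gal(F/ℚ) := by
      refine ⟨⟨fun σ τ => ?_⟩⟩
      obtain ⟨s, rfl⟩ := AlgEquiv.restrictNormalHom_surjective M σ
      obtain ⟨t, rfl⟩ := AlgEquiv.restrictNormalHom_surjective M τ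
      ext x
      have h1 := mem_fixed_commutator.1 x.2 s t
      have e1 : ∀ (s : Gal(M/ℚ)) (y : F), (((AlgEquiv.restrictNormalHom F) s y : F) : M) = s (y : M) :=
        fun s y => AlgEquiv.restrictNormal_commutes s F y
      change (((AlgEquiv.restrictNormalHom F) s ((AlgEquiv.restrictNormalHom F) t x) : F) : M) =
        (((AlgEquiv.restrictNormalHom F) t ((AlgEquiv.restrictNormalHom F) s x) : F) : M)
      rw [e1, e1, e1, e1]
      exact h1
    exact { }
  have hnf : NumberField (CyclotomicField 4 F) :=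
    IsCyclotomicExtension.numberField {4} F (CyclotomicField 4 F)
  have hE : IsAbelianGalois ℚ (CyclotomicField 4 F) := isAbelian_cyclotomic (M := F) (f := 4) (by norm_num)
  have hζ := IsCyclotomicExtension.zeta_spec 4 F (CyclotomicField 4 F)
  obtain ⟨ιE⟩ : Nonempty (CyclotomicField 4 F →+* ℂ) := inferInstance
  obtain ⟨j, hj⟩ : ∃ j : CyclotomicField 4 F, ιE j = Complex.I := by
    have h1 : IsPrimitiveRoot (ιE (IsCyclotomicExtension.zeta 4 F (CyclotomicField 4 F))) 4 :=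
      hζ.map_of_injective ιE.injective
    have h2 : Complex.I ^ 4 = 1 := Complex.I_pow_four
    obtain ⟨i, -, hi⟩ := h1.eq_pow_of_pow_eq_one h2
    exact ⟨_ ^ i, by rw [map_pow, hi]⟩
  have hramE : ∀ p : ℕ, p.Prime → (p : ℤ) ∣ discr (CyclotomicField 4 F) → p ∣ N := by
    intro p hp h
    rcases ram_cyclotomic (M := F) (E := CyclotomicField 4 F) (f := 4) (by norm_num) hp h with h1 | h1
    · exact hram p hp (h1.trans (discr_dvd_discr F M))
    · have h2 : p ∣ 2 := hp.dvd_of_dvd_pow (by norm_num; exact h1 : p ∣ 2 ^ 2)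
      exact h2.trans h2N
  have hab : IsAbelianGalois (IntermediateField.adjoin ℚ {j}) (CyclotomicField 4 F) :=
    IsAbelianGalois.tower_top ℚ _ _
  obtain ⟨a, ha, h⟩ := ab_mem ιE hj hab hN h2N hramE
  refine ⟨a, ha, fun ι x hx => ?_⟩
  let x' : F := ⟨x, mem_fixed_commutator.2 hx⟩
  let _ : Algebra F ℂ := (ι.comp (algebraMap F M)).toAlgebra
  obtain ⟨γ, hγ⟩ := exists_comp ιE
    ((IsAlgClosed.lift : CyclotomicField 4 F →ₐ[F] ℂ) : CyclotomicField 4 F →+* ℂ)
  have h1 : ι x = ιE (γ (algebraMap F (CyclotomicField 4 F) x')) := by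
    rw [← hγ]
    exact ((IsAlgClosed.lift : CyclotomicField 4 F →ₐ[F] ℂ).commutes x').symm
  rw [h1]
  apply h
  intro σ τ
  have h2 : σ * τ = τ * σ := mul_comm' _ _
  exact DFunLike.congr_fun h2 _

/-- Kronecker-Weber inside a field with the roots of unity -/
theorem kw_mem {M E : Type} [Field M] [NumberField M] [IsGalois ℚ M] {N : ℕ} {a : ℕ}
    (h : ∀ (ι : M →+* ℂ) (x : M), (∀ σ τ : Gal(M/ℚ), σ (τ x) = τ (σ x)) →
      ι x ∈ IntermediateField.adjoin ℚ
        {Complex.exp (2 * Real.pi * Complex.I / (8 * N ^ a : ℕ))})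
    [Field E] [NumberField E] [Algebra M E] {f : ℕ} (hf : f ≠ 0) (hN0 : N ≠ 0) (hNf : 8 * N ^ a ∣ f)
    {ζ : E} (hζ : IsPrimitiveRoot ζ f) {x : M} (hx : ∀ σ τ : Gal(M/ℚ), σ (τ x) = τ (σ x)) :
    algebraMap M E x ∈ IntermediateField.adjoin ℚ {ζ} := by
  obtain ⟨ι⟩ : Nonempty (E →+* ℂ) := inferInstance
  have h1 := h (ι.comp (algebraMap M E)) x hx
  have hf' : NeZero f := ⟨hf⟩
  have h2 : IntermediateField.adjoin ℚ {Complex.exp (2 * Real.pi * Complex.I / (8 * N ^ a : ℕ))} ≤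
      (IntermediateField.adjoin ℚ {ζ}).map ι.toRatAlgHom := by
    rw [IntermediateField.adjoin_simple_le_iff]
    have h3 : IsPrimitiveRoot (ι ζ) f := hζ.map_of_injective ι.injective
    have h4 := Complex.isPrimitiveRoot_exp (8 * N ^ a) (by positivity)
    have h5 : (Complex.exp (2 * Real.pi * Complex.I / (8 * N ^ a : ℕ))) ^ f = 1 := by
      obtain ⟨c, hc⟩ := hNf
      rw [hc, pow_mul, h4.pow_eq_one, one_pow]
    obtain ⟨i, -, hi⟩ := h3.eq_pow_of_pow_eq_one h5
    rw [← hi]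
    refine ⟨ζ ^ i, pow_mem (IntermediateField.mem_adjoin_simple_self ℚ ζ) i, ?_⟩
    exact map_pow _ _ _
  obtain ⟨y, hy, hy'⟩ := h2 h1
  have h3 : y = algebraMap M E x := ι.injective hy'
  rw [← h3]
  exact hy

/-- the maximal abelian subfield of `M(ζ_f)` is `ℚ(ζ_f)` -/
theorem hmax_cyclotomic {M E : Type} [Field M] [NumberField M] [IsGalois ℚ M] [Field E]
    [NumberField E] [Algebra M E] {f : ℕ} (hf : f ≠ 0) [IsCyclotomicExtension {f} M E] {ζ : E}
    (hζ : IsPrimitiveRoot ζ f)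
    (h : ∀ x : M, (∀ σ τ : Gal(M/ℚ), σ (τ x) = τ (σ x)) →
      algebraMap M E x ∈ IntermediateField.adjoin ℚ {ζ}) (x : E)
    (hx : ∀ σ τ : Gal(E/ℚ), σ (τ x) = τ (σ x)) : x ∈ IntermediateField.adjoin ℚ {ζ} := by
  have hfn : NeZero f := ⟨hf⟩
  have hE : IsGalois ℚ E := isGalois_cyclotomic (M := M) hf
  rw [← IsGalois.fixedField_fixingSubgroup (IntermediateField.adjoin ℚ {ζ})]
  rintro ⟨g, hg⟩
  change g x = x
  rw [IntermediateField.mem_fixingSubgroup_iff] at hg
  have hgζ : g ζ = ζ := hg ζ (IntermediateField.mem_adjoin_simple_self ℚ ζ)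
  -- the restriction to `M` is in the commutator subgroup
  let r : Gal(E/ℚ) →* Gal(M/ℚ) := AlgEquiv.restrictNormalHom M
  have hr : ∀ (s : Gal(E/ℚ)) (y : M), algebraMap M E (r s y) = s (algebraMap M E y) :=
    fun s y => AlgEquiv.restrictNormal_commutes s M y
  have h1 : r g ∈ commutator Gal(M/ℚ) := by
    rw [← IntermediateField.fixingSubgroup_fixedField (commutator Gal(M/ℚ)),
      IntermediateField.mem_fixingSubgroup_iff]
    intro y hy
    apply (algebraMap M E).injective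
    rw [hr]
    exact hg _ (h y (mem_fixed_commutator.1 hy))
  have h2 : (commutator Gal(E/ℚ)).map r = commutator Gal(M/ℚ) := by
    rw [commutator_def, commutator_def, Subgroup.map_commutator,
      Subgroup.map_top_of_surjective r (AlgEquiv.restrictNormalHom_surjective E)]
  rw [← h2] at h1
  obtain ⟨c, hc, hc'⟩ := h1
  have hcζ : c ζ = ζ := by
    have h3 : commutator Gal(E/ℚ) ≤ MulAction.stabilizer Gal(E/ℚ) ζ := by
      rw [commutator_def, Subgroup.commutator_le]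
      intro g _ h _
      rw [MulAction.mem_stabilizer_iff, commutatorElement_def]
      exact commutator_fixes g h ζ hζ.pow_eq_one
    exact h3 hc
  have h3 : c⁻¹ * g = 1 := by
    refine eq_one_of_fix (M := M) hζ _ (fun y => ?_) ?_
    · have h4 : r (c⁻¹ * g) = 1 := by rw [map_mul, map_inv, hc', inv_mul_cancel]
      rw [← hr, h4, AlgEquiv.one_apply]
    · change c⁻¹ (g ζ) = ζ
      rw [hgζ]
      conv_lhs => rw [← hcζ]
      exact c.symm_apply_apply ζ
  have h4 : g = c := (inv_mul_eq_one.1 h3).symm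
  rw [h4]
  have h5 := mem_fixed_commutator.2 hx
  exact h5 ⟨c, hc⟩

/-- Kronecker-Weber in the algebraic closure -/
theorem kw {E : IntermediateField ℚ Qb} {N : ℕ} (hE : Nf E N)
    (hab : ∀ g h : GQ, Fix E (g * h * g⁻¹ * h⁻¹)) (h2 : 2 ∣ N) (hN : N ≠ 0) :
    ∃ a : ℕ, ∀ m : ℕ, a ≤ m → E ≤ Qm (N ^ m) := by
  have := hE.fin
  have := hE.gal
  have halg : Algebra.IsAlgebraic ℚ Qb := AlgebraicClosure.isAlgebraic ℚ
  have hnor : Normal ℚ Qb := ⟨fun x => IsAlgClosed.splits _⟩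
  have hnf : NumberField E := ⟨⟩
  have hgal : IsGalois ℚ E := ⟨⟩
  have hN2 : 2 ≤ N := Nat.le_of_dvd (Nat.pos_of_ne_zero hN) h2
  obtain ⟨a, -, h⟩ := kw_gal (M := E) hN2 h2 (hE.ram hnf)
  have hcomm : ∀ (x : E) (σ τ : Gal(E/ℚ)), σ (τ x) = τ (σ x) := by
    intro x σ τ
    obtain ⟨s, rfl⟩ := AlgEquiv.restrictNormalHom_surjective Qb σ
    obtain ⟨t, rfl⟩ := AlgEquiv.restrictNormalHom_surjective Qb τ
    have e1 : ∀ (s : GQ) (y : E), (((AlgEquiv.restrictNormalHom E) s y : E) : Qb) = s (y : Qb) :=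
      fun s y => AlgEquiv.restrictNormal_commutes s E y
    apply Subtype.ext
    rw [e1, e1, e1, e1]
    have h1 := hab s⁻¹ t⁻¹ (x : Qb) x.2
    rw [inv_inv, inv_inv] at h1
    have h2 : (t * s) ((s⁻¹ * t⁻¹ * s * t) (x : Qb)) = (t * s) (x : Qb) := by rw [h1]
    have h3 : (t * s) ((s⁻¹ * t⁻¹ * s * t) (x : Qb)) = (t * s * (s⁻¹ * t⁻¹ * s * t)) (x : Qb) := rfl
    have h4 : t * s * (s⁻¹ * t⁻¹ * s * t) = s * t := by group
    rw [h3, h4] at h2
    exact h2
  refine ⟨a + 3, fun m hm x hx => ?_⟩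
  obtain ⟨n, hn⟩ : ∃ n, n = 8 * N ^ a := ⟨_, rfl⟩
  have hnm : n ∣ N ^ m := by
    refine Dvd.dvd.trans ?_ (pow_dvd_pow N hm)
    rw [hn, pow_add, mul_comm]
    refine mul_dvd_mul_left _ ?_
    obtain ⟨c, rfl⟩ := h2
    exact ⟨c ^ 3, by ring⟩
  have hn0 : NeZero n := ⟨by rw [hn]; positivity⟩
  obtain ⟨ι⟩ : Nonempty (Qb →+* ℂ) := ⟨(IsAlgClosed.lift : Qb →ₐ[ℚ] ℂ).toRingHom⟩
  obtain ⟨z, hz⟩ := HasEnoughRootsOfUnity.exists_primitiveRoot Qb n
  have h1 := h (ι.comp (algebraMap E Qb)) ⟨x, hx⟩ (hcomm _)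
  have h2' : IntermediateField.adjoin ℚ {Complex.exp (2 * Real.pi * Complex.I / (8 * N ^ a : ℕ))} ≤
      (Qm (N ^ m)).map ι.toRatAlgHom := by
    rw [IntermediateField.adjoin_simple_le_iff, ← hn]
    have h3 : IsPrimitiveRoot (ι z) n := hz.map_of_injective ι.injective
    have h4 := Complex.isPrimitiveRoot_exp n hn0.ne
    obtain ⟨i, -, hi⟩ := h3.eq_pow_of_pow_eq_one h4.pow_eq_one
    rw [← hi]
    refine ⟨z ^ i, IntermediateField.subset_adjoin ℚ _ ?_, map_pow _ _ _⟩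
    obtain ⟨c, hc⟩ := hnm
    rw [Set.mem_ofPred_eq, ← pow_mul, hc, mul_comm i, mul_assoc, pow_mul, hz.pow_eq_one, one_pow]
  obtain ⟨y, hy, hy'⟩ := h2' h1
  have h3 : y = x := ι.injective hy'
  rw [← h3]
  exact hy

end Pool.Agent.EMB
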