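import Pool.Agent.EMB.Pair
import Pool.Agent.EMB.Comp

/-!
# EMB-MAIN the auxiliary field

`exists_big`: by `exists_chars` for `G₀ = Gal(E₀/ℚ)`: `χ i`; composed with `GQ → G₀` they are the characters `sg (x i)` of elements `x i ∈ E₀` (`exists_sq`), `Ind (x i) (x j)` for `i ≠ j` (`hsurj`), `Nf (Qx (x i)) N` (`Nf.of_le`, `Qx (x i) ≤ E₀`, `Sq.normal`). `exists_rz`: `E i j` for `i < j`. `E₁ = E₀ ⊔ ⨆ E i j` (`Nf.iSup`, index set the pairs `i < j`).
Let `C` be the subgroup of `GQ` generated by the commutators and `Fix E₁`; `exists_field`: `A ≤ E₁` with `Fix A g ↔ g ∈ C`; `Nf A N`; `kw`: `A ≤ Qm (N^m)` for `m ≥ a`. `f = N^(a+3)`, `E = E₁ ⊔ Qm f`. `Nf E N` (`nf_Qm`, `Nf.mono`: the primes of `f` are those of `N`). Apply `comp_group` to `G = Gal(E/ℚ)` (all data come from `GQ` by `exists_restrict`):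
`hZ`: let `g ∈ GQ` with all `sg (x i) g = 0`; then `g|_{E₀}` is central, so for all `h`, `[g, h]` fixes `E₀`; it fixes `E i j` since `om (x i) (x j) g h = 0`, and it fixes `Qm f`; so it fixes `E`. `D i j` = the image in `G` of `{g : Fix (E i j) g}`. `hmax`: let `t ∈ E` be fixed by all commutators; it is fixed by every `g ∈ GQ` which fixes `Qm f`: such a `g` fixes `A`, so `g ∈ C`: `g = c u` with `c` a product
of commutators and `u` fixing `E₁`; `c` fixes `Qm f` too, so `u` fixes `Qm f` and `E₁`, so `E`; so `g t = c t = t` (products of commutators of `GQ` fix `t`: `[g, h]` restricts to the commutator in `Gal(E/ℚ)`). So `t ∈ Qm f` (`mem_of_fix`). `exists_aux`: `ι₀ : M₀ →ₐ[ℚ] Qb`, `E₀ = ι₀.fieldRange` (`nf_of_range`; `Gal(E₀/ℚ) ≃ Gal(M₀/ℚ)`: transport `hsq`, `hidx`), `M = E`, `Algebra M₀ E` by `ι₀` and the inclusion.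
-/

set_option autoImplicit false

noncomputable section

open NumberField Pool.Agent.CMR
open scoped Pointwise

namespace Pool.Agent.EMB

/-- the automorphisms which fix `F` -/
private def embMain_D (F : IntermediateField ℚ Qb) : Subgroup GQ where
  carrier := {g | Fix F g}
  one_mem' := Fix.one
  mul_mem' := fun h h' => h.mul h'
  inv_mem' := fun h => h.inv

private theorem embMain_normal {F : IntermediateField ℚ Qb} (hF : Normal ℚ F) :
    (embMain_D F).Normal :=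
  ⟨fun _ hg h => Fix.conj hg h⟩

private theorem embMain_root {f : ℕ} (hf : f ≠ 0) {ζ : Qb} (hζ : ζ ^ f = 1) (g h : GQ) :
    g (h ζ) = h (g ζ) := by
  have : NeZero f := ⟨hf⟩
  have h0 : ζ ≠ 0 := by
    rintro rfl
    rw [zero_pow hf] at hζ
    exact zero_ne_one hζ
  have h1 : Units.mk0 ζ h0 ∈ rootsOfUnity f Qb := by
    rw [mem_rootsOfUnity]
    exact Units.ext hζ
  obtain ⟨a, ha⟩ := map_rootsOfUnity_eq_pow_self g ⟨Units.mk0 ζ h0, h1⟩
  obtain ⟨b, hb⟩ := map_rootsOfUnity_eq_pow_self h ⟨Units.mk0 ζ h0, h1⟩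
  have ha' : g ζ = ζ ^ a := ha
  have hb' : h ζ = ζ ^ b := hb
  rw [hb', map_pow, ha', map_pow, hb', ← pow_mul, ← pow_mul, mul_comm]

/-- commutators fix the roots of unity -/
private theorem embMain_Qm {f : ℕ} (hf : f ≠ 0) (g h : GQ) : Fix (Qm f) (g * h * g⁻¹ * h⁻¹) := by
  refine (fix_adjoin _ _).2 fun ζ hζ => ?_
  have hζ' : ζ ^ f = 1 := hζ
  have h1 : (g⁻¹ (h⁻¹ ζ)) ^ f = 1 := by rw [← map_pow, ← map_pow, hζ', map_one, map_one]
  have h2 := embMain_root hf h1 g h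
  have h3 : h (g (g⁻¹ (h⁻¹ ζ))) = ζ := by
    rw [← AlgEquiv.mul_apply g, mul_inv_cancel, AlgEquiv.one_apply, ← AlgEquiv.mul_apply,
      mul_inv_cancel, AlgEquiv.one_apply]
  rw [h3] at h2
  exact h2

private theorem embMain_app {E : IntermediateField ℚ Qb} [Normal ℚ E] {x : Qb} (hx : x ∈ E)
    {g g' : GQ} (h : (AlgEquiv.restrictNormalHom E g : Gal(E/ℚ)) = AlgEquiv.restrictNormalHom E g') :
    g x = g' x := by
  have h1 := restrict_apply g (⟨x, hx⟩ : E)
  have h2 := restrict_apply g' (⟨x, hx⟩ : E)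
  rw [h] at h1
  exact h1.symm.trans h2

/-- the group theoretic part -/
private theorem embMain_group {E : IntermediateField ℚ Qb} [NumberField E] [Normal ℚ E] {d : ℕ}
    (hd : d ≠ 1) {x : Fin d → Qb} (hx : ∀ i, x i ∈ E) (hs : ∀ i, Sq (x i))
    (hsurj : ∀ v : Fin d → ZMod 2, ∃ g : GQ, ∀ i, sg (x i) g = v i)
    (hZ : ∀ g : GQ, (∀ i, sg (x i) g = 0) → ∀ h, Fix E (g * h * g⁻¹ * h⁻¹))
    (hF : ∀ i j, i < j → ∃ F ≤ E, Rz F (x i) (x j)) :
    (∀ g h : Gal(E/ℚ), g * g * h = h * (g * g)) ∧ (Subgroup.center Gal(E/ℚ)).index = 2 ^ d ∧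
      Nat.card (commutator Gal(E/ℚ)) = 2 ^ (d * (d - 1) / 2) := by
  choose! F hFE hFR using hF
  choose! z hz1 hz2 hz3 using fun i j hij => (hFR i j hij).comm
  choose lift hlift using fun σ : Gal(E/ℚ) => exists_restrict σ
  have hsg : ∀ i (g : GQ), sg (x i) (lift (AlgEquiv.restrictNormalHom E g)) = sg (x i) g := by
    intro i g
    unfold sg
    rw [embMain_app (hx i) (hlift (AlgEquiv.restrictNormalHom E g))]
  have hmem : ∀ i j, i < j → ∀ g : GQ,
      (AlgEquiv.restrictNormalHom E g : Gal(E/ℚ)) ∈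
        (embMain_D (F i j)).map (AlgEquiv.restrictNormalHom E) ↔ Fix (F i j) g := by
    intro i j hij g
    constructor
    · rintro ⟨g', hg', hgg⟩ t ht
      rw [← embMain_app (hFE i j hij ht) hgg]
      exact hg' t ht
    · intro hg
      exact ⟨g, hg, rfl⟩
  refine comp_group (G := Gal(E/ℚ)) hd (χ := fun i σ => sg (x i) (lift σ))
    (D := fun i j => (embMain_D (F i j)).map (AlgEquiv.restrictNormalHom E))
    (z := fun i j => AlgEquiv.restrictNormalHom E (z i j)) ?_ ?_ ?_ ?_ ?_ ?_ ?_ ?_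
  · intro i σ τ
    show sg (x i) (lift (σ * τ)) = sg (x i) (lift σ) + sg (x i) (lift τ)
    rw [← sg_mul (hs i), ← hsg i (lift σ * lift τ), map_mul, hlift, hlift]
  · intro v
    obtain ⟨g, hg⟩ := hsurj v
    exact ⟨AlgEquiv.restrictNormalHom E g, fun i => (hsg i g).trans (hg i)⟩
  · intro σ hσ τ
    have h1 := fix_iff_restrict.1 (hZ (lift σ) hσ (lift τ))
    rw [map_mul, map_mul, map_mul, map_inv, map_inv, hlift, hlift] at h1
    rw [mul_inv_eq_one, mul_inv_eq_iff_eq_mul] at h1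
    exact h1
  · intro i j hij
    exact (embMain_normal (hFR i j hij).gal).map _ fun σ => ⟨lift σ, hlift σ⟩
  · intro i j hij h
    exact hz1 i j hij ((hmem i j hij _).1 h)
  · intro i j hij
    have h := (hmem i j hij (z i j * z i j)).2 (hz2 i j hij)
    rw [map_mul] at h
    exact h
  · intro i j hij σ τ h
    have h1 := (hmem i j hij _).2 ((hz3 i j hij (lift σ) (lift τ)).1 h)
    rw [map_mul, map_mul, map_mul, map_inv, map_inv, hlift, hlift] at h1
    exact h1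
  · intro i j hij σ τ h
    have h1 := (hmem i j hij _).2 ((hz3 i j hij (lift σ) (lift τ)).2 h)
    rw [map_mul, map_mul, map_mul, map_mul, map_inv, map_inv, hlift, hlift] at h1
    exact h1

theorem exists_big {E₀ : IntermediateField ℚ Qb} [NumberField E₀] [IsGalois ℚ E₀] {N : ℕ}
    (hE : Nf E₀ N) (h2 : 2 ∣ N) (hN : N ≠ 0)
    (hsq : ∀ g h : Gal(E₀/ℚ), g * g * h = h * (g * g)) {d : ℕ}
    (hidx : (Subgroup.center Gal(E₀/ℚ)).index = 2 ^ d) :
    ∃ (E : IntermediateField ℚ Qb) (_ : NumberField E) (f : ℕ), E₀ ≤ E ∧ Nf E N ∧ f ≠ 0 ∧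
      8 ∣ f ∧ (∀ p : ℕ, p.Prime → (p ∣ N ↔ p ∣ f)) ∧ Qm f ≤ E ∧
      (∀ t ∈ E, (∀ g h : GQ, (g * h * g⁻¹ * h⁻¹) t = t) → t ∈ Qm f) ∧
      (∀ g h : Gal(E/ℚ), g * g * h = h * (g * g)) ∧
      (Subgroup.center Gal(E/ℚ)).index = 2 ^ d ∧
      Nat.card (commutator Gal(E/ℚ)) = 2 ^ (d * (d - 1) / 2) := by
  obtain ⟨χ, hχ, hsurj, hcen⟩ := exists_chars hsq hidx
  have hχ1 : ∀ i, χ i 1 = 0 := fun i => by
    have h := hχ i 1 1
    rw [mul_one] at h
    exact (left_eq_add.1 h)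
  -- the square roots
  have hsq' : ∀ i, ∃ x ∈ E₀, Sq x ∧ ∀ g : GQ, sg x g = χ i (AlgEquiv.restrictNormalHom E₀ g) := by
    intro i
    refine exists_sq hE.fin hE.gal (χ := fun g => χ i (AlgEquiv.restrictNormalHom E₀ g))
      (fun g h => ?_) fun g hg => ?_
    · show χ i (AlgEquiv.restrictNormalHom E₀ (g * h)) = _
      rw [map_mul, hχ]
    · show χ i (AlgEquiv.restrictNormalHom E₀ g) = 0
      rw [fix_iff_restrict.1 hg, hχ1]
  choose x hxE hxs hxχ using hsq'
  have hsurj' : ∀ v : Fin d → ZMod 2, ∃ g : GQ, ∀ i, sg (x i) g = v i := by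
    intro v
    obtain ⟨σ, hσ⟩ := hsurj v
    obtain ⟨g, hg⟩ := exists_restrict σ
    exact ⟨g, fun i => by rw [hxχ, hg, hσ]⟩
  have hnx : ∀ i, Nf (Qx (x i)) N := fun i => hE.of_le
    (IntermediateField.adjoin_le_iff.2 (Set.singleton_subset_iff.2 (hxE i))) (hxs i).normal
  have hind : ∀ i j, i ≠ j → Ind (x i) (x j) := by
    intro i j hij
    refine ⟨hxs i, hxs j, fun a b => ?_⟩
    obtain ⟨g, hg⟩ := hsurj' fun k => if k = i then a else b
    exact ⟨g, by rw [hg, if_pos rfl], by rw [hg, if_neg hij.symm]⟩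
  have hrz : ∀ p : {p : Fin d × Fin d // p.1 < p.2}, ∃ F : IntermediateField ℚ Qb,
      Rz F (x p.1.1) (x p.1.2) ∧ Nf F N := fun p =>
    exists_rz (hind _ _ p.2.ne) h2 hN (hnx _) (hnx _)
  choose F hFR hFN using hrz
  have hE₁ : Nf (E₀ ⊔ ⨆ p, F p) N := hE.sup (Nf.iSup hFN)
  set E₁ : IntermediateField ℚ Qb := E₀ ⊔ ⨆ p, F p with hE₁d
  have hfix₁ : ∀ g : GQ, Fix E₁ g ↔ Fix E₀ g ∧ ∀ p, Fix (F p) g := fun g => by
    rw [hE₁d, fix_sup, fix_iSup]
  -- the maximal abelian subfield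
  have hn₁ := embMain_normal hE₁.gal
  have hnC : (commutator GQ ⊔ embMain_D E₁).Normal := inferInstance
  obtain ⟨A, hA, hAf, hAn, hAC⟩ := exists_field hnC hE₁.fin hE₁.gal fun g hg =>
    Subgroup.mem_sup_right hg
  have hcom : ∀ g h : GQ, g * h * g⁻¹ * h⁻¹ ∈ commutator GQ := fun g h =>
    Subgroup.commutator_mem_commutator (Subgroup.mem_top g) (Subgroup.mem_top h)
  obtain ⟨a, ha⟩ := kw (hE₁.of_le hA hAn)
    (fun g h => (hAC _).2 (Subgroup.mem_sup_left (hcom g h))) h2 hN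
  have hAm := ha (a + 3) (by omega)
  have hf : N ^ (a + 3) ≠ 0 := pow_ne_zero _ hN
  have hpr : ∀ p : ℕ, p.Prime → (p ∣ N ↔ p ∣ N ^ (a + 3)) := fun p hp =>
    ⟨fun h => dvd_pow h (by omega), fun h => hp.dvd_of_dvd_pow h⟩
  set f : ℕ := N ^ (a + 3) with hfd
  have hEN : Nf (E₁ ⊔ Qm f) N := hE₁.sup ((nf_Qm hf).mono fun p hp h => (hpr p hp).2 h)
  have hQf : ∀ g h : GQ, Fix (Qm f) (g * h * g⁻¹ * h⁻¹) := embMain_Qm hf
  have hle₀ : E₀ ≤ E₁ ⊔ Qm f := le_sup_left.trans le_sup_left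
  have hnf : NumberField ↥(E₁ ⊔ Qm f) := numberField_of_fin hEN.fin
  have hnorm : Normal ℚ ↥(E₁ ⊔ Qm f) := hEN.gal
  refine ⟨E₁ ⊔ Qm f, hnf, f, hle₀, hEN, hf, ?_, hpr, le_sup_right, fun t ht hc => ?_, ?_⟩
  · have h8 : 2 ^ 3 ∣ N ^ 3 := pow_dvd_pow_of_dvd h2 3
    rw [hfd, pow_add]
    exact Dvd.dvd.mul_left (by norm_num at h8 ⊢; exact h8) _
  · refine mem_of_fix fun g hg => ?_
    obtain ⟨c, hc', u, hu, hgu⟩ := Subgroup.mem_sup_of_normal_right.1
      ((hAC g).1 (hg.mono hAm))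
    have h3 : Fix (Qm f) c := by
      have h4 : commutator GQ ≤ embMain_D (Qm f) := by
        rw [commutator_def, Subgroup.commutator_le]
        exact fun g _ h _ => hQf g h
      exact h4 hc'
    have h4 : Fix (Qm f) u := by
      have h5 : u = c⁻¹ * g := by rw [← hgu, inv_mul_cancel_left]
      rw [h5]
      exact h3.inv.mul hg
    have h5 : Fix (E₁ ⊔ Qm f) u := fix_sup.2 ⟨hu, h4⟩
    have h6 : c t = t := by
      have h7 : commutator GQ ≤ MulAction.stabilizer GQ t := by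
        rw [commutator_def, Subgroup.commutator_le]
        exact fun g _ h _ => hc g h
      exact h7 hc'
    rw [← hgu, AlgEquiv.mul_apply, h5 t ht, h6]
  · refine embMain_group (index_ne_two hidx) (fun i => hle₀ (hxE i)) hxs hsurj'
      (fun g hg h => ?_) fun i j hij => ?_
    · refine fix_sup.2 ⟨(hfix₁ _).2 ⟨?_, fun p => ?_⟩, hQf g h⟩
      · refine fix_iff_restrict.2 ?_
        have h3 := (hcen (AlgEquiv.restrictNormalHom E₀ g)).1
          (fun i => by rw [← hxχ, hg]) (AlgEquiv.restrictNormalHom E₀ h)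
        rw [map_mul, map_mul, map_mul, map_inv, map_inv, h3, mul_inv_cancel_right, mul_inv_cancel]
      · obtain ⟨z, _, _, hz⟩ := (hFR p).comm
        refine (hz g h).1 ?_
        unfold om
        rw [hg, hg, zero_mul, mul_zero, add_zero]
    · exact ⟨F ⟨(i, j), hij⟩, (le_iSup F ⟨(i, j), hij⟩).trans (le_sup_right.trans le_sup_left),
        hFR ⟨(i, j), hij⟩⟩

/-- the index of the center does not change under isomorphisms. -/
private theorem embMain_index {G G' : Type} [Group G] [Group G'] (e : G ≃* G') :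
    (Subgroup.center G').index = (Subgroup.center G).index := by
  rw [← Subgroup.index_map_equiv (Subgroup.center G) e]
  congr 1
  ext g
  rw [Subgroup.mem_center_iff]
  constructor
  · intro h
    refine ⟨e.symm g, Subgroup.mem_center_iff.2 fun a => ?_, e.apply_symm_apply g⟩
    apply e.injective
    rw [map_mul, map_mul, e.apply_symm_apply]
    exact h _
  · rintro ⟨a, ha, rfl⟩ b
    have h1 := Subgroup.mem_center_iff.1 ha (e.symm b)
    have h2 := congrArg e h1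
    rw [map_mul, map_mul, e.apply_symm_apply] at h2
    exact h2

/-- **Existence of the auxiliary field**: a Galois extension of `ℚ` whose Galois group has central
squares is contained in one, of the same level, with the same index of the center, with the maximal
possible commutator subgroup, and with maximal abelian subfield a cyclotomic field. -/
theorem exists_aux {M₀ : Type} [Field M₀] [NumberField M₀] [IsGalois ℚ M₀] {N : ℕ} (h2 : 2 ∣ N)
    (hN : N ≠ 0) (hram : ∀ p : ℕ, p.Prime → (p : ℤ) ∣ discr M₀ → p ∣ N)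
    (hsq : ∀ g h : Gal(M₀/ℚ), g * g * h = h * (g * g)) {d : ℕ}
    (hidx : (Subgroup.center Gal(M₀/ℚ)).index = 2 ^ d) :
    ∃ (M : Type) (_ : Field M) (_ : NumberField M) (_ : Algebra M₀ M) (_ : IsGalois ℚ M) (f : ℕ)
      (ζ : M), f ≠ 0 ∧ 8 ∣ f ∧ (∀ p : ℕ, p.Prime → (p ∣ N ↔ p ∣ f)) ∧ IsPrimitiveRoot ζ f ∧
      (∀ x : M, (∀ σ τ : Gal(M/ℚ), σ (τ x) = τ (σ x)) → x ∈ IntermediateField.adjoin ℚ {ζ}) ∧
      (∀ p : ℕ, p.Prime → (p : ℤ) ∣ discr M → p ∣ f) ∧
      (∀ g h : Gal(M/ℚ), g * g * h = h * (g * g)) ∧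
      (Subgroup.center Gal(M/ℚ)).index = 2 ^ d ∧
      Nat.card (commutator Gal(M/ℚ)) = 2 ^ (d * (d - 1) / 2) := by
  obtain ⟨ι⟩ : Nonempty (M₀ →ₐ[ℚ] Qb) := ⟨IsAlgClosed.lift⟩
  have hE₀ : Nf ι.fieldRange N := nf_of_range ι hram
  have hnf : NumberField ι.fieldRange := numberField_of_fin hE₀.fin
  have hnorm : Normal ℚ ι.fieldRange := hE₀.gal
  have hgal : IsGalois ℚ ι.fieldRange := ⟨⟩
  let e : Gal(M₀/ℚ) ≃* Gal(ι.fieldRange/ℚ) :=
    AlgEquiv.autCongr (AlgEquiv.ofInjectiveField ι : M₀ ≃ₐ[ℚ] ι.fieldRange)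
  obtain ⟨E, hnE, f, hle, hEN, hf, h8, hpr, hQE, hmax, h5, h6, h7⟩ := exists_big hE₀ h2 hN
    (fun g h => by
      apply e.symm.injective
      rw [map_mul, map_mul, map_mul, map_mul]
      exact hsq _ _) ((embMain_index e).trans hidx)
  have hnormE : Normal ℚ E := hEN.gal
  have hgalE : IsGalois ℚ E := ⟨⟩
  have hfn : NeZero f := ⟨hf⟩
  obtain ⟨ζ, hζ⟩ := HasEnoughRootsOfUnity.exists_primitiveRoot Qb f
  have hζQ : ζ ∈ Qm f := IntermediateField.subset_adjoin _ _ hζ.pow_eq_one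
  let alg : Algebra M₀ E := ((IntermediateField.inclusion hle).toRingHom.comp
    (AlgEquiv.ofInjectiveField ι : M₀ ≃ₐ[ℚ] ι.fieldRange).toRingEquiv.toRingHom).toAlgebra
  refine ⟨E, inferInstance, hnE, alg, hgalE, f, ⟨ζ, hQE hζQ⟩, hf, h8, hpr, ?_, ?_,
    (fun p hp h => (hpr p hp).1 (hEN.ram _ p hp h)), h5, h6, h7⟩
  · exact IsPrimitiveRoot.of_map_of_injective (f := E.val) hζ E.val.injective
  · intro x hx
    have h9 : (x : Qb) ∈ Qm f := by
      refine hmax _ x.2 fun g h => ?_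
      have h10 := hx (AlgEquiv.restrictNormalHom E g⁻¹) (AlgEquiv.restrictNormalHom E h⁻¹)
      have h11 := congrArg (fun y : E => (y : Qb)) h10
      simp only [restrict_apply] at h11
      rw [AlgEquiv.mul_apply, AlgEquiv.mul_apply, AlgEquiv.mul_apply, h11, ← AlgEquiv.mul_apply h,
        mul_inv_cancel, AlgEquiv.one_apply, ← AlgEquiv.mul_apply, mul_inv_cancel,
        AlgEquiv.one_apply]
    have h10 : Qm f ≤ IntermediateField.adjoin ℚ {ζ} := by
      refine IntermediateField.adjoin_le_iff.2 fun y hy => ?_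
      obtain ⟨i, _, hi⟩ := hζ.eq_pow_of_pow_eq_one hy
      rw [← hi]
      exact pow_mem (IntermediateField.mem_adjoin_simple_self ℚ ζ) i
    have h11 := h10 h9
    have h12 : (@IntermediateField.adjoin ℚ _ E _ E.algebra' {(⟨ζ, hQE hζQ⟩ : E)}).map E.val =
        IntermediateField.adjoin ℚ {ζ} := by
      rw [IntermediateField.adjoin_map, Set.image_singleton]
      rfl
    rw [← h12] at h11
    obtain ⟨y, hy, hyx⟩ := h11
    have h13 : y = x := Subtype.ext hyx
    rw [← h13]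
    exact hy

end Pool.Agent.EMB
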