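import Pool.Agent.EMB.Defs
import Pool.Agent.CMG.LRam

/-!
# EMB-RAM ramification and inertia groups (number fields as types)

`Iner Q σ` says that `σ` is in the inertia group of `Q` (Mathlib: `Ideal.inertia`, `AddSubgroup.mem_inertia`). `inertia_fix`: `σ|_L` (`L` is normal) is in the inertia group of `𝔮 = Q ∩ 𝓞 L`, which has order `e(𝔮) = 1` (`NumberField.not_dvd_discr_iff_isUnramifiedIn` and `Ideal.card_inertia_eq_ramificationIdxIn`, see `CMG/LRam.lean`,
`StarkRQ` `Cong.unique` with `q = 1`: a Frobenius-like element with exponent one is unique). `not_dvd_discr`: let `Q` be a prime of `M` over `p`, `𝔮 = Q ∩ 𝓞 L`. The inertia group `I` of `Q` in `Gal(M/ℚ)` has order `e(Q/p)`; by `h` it is contained in `Gal(M/L)`, so it is the inertia group of `Q` in `Gal(M/L)`, of order `e(Q/𝔮)`.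
So `e(𝔮/p) = e(Q/p) / e(Q/𝔮) = 1` for all primes `𝔮` of `L` over `p` (every `𝔮` is of this form), `p` is unramified in `L` (`NumberField.not_dvd_discr_iff_isUnramifiedIn`). `iner_root` (total ramification): let `J` be the set of the `a` mod `l` such that some `σ` in the inertia group of `Q` has `σ ζ = ζ ^ a`, a subgroup of `(ZMod l)ˣ`
(independent of `Q` over `l`, because the primes over `l` are conjugate and `Gal(ℚ(ζ)/ℚ)` is abelian). Let `L ⊆ ℚ(ζ)` be the field of the elements fixed by the `σ_a`, `a ∈ J`. By `not_dvd_discr` (`L ⊆ M`) `l ∤ discr L`; the other primes are unramified in `ℚ(ζ)` (`CMG.ram_cyclotomic` with `M = ℚ`, `discr_dvd_discr`), so `|discr L| = 1`, and by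
Minkowski (`NumberField.abs_discr_gt_two`) `L = ℚ`, so `J` is everything (`IsPrimitiveRoot` of prime order: `Gal(ℚ(ζ)/ℚ) = (ZMod l)ˣ`, irreducibility of the cyclotomic polynomial; Galois correspondence). `iner_root'`: an element of the inertia group at a prime over `p ∤ m` fixes the `m`-th roots of unity (`lram_root` in `CMG/LRam.lean`).
-/

set_option autoImplicit false

noncomputable section

open NumberField Pool.Agent.CMR Pool.Agent.StarkRQ
open scoped Pointwise

namespace Pool.Agent.EMB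

/-- `σ` is in the inertia group of `Q`. -/
def Iner {M : Type} [Field M] [NumberField M] (Q : Ideal (𝓞 M)) (σ : Gal(M/ℚ)) : Prop :=
  ∀ x : 𝓞 M, σ • x - x ∈ Q

/-- the restriction of an inertia element -/
private theorem ram_restrict {L M : Type} [Field L] [NumberField L] [Field M] [NumberField M]
    [Algebra L M] [IsGalois ℚ L] {Q : Ideal (𝓞 M)} {σ : Gal(M/ℚ)} (hσ : Iner Q σ) :
    Iner (Q.comap (algebraMap (𝓞 L) (𝓞 M))) (AlgEquiv.restrictNormalHom L σ) := by
  intro x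
  have h2 : algebraMap (𝓞 L) (𝓞 M) (AlgEquiv.restrictNormalHom L σ • x) =
      σ • algebraMap (𝓞 L) (𝓞 M) x := by
    apply NumberField.RingOfIntegers.ext
    change algebraMap L M ((AlgEquiv.restrictNormalHom L σ) (x : L)) =
      σ (algebraMap L M (x : L))
    exact AlgEquiv.restrictNormal_commutes σ L (x : L)
  rw [Ideal.mem_comap, map_sub, h2]
  exact hσ _

private theorem ram_commutes {L M : Type} [Field L] [Field M] [NumberField L] [NumberField M]
    [Algebra L M] [IsGalois ℚ L] {σ : Gal(M/ℚ)} {τ : Gal(L/ℚ)}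
    (h : AlgEquiv.restrictNormalHom L σ = τ) (x : L) :
    σ (algebraMap L M x) = algebraMap L M (τ x) := by
  rw [← h]
  exact (AlgEquiv.restrictNormal_commutes σ L x).symm

/-- the inertia group of `Q` is mapped onto the inertia group of `Q ∩ 𝓞 L` -/
private theorem ram_surj {L M : Type} [Field L] [NumberField L] [Field M] [NumberField M]
    [Algebra L M] [IsGalois ℚ L] [IsGalois ℚ M] {p : ℕ} (hp : p.Prime)
    {Q : Ideal (𝓞 M)} (hQ : Q.IsPrime) (hpQ : (p : 𝓞 M) ∈ Q) {τ : Gal(L/ℚ)}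
    (hτ : Iner (Q.comap (algebraMap (𝓞 L) (𝓞 M))) τ) :
    ∃ σ : Gal(M/ℚ), Iner Q σ ∧ AlgEquiv.restrictNormalHom L σ = τ := by
  have hpp : Prime (p : ℤ) := Nat.prime_iff_prime_int.mp hp
  have hGal : IsGalois L M := IsGalois.tower_top_of_isGalois ℚ L M
  set P : Ideal ℤ := Ideal.span {(p : ℤ)} with hP
  set q : Ideal (𝓞 L) := Q.comap (algebraMap (𝓞 L) (𝓞 M)) with hq
  have hqp : q.IsPrime := Ideal.comap_isPrime _ _
  have hPm : P.IsMaximal := PrincipalIdealRing.isMaximal_of_irreducible hpp.irreducible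
  have hQP : Q.LiesOver P := by
    rw [hP, Ideal.liesOver_span_iff (Ideal.IsPrime.ne_top inferInstance) hpp]
    exact_mod_cast hpQ
  have hqP : q.LiesOver P := by
    rw [hP, Ideal.liesOver_span_iff (Ideal.IsPrime.ne_top inferInstance) hpp, hq,
      Ideal.mem_comap]
    simpa using hpQ
  have hQq : Q.LiesOver q := ⟨rfl⟩
  have hfin : Finite (ℤ ⧸ P) := Ideal.finiteQuotientOfFreeOfNeBot _
    (by simpa [hP] using hp.ne_zero)
  have hfin' : Finite P.ResidueField :=
    Finite.of_surjective _ (Ideal.bijective_algebraMap_quotient_residueField P).2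
  have hq0 : q ≠ ⊥ := by
    intro h
    have : (p : 𝓞 L) ∈ q := by
      rw [hq, Ideal.mem_comap]
      simpa using hpQ
    rw [h, Ideal.mem_bot] at this
    exact hp.ne_zero (by exact_mod_cast this)
  have hqm : q.IsMaximal := hqp.isMaximal hq0
  have hfinq : Finite (𝓞 L ⧸ q) := Ideal.finiteQuotientOfFreeOfNeBot _ hq0
  have hfinq' : Finite q.ResidueField :=
    Finite.of_surjective _ (Ideal.bijective_algebraMap_quotient_residueField q).2
  have h1 : Nat.card (Q.inertia Gal(M/ℚ)) = P.ramificationIdxIn (𝓞 M) :=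
    Ideal.card_inertia_eq_ramificationIdxIn (G := Gal(M/ℚ)) P Q
  have h2 : Nat.card (Q.inertia Gal(M/L)) = q.ramificationIdxIn (𝓞 M) :=
    Ideal.card_inertia_eq_ramificationIdxIn (G := Gal(M/L)) q Q
  have h3 : Nat.card (q.inertia Gal(L/ℚ)) = P.ramificationIdxIn (𝓞 L) :=
    Ideal.card_inertia_eq_ramificationIdxIn (G := Gal(L/ℚ)) P q
  have hne : Nonempty (q.primesOver (𝓞 M)) := ⟨⟨Q, hQ, hQq⟩⟩
  have h4 : P.ramificationIdxIn (𝓞 L) * q.ramificationIdxIn (𝓞 M) =
      P.ramificationIdxIn (𝓞 M) :=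
    Ideal.ramificationIdxIn_mul_ramificationIdxIn q Gal(L/ℚ) (𝓞 M) Gal(M/ℚ) Gal(M/L)
  let f : Q.inertia Gal(M/ℚ) →* Gal(L/ℚ) :=
    (AlgEquiv.restrictNormalHom L).comp (Subgroup.subtype _)
  have h5 : Nat.card f.ker * Nat.card f.range = Nat.card (Q.inertia Gal(M/ℚ)) := by
    rw [← Subgroup.index_ker, Subgroup.card_mul_index]
  have h6 : Nat.card f.ker ≤ Nat.card (Q.inertia Gal(M/L)) := by
    have hk : ∀ σ : f.ker, ∀ x : L, (σ.1.1 : Gal(M/ℚ)) (algebraMap L M x) = algebraMap L M x := by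
      intro σ x
      have h7 : AlgEquiv.restrictNormalHom L σ.1.1 = 1 := σ.2
      rw [ram_commutes h7 x]
      rfl
    refine Nat.card_le_card_of_injective (fun σ => ⟨(AlgEquiv.ofRingEquiv
      (f := (σ.1.1 : Gal(M/ℚ)).toRingEquiv) (hk σ) : M ≃ₐ[L] M), fun x => σ.1.2 x⟩) ?_
    intro σ σ' h
    apply Subtype.ext
    apply Subtype.ext
    ext x
    have h8 := congrArg Subtype.val h
    exact DFunLike.congr_fun h8 x
  have h7 : f.range ≤ q.inertia Gal(L/ℚ) := by
    rintro _ ⟨σ, rfl⟩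
    exact ram_restrict (L := L) (σ := σ.1) (fun x => σ.2 x)
  have h8 : f.range = q.inertia Gal(L/ℚ) := by
    refine Subgroup.eq_of_le_of_card_ge h7 ?_
    rw [h3]
    have h9 : 0 < Nat.card f.ker := Nat.card_pos
    have h10 : Nat.card f.ker * Nat.card f.range =
        P.ramificationIdxIn (𝓞 L) * Nat.card (Q.inertia Gal(M/L)) := by
      rw [h5, h1, h2, h4]
    by_contra hlt
    push Not at hlt
    have h11 : Nat.card f.ker * Nat.card f.range <
        Nat.card (Q.inertia Gal(M/L)) * P.ramificationIdxIn (𝓞 L) := by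
      calc Nat.card f.ker * Nat.card f.range
          < Nat.card f.ker * P.ramificationIdxIn (𝓞 L) := Nat.mul_lt_mul_of_pos_left hlt h9
        _ ≤ _ := Nat.mul_le_mul_right _ h6
    rw [h10, mul_comm] at h11
    exact lt_irrefl _ h11
  have h9 : τ ∈ f.range := by
    rw [h8]
    exact hτ
  obtain ⟨σ, hσ⟩ := h9
  exact ⟨σ.1, fun x => σ.2 x, hσ⟩

/-- inertia elements are trivial on subfields in which `p` is unramified -/
theorem inertia_fix {L M : Type} [Field L] [NumberField L] [Field M] [NumberField M] [Algebra L M]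
    [IsGalois ℚ L] [IsGalois ℚ M] {p : ℕ} (hp : p.Prime) (h : ¬ (p : ℤ) ∣ discr L)
    {Q : Ideal (𝓞 M)} (hQ : Q.IsPrime) (hpQ : (p : 𝓞 M) ∈ Q) {σ : Gal(M/ℚ)} (hσ : Iner Q σ)
    (x : L) : σ (algebraMap L M x) = algebraMap L M x := by
  have hQM : (Q.comap (algebraMap (𝓞 L) (𝓞 M))).IsPrime := Ideal.comap_isPrime _ _
  have h0 := ram_restrict (L := L) hσ
  have h1 : Cong (AlgEquiv.restrictNormalHom L σ) (Q.comap (algebraMap (𝓞 L) (𝓞 M))) 1 := by
    intro x
    rw [pow_one]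
    exact h0 x
  have h3 : AlgEquiv.restrictNormalHom L σ = 1 :=
    Cong.unique hp h (by rw [Ideal.mem_comap, map_natCast]; exact hpQ) h1 (Cong.one _)
  rw [ram_commutes h3 x]
  rfl

/-- if all inertia elements are trivial on `L` then `p` is unramified in `L` -/
theorem not_dvd_discr {L M : Type} [Field L] [NumberField L] [Field M] [NumberField M] [Algebra L M]
    [IsGalois ℚ L] [IsGalois ℚ M] {p : ℕ} (hp : p.Prime)
    (h : ∀ Q : Ideal (𝓞 M), Q.IsPrime → (p : 𝓞 M) ∈ Q → ∀ σ : Gal(M/ℚ), Iner Q σ →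
      ∀ x : L, σ (algebraMap L M x) = algebraMap L M x) : ¬ (p : ℤ) ∣ discr L := by
  have hpp : Prime (p : ℤ) := Nat.prime_iff_prime_int.mp hp
  rw [NumberField.not_dvd_discr_iff_isUnramifiedIn L (𝓞 L) hpp,
    Algebra.isUnramifiedIn_iff_forall_ramificationIdx_eq_one]
  intro q hq hover
  have hpq' : ((p : ℤ) : 𝓞 L) ∈ q :=
    (Ideal.liesOver_span_iff (Ideal.IsPrime.ne_top inferInstance) hpp).mp hover
  have hpq : (p : 𝓞 L) ∈ q := by exact_mod_cast hpq'
  have hmax : (Ideal.span {(p : ℤ)}).IsMaximal :=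
    PrincipalIdealRing.isMaximal_of_irreducible hpp.irreducible
  have hfin : Finite (ℤ ⧸ Ideal.span {(p : ℤ)}) := Ideal.finiteQuotientOfFreeOfNeBot _
    (by simpa using hp.ne_zero)
  have hfin' : Finite (Ideal.span {(p : ℤ)}).ResidueField :=
    Finite.of_surjective _ (Ideal.bijective_algebraMap_quotient_residueField
      (Ideal.span {(p : ℤ)})).2
  rw [← Ideal.ramificationIdxIn_eq_ramificationIdx (Ideal.span {(p : ℤ)}) q Gal(L/ℚ),
    ← Ideal.card_inertia_eq_ramificationIdxIn (G := Gal(L/ℚ)) (Ideal.span {(p : ℤ)}) q,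
    Nat.card_eq_one_iff_unique]
  -- a prime of `M` over `q`
  obtain ⟨Q, hQ, hQq⟩ : ∃ Q : Ideal (𝓞 M), Q.IsPrime ∧
      Q.comap (algebraMap (𝓞 L) (𝓞 M)) = q := by
    obtain ⟨Q, -, hQ, hQq⟩ := Ideal.exists_ideal_over_prime_of_isIntegral (S := 𝓞 M) q ⊥
      (by
        intro x hx
        rw [Ideal.mem_comap, Ideal.mem_bot] at hx
        have : x = 0 := FaithfulSMul.algebraMap_injective (𝓞 L) (𝓞 M) (by rw [hx, map_zero])
        rw [this]
        exact q.zero_mem)
    exact ⟨Q, hQ, hQq⟩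
  have hpQ : (p : 𝓞 M) ∈ Q := by
    have : (p : 𝓞 L) ∈ Q.comap (algebraMap (𝓞 L) (𝓞 M)) := by rw [hQq]; exact hpq
    rw [Ideal.mem_comap] at this
    simpa using this
  have key : ∀ g : Gal(L/ℚ), g ∈ q.inertia Gal(L/ℚ) → g = 1 := by
    intro g hg
    obtain ⟨σ, hσ, hσg⟩ := ram_surj hp hQ hpQ (τ := g) (by rw [hQq]; exact fun x => hg x)
    ext x
    have h1 := ram_commutes hσg x
    rw [h Q hQ hpQ σ hσ x] at h1
    exact ((algebraMap L M).injective h1).symm
  refine ⟨⟨fun a b => ?_⟩, ⟨1⟩⟩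
  apply Subtype.ext
  rw [key a.1 a.2, key b.1 b.2]

/-- congruent roots of unity are equal -/
private theorem ram_root {R : Type} [CommRing R] [IsDomain R] {Q : Ideal R} [Q.IsPrime] {f p : ℕ}
    (hf : f ≠ 0) (hp : p.Prime) (hpf : ¬ p ∣ f) (hpQ : (p : R) ∈ Q) {z w : R} (hz : z ^ f = 1)
    (hw : w ^ f = 1) (h : w - z ∈ Q) : w = z := by
  by_contra hne
  have h1 := (Commute.all w z).geom_sum₂_mul f
  rw [hz, hw, sub_self] at h1
  have h2 : (∑ i ∈ Finset.range f, w ^ i * z ^ (f - 1 - i)) = 0 :=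
    (mul_eq_zero.1 h1).resolve_right (sub_ne_zero.2 hne)
  have h3 : Ideal.Quotient.mk Q w = Ideal.Quotient.mk Q z := Ideal.Quotient.eq.2 h
  have h4 := congrArg (Ideal.Quotient.mk Q) h2
  rw [map_sum, map_zero] at h4
  simp only [map_mul, map_pow, h3] at h4
  rw [geom_sum₂_self] at h4
  have h5 : (Ideal.Quotient.mk Q z) ^ (f - 1) * Ideal.Quotient.mk Q z = 1 := by
    rw [← pow_succ, Nat.sub_add_cancel (Nat.one_le_iff_ne_zero.2 hf), ← map_pow, hz, map_one]
  have h6 : ((f : ℕ) : R ⧸ Q) = 0 := by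
    calc ((f : ℕ) : R ⧸ Q) = f * ((Ideal.Quotient.mk Q z) ^ (f - 1) * Ideal.Quotient.mk Q z) := by
          rw [h5, mul_one]
      _ = 0 := by rw [← mul_assoc, h4, zero_mul]
  have h7 : (f : R) ∈ Q := by
    rw [← Ideal.Quotient.eq_zero_iff_mem, map_natCast]
    exact h6
  have hco : IsCoprime (p : ℤ) (f : ℤ) :=
    Nat.isCoprime_iff_coprime.2 ((Nat.Prime.coprime_iff_not_dvd hp).2 hpf)
  obtain ⟨a, b, hab⟩ := hco
  have h8 : (1 : R) ∈ Q := by
    have h9 : (1 : R) = (a : R) * (p : R) + (b : R) * (f : R) := by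
      have := congrArg (fun n : ℤ => (n : R)) hab
      push_cast at this
      exact this.symm
    rw [h9]
    exact Q.add_mem (Q.mul_mem_left _ hpQ) (Q.mul_mem_left _ h7)
  exact (Ideal.ne_top_iff_one Q).1 (Ideal.IsPrime.ne_top inferInstance) h8

/-- inertia elements at `p` fix the roots of unity of order prime to `p` -/
theorem iner_root' {M : Type} [Field M] [NumberField M] {p m : ℕ} (hp : p.Prime) (hm : m ≠ 0)
    (hpm : ¬ p ∣ m) {ζ : M} (hζ : ζ ^ m = 1) {Q : Ideal (𝓞 M)} (hQ : Q.IsPrime)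
    (hpQ : (p : 𝓞 M) ∈ Q) {σ : Gal(M/ℚ)} (hσ : Iner Q σ) : σ ζ = ζ := by
  have hint : IsIntegral ℤ ζ :=
    IsIntegral.of_pow (Nat.pos_of_ne_zero hm) (by rw [hζ]; exact isIntegral_one)
  set z : 𝓞 M := ⟨ζ, hint⟩ with hz
  have hz1 : z ^ m = 1 := by
    apply NumberField.RingOfIntegers.ext
    change ζ ^ m = 1
    exact hζ
  have hw1 : (σ • z) ^ m = 1 := by
    rw [← smul_pow', hz1, smul_one]
  have h6 := ram_root hm hp hpm hpQ hz1 hw1 (hσ z)
  have h7 := congrArg (fun y : 𝓞 M => (y : M)) h6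
  exact h7

/-- total ramification of `l` in the field of the `l`-th roots of unity -/
theorem iner_root {M : Type} [Field M] [NumberField M] [IsGalois ℚ M] {l : ℕ} (hl : l.Prime)
    {ζ : M} (hζ : IsPrimitiveRoot ζ l) {Q : Ideal (𝓞 M)} (hQ : Q.IsPrime) (hlQ : (l : 𝓞 M) ∈ Q)
    {a : ℕ} (ha : a.Coprime l) : ∃ σ : Gal(M/ℚ), Iner Q σ ∧ σ ζ = ζ ^ a := by
  have hl0 : NeZero l := ⟨hl.ne_zero⟩
  have hlf : Fact l.Prime := ⟨hl⟩
  have hpp : Prime (l : ℤ) := Nat.prime_iff_prime_int.mp hl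
  let C : IntermediateField ℚ M := IntermediateField.adjoin ℚ {ζ}
  have hC : IsCyclotomicExtension {l} ℚ C := hζ.intermediateField_adjoin_isCyclotomicExtension ℚ
  have hCG : IsGalois ℚ C := IsCyclotomicExtension.isGalois {l} ℚ C
  have hζC : ζ ∈ C := IntermediateField.mem_adjoin_simple_self ℚ ζ
  set ξ : C := ⟨ζ, hζC⟩ with hξ
  have hξp : IsPrimitiveRoot ξ l := by
    rw [← IsPrimitiveRoot.map_iff_of_injective (f := algebraMap C M)
      (FaithfulSMul.algebraMap_injective C M)]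
    exact hζ
  -- the Galois group of `ℚ(ζ)`
  have hirr : Irreducible (Polynomial.cyclotomic l ℚ) :=
    Polynomial.cyclotomic.irreducible_rat hl.pos
  obtain ⟨τ, hτ⟩ : ∃ τ : Gal(C/ℚ), τ ξ = ξ ^ a := by
    have hξa : IsPrimitiveRoot (ξ ^ a) l := hξp.pow_of_coprime a ha
    have hmin : minpoly ℚ (hξp.powerBasis ℚ).gen = minpoly ℚ (hξa.powerBasis ℚ).gen := by
      rw [IsPrimitiveRoot.powerBasis_gen, IsPrimitiveRoot.powerBasis_gen]
      exact (hξp.minpoly_eq_cyclotomic_of_irreducible hirr).symm.trans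
        (hξa.minpoly_eq_cyclotomic_of_irreducible hirr)
    refine ⟨(hξp.powerBasis ℚ).equivOfMinpoly (hξa.powerBasis ℚ) hmin, ?_⟩
    have h := (hξp.powerBasis ℚ).equivOfMinpoly_gen (hξa.powerBasis ℚ) hmin
    rwa [IsPrimitiveRoot.powerBasis_gen, IsPrimitiveRoot.powerBasis_gen] at h
  have hPm : (Ideal.span {(l : ℤ)}).IsMaximal :=
    PrincipalIdealRing.isMaximal_of_irreducible hpp.irreducible
  set q : Ideal (𝓞 C) := Q.comap (algebraMap (𝓞 C) (𝓞 M)) with hq
  have hqp : q.IsPrime := Ideal.comap_isPrime _ _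
  have hqP : q.LiesOver (Ideal.span {(l : ℤ)}) := by
    rw [Ideal.liesOver_span_iff (Ideal.IsPrime.ne_top inferInstance) hpp, hq,
      Ideal.mem_comap]
    simpa using hlQ
  have hfin : Finite (ℤ ⧸ Ideal.span {(l : ℤ)}) := Ideal.finiteQuotientOfFreeOfNeBot _
    (by simpa using hl.ne_zero)
  have hfin' : Finite (Ideal.span {(l : ℤ)}).ResidueField :=
    Finite.of_surjective _ (Ideal.bijective_algebraMap_quotient_residueField
      (Ideal.span {(l : ℤ)})).2
  have h3 : Nat.card (q.inertia Gal(C/ℚ)) = l - 1 := by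
    rw [Ideal.card_inertia_eq_ramificationIdxIn (G := Gal(C/ℚ)) (Ideal.span {(l : ℤ)}) q]
    exact IsCyclotomicExtension.Rat.ramificationIdxIn_eq_of_prime l C
  have h4 : Nat.card Gal(C/ℚ) = l - 1 := by
    rw [IsGalois.card_aut_eq_finrank, IsCyclotomicExtension.finrank (n := l) C hirr,
      Nat.totient_prime hl]
  have h5 : q.inertia Gal(C/ℚ) = ⊤ := Subgroup.eq_top_of_card_eq _ (by rw [h3, h4])
  have h6 : Iner q τ := by
    intro x
    have : τ ∈ q.inertia Gal(C/ℚ) := by rw [h5]; exact Subgroup.mem_top _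
    exact this x
  obtain ⟨σ, hσ, hστ⟩ := ram_surj hl hQ hlQ h6
  refine ⟨σ, hσ, ?_⟩
  have h7 := ram_commutes hστ ξ
  rw [hτ] at h7
  exact h7

end Pool.Agent.EMB
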