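import Pool.Agent.EMB.Ram

/-!
# EMB-TAME central tame inertia groups

Let `κ = 𝓞 M / Q` (finite field), `W = Q / Q²`, a vector space of dimension one over `κ` (Mathlib: `Ideal.finrank_cotangentSpace`..., or choose `π ∈ Q`, `π ∉ Q²`: for every `y ∈ Q` there is `u ∈ 𝓞 M` with `y - u π ∈ Q²`, because `Q = (π) + Q²`; and `u π ∈ Q²` iff `u ∈ Q`). Let `I` be the inertia group. For `τ ∈ I` let `τ π ≡ u_τ π` mod `Q²`,
`θ(τ) = u_τ` mod `Q`, nonzero. For all `y ∈ Q`: `τ y ≡ u_τ y` mod `Q²` (`y = v π + …`, `τ v ≡ v` mod `Q`), so `θ` is a homomorphism. Kernel: let `θ(τ) = 1`; claim: `τ x - x ∈ Q^j` for all `x` and all `j ≥ 1`, so `τ x = x` (`⨅ Q^j = 0`, `Ideal.iInf_pow_eq_bot_of_isDomain`). Induction: `δ(x) = τ x - x` mod `Q^{j+1}`; `τ` acts trivially on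
`Q^j/Q^{j+1}` (generated by `π^j` over `𝓞 M`: `τ (v π^j) ≡ v π^j`), so `τ^r x ≡ x + r δ(x)` mod `Q^{j+1}`; with `r` the order of `τ`, `r δ(x) ∈ Q^{j+1}`, `r` is prime to `l`, `l ∈ Q`, so `δ(x) ∈ Q^{j+1}`. (Here `r ∣ |Gal(M/ℚ)|` is prime to `l`.) So `I` is isomorphic to a subgroup of `κˣ`, cyclic. Let `φ` be a Frobenius element at `Q`
(`φ x ≡ x^l` mod `Q`; `StarkRQ` `exists_cong_over` with `F = ℚ`, or Mathlib `exists IsArithFrobAt`); `φ` preserves `Q`, `φ π` is again a generator of `Q/Q²`. `φ τ π ≡ φ(u_τ) φ π ≡ u_τ^l φ π` and `τ φ π ≡ u_τ φ π` mod `Q²`; since `φ τ = τ φ`: `θ(τ)^l = θ(τ)`, `θ(τ)^{l-1} = 1`. An injective homomorphism of the finite group `I` to the group of `(l-1)`-st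
roots of unity in the field `κ`, which has at most `l - 1` elements and is cyclic, of order dividing `l - 1` (`l - 1` exactly): `|I| ∣ l - 1`.
-/

set_option autoImplicit false

noncomputable section

open NumberField Pool.Agent.CMR
open scoped Pointwise

namespace Pool.Agent.EMB

/-- the inertia group as a subgroup -/
def inerG {M : Type} [Field M] [NumberField M] (Q : Ideal (𝓞 M)) : Subgroup Gal(M/ℚ) where
  carrier := {σ | Iner Q σ}
  one_mem' := fun x => by simp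
  mul_mem' := by
    intro a b ha hb x
    have h := Q.add_mem (ha (b • x)) (hb x)
    rw [sub_add_sub_cancel, ← mul_smul] at h
    exact h
  inv_mem' := by
    intro a ha x
    have h := ha (a⁻¹ • x)
    rw [smul_inv_smul] at h
    rw [← neg_sub]
    exact Q.neg_mem h

theorem mem_inerG {M : Type} [Field M] [NumberField M] {Q : Ideal (𝓞 M)} {σ : Gal(M/ℚ)} :
    σ ∈ inerG Q ↔ Iner Q σ := Iff.rfl

section Aux

variable {M : Type} [Field M] [NumberField M]

private theorem tam_pres {Q : Ideal (𝓞 M)} {σ : Gal(M/ℚ)} (h : ∀ y ∈ Q, σ • y ∈ Q) (j : ℕ) :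
    ∀ y ∈ Q ^ j, σ • y ∈ Q ^ j := by
  let f : 𝓞 M →+* 𝓞 M := MulSemiringAction.toRingHom Gal(M/ℚ) (𝓞 M) σ
  have h1 : Q ≤ Q.comap f := h
  have h2 : Q ^ j ≤ (Q ^ j).comap f :=
    (Ideal.pow_right_mono h1 j).trans (Ideal.le_comap_pow f j)
  exact h2

private theorem tam_iner {Q : Ideal (𝓞 M)} {σ : Gal(M/ℚ)} (h : Iner Q σ) :
    ∀ y ∈ Q, σ • y ∈ Q := by
  intro y hy
  have h1 := Q.add_mem (h y) hy
  rwa [sub_add_cancel] at h1

omit [NumberField M] in
private theorem tam_mul {Q : Ideal (𝓞 M)} {a b : 𝓞 M} (ha : a ∈ Q) (hb : b ∈ Q) :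
    a * b ∈ Q ^ 2 := by
  rw [pow_two]
  exact Ideal.mul_mem_mul ha hb

/-- an inertia element which is trivial on `Q / Q²` is trivial on all `Q^j / Q^(j+1)` -/
private theorem tam_grad {Q : Ideal (𝓞 M)} (hQ : Q.IsPrime) (hQ0 : Q ≠ ⊥)
    {π : 𝓞 M} (hπ : π ∈ Q) (hπ2 : π ∉ Q ^ 2) {τ : Gal(M/ℚ)} (hτ : Iner Q τ)
    (h : τ • π - π ∈ Q ^ 2) (j : ℕ) : ∀ y ∈ Q ^ j, τ • y - y ∈ Q ^ (j + 1) := by
  have h1 : ∀ y ∈ Q, τ • y - y ∈ Q ^ 2 := by
    intro y hy
    obtain ⟨d, e, he, rfl⟩ := Ideal.exists_mul_add_mem_pow_succ hQ0 (i := 1) π y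
      (by rwa [pow_one]) hπ2 (by rwa [pow_one])
    have e1 : τ • (π * d + e) - (π * d + e) =
        (τ • π - π) * (τ • d) + π * (τ • d - d) + (τ • e - e) := by
      rw [smul_add, smul_mul']
      ring
    rw [e1]
    refine (Q ^ 2).add_mem ((Q ^ 2).add_mem (Ideal.mul_mem_right _ _ h) (tam_mul hπ (hτ d))) ?_
    exact (Q ^ 2).sub_mem (tam_pres (tam_iner hτ) 2 e he) he
  induction j with
  | zero =>
    intro y _
    rw [zero_add, pow_one]
    exact hτ y
  | succ j ih =>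
    intro y hy
    rw [pow_succ'] at hy
    refine Submodule.mul_induction_on hy ?_ ?_
    · intro a ha b hb
      have e1 : τ • (a * b) - a * b = (τ • a - a) * (τ • b) + a * (τ • b - b) := by
        rw [smul_mul']
        ring
      rw [e1]
      refine (Q ^ (j + 1 + 1)).add_mem ?_ ?_
      · have h2 := Ideal.mul_mem_mul (h1 a ha) (tam_pres (tam_iner hτ) j b hb)
        rw [← pow_add] at h2
        have h3 : 2 + j = j + 1 + 1 := by ring
        rwa [h3] at h2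
      · rw [pow_succ' Q (j + 1)]
        exact Ideal.mul_mem_mul ha (ih b hb)
    · intro a b ha hb
      have e1 : τ • (a + b) - (a + b) = (τ • a - a) + (τ • b - b) := by
        rw [smul_add]
        ring
      rw [e1]
      exact (Q ^ (j + 1 + 1)).add_mem ha hb

private theorem tam_ker [IsGalois ℚ M] {l : ℕ} {Q : Ideal (𝓞 M)} (hQ : Q.IsPrime)
    (hQ0 : Q ≠ ⊥) (hlQ : (l : 𝓞 M) ∈ Q) {π : 𝓞 M} (hπ : π ∈ Q) (hπ2 : π ∉ Q ^ 2)
    {τ : Gal(M/ℚ)} (hτ : Iner Q τ) {r : ℕ} (hr : τ ^ r = 1) (hrl : r.Coprime l)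
    (h : τ • π - π ∈ Q ^ 2) : τ = 1 := by
  have hgr := tam_grad hQ hQ0 hπ hπ2 hτ h
  have hall : ∀ j, ∀ x : 𝓞 M, τ • x - x ∈ Q ^ j := by
    intro j
    induction j with
    | zero =>
      intro x
      rw [pow_zero, Ideal.one_eq_top]
      trivial
    | succ j ih =>
      intro x
      set δ := τ • x - x with hδ
      have hδj : δ ∈ Q ^ j := ih x
      have hn : ∀ n : ℕ, τ ^ n • x - (x + n * δ) ∈ Q ^ (j + 1) := by
        intro n
        induction n with
        | zero => simp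
        | succ n ihn =>
          have h1 := tam_pres (tam_iner hτ) (j + 1) _ ihn
          have h2 := Ideal.mul_mem_left _ (n : 𝓞 M) (hgr j δ hδj)
          have h3 := (Q ^ (j + 1)).add_mem h1 h2
          have e1 : τ • (τ ^ n • x - (x + n * δ)) + (n : 𝓞 M) * (τ • δ - δ) =
              τ ^ (n + 1) • x - (x + ((n + 1 : ℕ) : 𝓞 M) * δ) := by
            have e2 : τ • x = x + δ := by rw [hδ]; ring
            have e3 : τ • (n : 𝓞 M) = n := by
              exact map_natCast (MulSemiringAction.toRingHom Gal(M/ℚ) (𝓞 M) τ) n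
            rw [smul_sub, smul_add, smul_mul', e3, e2, pow_succ', mul_smul]
            push_cast
            ring
          rw [← e1]
          exact h3
      have h4 := hn r
      rw [hr, one_smul] at h4
      have h5 : (r : 𝓞 M) * δ ∈ Q ^ (j + 1) := by
        have h6 := (Q ^ (j + 1)).neg_mem h4
        have e1 : -(x - (x + (r : 𝓞 M) * δ)) = (r : 𝓞 M) * δ := by ring
        rwa [e1] at h6
      have h7 : (l : 𝓞 M) * δ ∈ Q ^ (j + 1) := by
        rw [pow_succ']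
        exact Ideal.mul_mem_mul hlQ hδj
      obtain ⟨a, b, hab⟩ := Nat.isCoprime_iff_coprime.2 hrl
      have e1 : δ = (a : 𝓞 M) * ((r : 𝓞 M) * δ) + (b : 𝓞 M) * ((l : 𝓞 M) * δ) := by
        have h8 : (a : 𝓞 M) * r + b * l = 1 := by exact_mod_cast congrArg (Int.cast (R := 𝓞 M)) hab
        linear_combination (-δ) * h8
      rw [e1]
      exact (Q ^ (j + 1)).add_mem (Ideal.mul_mem_left _ _ h5) (Ideal.mul_mem_left _ _ h7)
  have hfix : ∀ x : 𝓞 M, τ • x = x := by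
    intro x
    have h1 : τ • x - x ∈ ⨅ j : ℕ, Q ^ j := by
      rw [Ideal.mem_iInf]
      exact fun j => hall j x
    rw [Ideal.iInf_pow_eq_bot_of_isDomain Q hQ.ne_top, Ideal.mem_bot] at h1
    exact sub_eq_zero.1 h1
  have hfaith : FaithfulSMul Gal(M/ℚ) (𝓞 M) := IsGaloisGroup.faithful ℤ
  exact FaithfulSMul.eq_of_smul_eq_smul (α := 𝓞 M) fun x => by rw [hfix x, one_smul]

end Aux

/-- a central inertia group of order prime to `l` has order dividing `l - 1` -/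
theorem card_inertia_dvd {M : Type} [Field M] [NumberField M] [IsGalois ℚ M] {l : ℕ}
    (hl : l.Prime) (hcard : (Nat.card Gal(M/ℚ)).Coprime l) {Q : Ideal (𝓞 M)} (hQ : Q.IsPrime)
    (hlQ : (l : 𝓞 M) ∈ Q) (hc : ∀ τ : Gal(M/ℚ), Iner Q τ → ∀ g : Gal(M/ℚ), τ * g = g * τ) :
    Nat.card (inerG Q) ∣ l - 1 := by
  have hQ0 : Q ≠ ⊥ := by
    rintro rfl
    have h1 : (l : 𝓞 M) = 0 := by simpa using hlQ
    exact hl.ne_zero (by exact_mod_cast h1)
  obtain ⟨π, hπ1, hπ2⟩ := Ideal.exists_mem_pow_notMem_pow_succ Q hQ0 hQ.ne_top 1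
  have hπ : π ∈ Q := by rwa [pow_one] at hπ1
  have hπ2 : π ∉ Q ^ 2 := hπ2
  have hcancel : ∀ {a b c : 𝓞 M}, c ∉ Q ^ 2 → c * a - c * b ∈ Q ^ 2 → a - b ∈ Q := by
    intro a b c hc h
    rw [← mul_sub] at h
    exact Ideal.mem_prime_of_mul_mem_pow hQ0 (i := 1) hc h
  have hex : ∀ τ : inerG Q, ∃ u : 𝓞 M, (τ : Gal(M/ℚ)) • π - π * u ∈ Q ^ 2 := by
    intro τ
    obtain ⟨d, e, he, h⟩ := Ideal.exists_mul_add_mem_pow_succ hQ0 (i := 1) π
      ((τ : Gal(M/ℚ)) • π) hπ1 hπ2 (by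
        rw [pow_one]
        exact tam_iner τ.2 π hπ)
    refine ⟨d, ?_⟩
    rw [← h, add_sub_cancel_left]
    exact he
  choose u hu using hex
  let f : inerG Q →* (𝓞 M ⧸ Q) :=
    { toFun := fun τ => Ideal.Quotient.mk Q (u τ)
      map_one' := by
        rw [← map_one (Ideal.Quotient.mk Q), Ideal.Quotient.eq]
        have h := hu 1
        rw [OneMemClass.coe_one, one_smul] at h
        have h2 : π * u 1 - π * 1 ∈ Q ^ 2 := by
          have := (Q ^ 2).neg_mem h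
          have e : -(π - π * u 1) = π * u 1 - π * 1 := by ring
          rwa [e] at this
        exact hcancel hπ2 h2
      map_mul' := by
        intro σ τ
        rw [← map_mul, Ideal.Quotient.eq]
        have h0 := hu (σ * τ)
        rw [Subgroup.coe_mul, mul_smul] at h0
        have h1 := tam_pres (tam_iner σ.2) 2 _ (hu τ)
        have h2 := Ideal.mul_mem_right ((σ : Gal(M/ℚ)) • u τ) _ (hu σ)
        have h3 := Ideal.mul_mem_left (Q ^ 2) (u σ)
          (tam_mul hπ ((show Iner Q (σ : Gal(M/ℚ)) from σ.2) (u τ)))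
        refine hcancel hπ2 ?_
        have h4 := (Q ^ 2).sub_mem ((Q ^ 2).add_mem ((Q ^ 2).add_mem h1 h2) h3) h0
        rw [smul_sub, smul_mul'] at h4
        have e : (σ : Gal(M/ℚ)) • (τ : Gal(M/ℚ)) • π -
            (σ : Gal(M/ℚ)) • π * (σ : Gal(M/ℚ)) • u τ +
            ((σ : Gal(M/ℚ)) • π - π * u σ) * (σ : Gal(M/ℚ)) • u τ +
            u σ * (π * ((σ : Gal(M/ℚ)) • u τ - u τ)) -
            ((σ : Gal(M/ℚ)) • (τ : Gal(M/ℚ)) • π - π * u (σ * τ)) =
            π * u (σ * τ) - π * (u σ * u τ) := by ring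
        rwa [e] at h4 }
  have hinj : Function.Injective f := by
    rw [injective_iff_map_eq_one]
    intro τ hτ
    have h1 : u τ - 1 ∈ Q := by
      rw [← Ideal.Quotient.eq, map_one]
      exact hτ
    have h2 : (τ : Gal(M/ℚ)) • π - π ∈ Q ^ 2 := by
      have h3 := (Q ^ 2).add_mem (hu τ) (tam_mul hπ h1)
      have e : (τ : Gal(M/ℚ)) • π - π * u τ + π * (u τ - 1) = (τ : Gal(M/ℚ)) • π - π := by ring
      rwa [e] at h3
    apply Subtype.ext
    exact tam_ker hQ hQ0 hlQ hπ hπ2 τ.2 (r := Nat.card Gal(M/ℚ)) pow_card_eq_one' hcard h2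
  -- the Frobenius element
  obtain ⟨φ, hφ⟩ := StarkRQ.exists_cong hl hlQ
  have hφQ : ∀ y ∈ Q, φ • y ∈ Q := by
    intro y hy
    have h1 := Q.add_mem (hφ y) (Ideal.pow_mem_of_mem Q hy l hl.pos)
    rwa [sub_add_cancel] at h1
  have hφ2 : φ • π ∉ Q ^ 2 := by
    intro h
    have h1 : ∀ n : ℕ, (φ ^ (n + 1)) • π ∈ Q ^ 2 := by
      intro n
      induction n with
      | zero => rwa [zero_add, pow_one]
      | succ n ih =>
        have h1 : φ ^ (n + 1 + 1) = φ * φ ^ (n + 1) := pow_succ' _ _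
        rw [h1, mul_smul]
        exact tam_pres hφQ 2 _ ih
    have h2 := h1 (Nat.card Gal(M/ℚ) - 1)
    rw [Nat.sub_add_cancel Nat.card_pos, pow_card_eq_one', one_smul] at h2
    exact hπ2 h2
  have hpow : ∀ τ : inerG Q, f τ ^ (l - 1) = 1 := by
    intro τ
    have hτ : Iner Q (τ : Gal(M/ℚ)) := τ.2
    -- `φ τ π`
    have h1 := tam_pres hφQ 2 _ (hu τ)
    rw [smul_sub, smul_mul'] at h1
    have h2 := tam_mul (hφQ π hπ) (hφ (u τ))
    have h3 := (Q ^ 2).add_mem h1 h2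
    -- `τ φ π`
    obtain ⟨d, e, he, hd⟩ := Ideal.exists_mul_add_mem_pow_succ hQ0 (i := 1) π (φ • π) hπ1 hπ2
      (by
        rw [pow_one]
        exact hφQ π hπ)
    have h4 : (τ : Gal(M/ℚ)) • φ • π - φ • π * u τ ∈ Q ^ 2 := by
      have e1 : (τ : Gal(M/ℚ)) • φ • π - φ • π * u τ =
          ((τ : Gal(M/ℚ)) • π - π * u τ) * (τ : Gal(M/ℚ)) • d +
          u τ * (π * ((τ : Gal(M/ℚ)) • d - d)) + ((τ : Gal(M/ℚ)) • e - e * u τ) := by
        rw [← hd, smul_add, smul_mul']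
        ring
      rw [e1]
      refine (Q ^ 2).add_mem ((Q ^ 2).add_mem (Ideal.mul_mem_right _ _ (hu τ))
        (Ideal.mul_mem_left _ _ (tam_mul hπ (hτ d)))) ?_
      exact (Q ^ 2).sub_mem (tam_pres (tam_iner hτ) 2 e he) (Ideal.mul_mem_right _ _ he)
    have hcomm : (τ : Gal(M/ℚ)) • φ • π = φ • (τ : Gal(M/ℚ)) • π := by
      rw [← mul_smul, ← mul_smul, hc _ hτ φ]
    rw [hcomm] at h4
    have h5 : u τ ^ l - u τ ∈ Q := by
      refine hcancel hφ2 ?_
      have h6 := (Q ^ 2).sub_mem h4 h3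
      have e1 : φ • (τ : Gal(M/ℚ)) • π - φ • π * u τ -
          (φ • (τ : Gal(M/ℚ)) • π - φ • π * φ • u τ + φ • π * (φ • u τ - u τ ^ l)) =
          φ • π * u τ ^ l - φ • π * u τ := by ring
      rwa [e1] at h6
    have h6 : f τ ^ l = f τ := by
      change (Ideal.Quotient.mk Q (u τ)) ^ l = Ideal.Quotient.mk Q (u τ)
      rw [← map_pow, Ideal.Quotient.eq]
      exact h5
    have h7 : f τ ≠ 0 := by
      intro h
      have h8 : f τ * f τ⁻¹ = 1 := by rw [← map_mul, mul_inv_cancel, map_one]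
      rw [h, zero_mul] at h8
      exact zero_ne_one h8
    have h8 : f τ ^ (l - 1) * f τ = 1 * f τ := by
      rw [← pow_succ, Nat.sub_add_cancel hl.pos, h6, one_mul]
    exact mul_right_cancel₀ h7 h8
  have hcyc : IsCyclic (inerG Q) := isCyclic_of_injective_ringHom f hinj
  rw [← IsCyclic.exponent_eq_card]
  apply Monoid.exponent_dvd_of_forall_pow_eq_one
  intro g
  apply hinj
  rw [map_pow, map_one, hpow]

end Pool.Agent.EMB
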