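import Pool.Agent.EMB.Sqr
import Pool.Agent.EMB.Ram
import Pool.Agent.EMB.Tame

/-!
# EMB-NF the fields unramified outside N

`Nf.sup`: `E ⊔ E'` is finite and normal (Mathlib instances); if `p ∤ N`, an inertia element at a prime `Q` over `p` of the field `M = E ⊔ E'` fixes `E` and `E'` (`inertia_fix` with `L = E`, `Algebra E M` by inclusion), so it is trivial, and `not_dvd_discr` with `L = M`. `Nf.of_le`: `inertia_fix` for `L = M` and `not_dvd_discr`, or `discr_dvd_discr` (StarkRQ/HeckeRQ).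
`nf_Qm`: `ℚ(ζ)` with `ζ` a primitive `m`-th root: inertia elements at `p ∤ m` fix `ζ` (`iner_root'`). `nf_of_range`: `ι.fieldRange ≃ M` (`AlgEquiv` preserves `discr`: `discr_eq_discr_of_algEquiv`). `exists_nf`: `N = |discr E|`. `Nf.iSup`: finite index set, induction with `Nf.sup` (`iSup` over a `Finset`), or as `Nf.sup`.
`nf_fixed`: `L = E'`, `M = F` in `not_dvd_discr` for `p = l`; for the other primes `Nf.of_le` (`p ∣ N l`).
-/

set_option autoImplicit false

noncomputable section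

open NumberField Pool.Agent.CMR
open scoped Pointwise

namespace Pool.Agent.EMB

variable {E E' F : IntermediateField ℚ Qb} {N N' : ℕ}

theorem numberField_of_fin (h : FiniteDimensional ℚ E) : NumberField E :=
  { to_charZero := inferInstance
    to_finiteDimensional := h }

theorem Nf.mono (h : Nf E N) (hN : ∀ p : ℕ, p.Prime → p ∣ N → p ∣ N') : Nf E N' :=
  ⟨h.fin, h.gal, fun a p hp h1 => hN p hp (h.ram a p hp h1)⟩

private theorem fin_of_le (h : FiniteDimensional ℚ E) (hle : E' ≤ E) :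
    FiniteDimensional ℚ E' :=
  FiniteDimensional.of_injective (IntermediateField.inclusion hle).toLinearMap
    (IntermediateField.inclusion_injective hle)

/-- inertia elements in a field and subfields unramified at `l` -/
private theorem iner_fix_aux (hE : Nf E N) (hle : E ≤ F) [NumberField F] [Normal ℚ F] {l : ℕ}
    (hl : l.Prime) (hlN : ¬ l ∣ N) {Q : Ideal (𝓞 F)} (hQ : Q.IsPrime) (hlQ : (l : 𝓞 F) ∈ Q)
    {σ : Gal(F/ℚ)} (hσ : Iner Q σ) (x : F) (hx : (x : Qb) ∈ E) : σ x = x := by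
  have : NumberField E := numberField_of_fin hE.fin
  have := hE.gal
  have : IsGalois ℚ E := ⟨⟩
  have : IsGalois ℚ F := ⟨⟩
  let : Algebra E F := (IntermediateField.inclusion hle).toRingHom.toAlgebra
  have h : ¬ (l : ℤ) ∣ discr E := fun h => hlN (hE.ram _ l hl h)
  have h1 := inertia_fix hl h hQ hlQ hσ (⟨x, hx⟩ : E)
  have h2 : algebraMap E F ⟨x, hx⟩ = x := Subtype.ext rfl
  rwa [h2] at h1

/-- a field is unramified outside `N` if all inertia elements at the other primes are trivial. -/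
private theorem nf_of_iner (hfin : FiniteDimensional ℚ F) (hn : Normal ℚ F)
    (h : ∀ (_ : NumberField F) (p : ℕ), p.Prime → ¬ p ∣ N → ∀ Q : Ideal (𝓞 F), Q.IsPrime →
      (p : 𝓞 F) ∈ Q → ∀ σ : Gal(F/ℚ), Iner Q σ → ∀ g : GQ,
        (AlgEquiv.restrictNormalHom F g : Gal(F/ℚ)) = σ → Fix F g) : Nf F N := by
  refine ⟨hfin, hn, fun a p hp hd => ?_⟩
  by_contra hpN
  have : IsGalois ℚ F := ⟨⟩
  refine not_dvd_discr (L := F) (M := F) hp ?_ hd
  intro Q hQ hpQ σ hσ x
  obtain ⟨g, hg⟩ := exists_restrict σ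
  have h1 := h a p hp hpN Q hQ hpQ σ hσ g hg
  rw [fix_iff_restrict] at h1
  rw [← hg, h1]
  rfl

private theorem fix_of_restrict [Normal ℚ F] (hle : E ≤ F) {σ : Gal(F/ℚ)} {g : GQ}
    (hg : (AlgEquiv.restrictNormalHom F g : Gal(F/ℚ)) = σ)
    (h : ∀ x : F, (x : Qb) ∈ E → σ x = x) : Fix E g := by
  intro x hx
  have h1 := h ⟨x, hle hx⟩ hx
  rw [← hg] at h1
  have h2 := congrArg (fun y : F => (y : Qb)) h1
  simp only [restrict_apply] at h2
  exact h2

theorem Nf.sup (h : Nf E N) (h' : Nf E' N) : Nf (E ⊔ E') N := by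
  have := h.fin
  have := h'.fin
  have hn : Normal ℚ (E ⊔ E' : IntermediateField ℚ Qb) :=
    @IntermediateField.normal_sup _ _ _ _ _ _ _ h.gal h'.gal
  refine nf_of_iner inferInstance hn ?_
  intro a p hp hpN Q hQ hpQ σ hσ g hg
  exact fix_sup.2 ⟨fix_of_restrict le_sup_left hg
    fun x hx => iner_fix_aux h le_sup_left hp hpN hQ hpQ hσ x hx,
    fix_of_restrict le_sup_right hg
    fun x hx => iner_fix_aux h' le_sup_right hp hpN hQ hpQ hσ x hx⟩

theorem Nf.iSup {ι : Type} [Finite ι] {E : ι → IntermediateField ℚ Qb} (h : ∀ i, Nf (E i) N) :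
    Nf (⨆ i, E i) N := by
  have := fun i => (h i).fin
  have hn : Normal ℚ (⨆ i, E i : IntermediateField ℚ Qb) :=
    @IntermediateField.normal_iSup _ _ _ _ _ _ E fun i => (h i).gal
  refine nf_of_iner IntermediateField.finiteDimensional_iSup_of_finite hn ?_
  intro a p hp hpN Q hQ hpQ σ hσ g hg
  exact (fix_iSup E g).2 fun i => fix_of_restrict (le_iSup E i) hg
    fun x hx => iner_fix_aux (h i) (le_iSup E i) hp hpN hQ hpQ hσ x hx

theorem Nf.of_le (h : Nf E N) (hle : E' ≤ E) (hn : Normal ℚ E') : Nf E' N := by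
  refine ⟨fin_of_le h.fin hle, hn, fun a p hp hd => ?_⟩
  have : NumberField E := numberField_of_fin h.fin
  let : Algebra E' E := (IntermediateField.inclusion hle).toRingHom.toAlgebra
  exact h.ram _ p hp (hd.trans (discr_dvd_discr E' E))

theorem nf_Qm {m : ℕ} (hm : m ≠ 0) : Nf (Qm m) m := by
  have hX : (Polynomial.X ^ m - 1 : Polynomial ℚ) ≠ 0 :=
    (Polynomial.monic_X_pow_sub_C (1 : ℚ) hm).ne_zero
  have hset : {ζ : Qb | ζ ^ m = 1} = (Polynomial.X ^ m - 1 : Polynomial ℚ).rootSet Qb := by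
    ext ζ
    rw [Polynomial.mem_rootSet]
    simp only [Set.mem_ofPred_eq, map_sub, map_pow, Polynomial.aeval_X, map_one, sub_eq_zero]
    exact ⟨fun h => ⟨hX, h⟩, fun h => h.2⟩
  have hs : Polynomial.IsSplittingField ℚ (Qm m) (Polynomial.X ^ m - 1 : Polynomial ℚ) := by
    unfold Qm
    rw [hset]
    exact IntermediateField.adjoin_rootSet_isSplittingField (IsAlgClosed.splits _)
  have hfin : FiniteDimensional ℚ (Qm m) :=
    Polynomial.IsSplittingField.finiteDimensional _ (Polynomial.X ^ m - 1 : Polynomial ℚ)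
  have hn : Normal ℚ (Qm m) := Normal.of_isSplittingField (Polynomial.X ^ m - 1 : Polynomial ℚ)
  refine nf_of_iner hfin hn ?_
  intro a p hp hpN Q hQ hpQ σ hσ g hg
  unfold Qm
  rw [fix_adjoin]
  intro ζ hζ
  have hmem : ζ ∈ Qm m := IntermediateField.subset_adjoin _ _ hζ
  have hz : (⟨ζ, hmem⟩ : Qm m) ^ m = 1 := Subtype.ext hζ
  have h1 := iner_root' hp hm hpN hz hQ hpQ hσ
  rw [← hg] at h1
  have h2 := congrArg (fun y : Qm m => (y : Qb)) h1
  simp only [restrict_apply] at h2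
  exact h2

theorem exists_nf (h1 : FiniteDimensional ℚ E) (h2 : Normal ℚ E) : ∃ N, N ≠ 0 ∧ Nf E N := by
  have : NumberField E := numberField_of_fin h1
  refine ⟨(discr E).natAbs, Int.natAbs_ne_zero.2 (discr_ne_zero E), h1, h2, fun a p _ hd => ?_⟩
  exact Int.natCast_dvd.1 hd

theorem nf_of_range {M : Type} [Field M] [NumberField M] [IsGalois ℚ M] (ι : M →ₐ[ℚ] Qb)
    (h : ∀ p : ℕ, p.Prime → (p : ℤ) ∣ discr M → p ∣ N) : Nf ι.fieldRange N := by
  have e : M ≃ₐ[ℚ] ι.fieldRange := ι.equivFieldRange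
  refine ⟨e.toLinearEquiv.finiteDimensional, Normal.of_algEquiv e, fun a p hp hd => h p hp ?_⟩
  rwa [discr_eq_discr_of_algEquiv M e]

/-- inertia elements in a field of level `N l` and subfields of level `N` -/
theorem Nf.iner_fix (hE : Nf E N) (hle : E ≤ F) [NumberField F] [Normal ℚ F] {l : ℕ}
    (hl : l.Prime) (hlN : ¬ l ∣ N) {Q : Ideal (𝓞 F)} (hQ : Q.IsPrime) (hlQ : (l : 𝓞 F) ∈ Q)
    {σ : Gal(F/ℚ)} (hσ : Iner Q σ) (x : F) (hx : (x : Qb) ∈ E) : σ x = x :=
  iner_fix_aux hE hle hl hlN hQ hlQ hσ x hx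

/-- dividing out the inertia groups at `l` removes the ramification at `l`. -/
theorem nf_fixed {l : ℕ} (hF : Nf F (N * l)) [NumberField F] [Normal ℚ F] (hl : l.Prime)
    (hle : E' ≤ F) (hn : Normal ℚ E')
    (h : ∀ Q : Ideal (𝓞 F), Q.IsPrime → (l : 𝓞 F) ∈ Q → ∀ σ : Gal(F/ℚ), Iner Q σ →
      ∀ x : F, (x : Qb) ∈ E' → σ x = x) : Nf E' N := by
  have h0 := hF.of_le hle hn
  refine ⟨h0.fin, hn, fun a p hp hd => ?_⟩
  by_cases hpl : p = l
  · exfalso
    subst hpl
    have : IsGalois ℚ E' := ⟨⟩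
    have : IsGalois ℚ F := ⟨⟩
    let : Algebra E' F := (IntermediateField.inclusion hle).toRingHom.toAlgebra
    refine not_dvd_discr (L := E') (M := F) hl ?_ hd
    intro Q hQ hlQ σ hσ x
    exact h Q hQ hlQ σ hσ _ x.2
  · have h1 := h0.ram a p hp hd
    rcases (Nat.Prime.dvd_mul hp).1 h1 with h2 | h2
    · exact h2
    · exact absurd ((Nat.prime_dvd_prime_iff_eq hp hl).1 h2) hpl

end Pool.Agent.EMB
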