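import Pool.Agent.EMB.Nfl

/-!
# EMB-SUM adding forms

`rz_add`: `F = E₁ ⊔ E₂`. There is `w ∈ GQ` with `w z₁` fixing `E₁` and `w z₂` fixing `E₂` (`z₁, z₂` from `Rz.central`): choose `g` with `sg y g = 0`, `sg x g = sg x' g = 1` and `h` with `sg y h = 1`; then `om x y g h = om x' y g h = 1`, `w = [g, h]`. Such a `g` exists: on `{sg y = 0}` the characters of `x` and `x'` are not trivial (`Ind x y`, `Ind x' y`) and different (`Ind (x x') y`):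
there are `g₁` with `sg y = 0`, `sg x g₁ = 1` and `g₂` with `sg y = 0`, `sg x' g₂ = 1`; if neither works then `g₁ g₂` does. In the same way there is `g` with `sg y g = 0`, `sg x g = 1`, `sg x' g = 0` or with `sg x g = 0`, `sg x' g = 1` (by `Ind (x x') y` there is `g` with `sg y g = 0`, `sg x g + sg x' g = 1`), giving `z = [g, h]` with `z z₁` fixing `E₁` and `z` fixing `E₂`, or `z` fixing `E₁` and `z z₂` fixing `E₂`.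
`D = {g : g or g w fixes F}` is a normal subgroup (`w²` fixes `F`, `w` is central modulo `Fix F`); `exists_field`. `z ∉ D`: `z` does not fix `F`; `z w` does not fix `E₂` (resp. `E₁`). `z² ∈ D`. For `g, h`: let `a = om x y g h`, `b = om x' y g h`, `om (x x') y g h = a + b` (`sg_prod`): `[g, h]` acts as `z₁^a` on `E₁` and as `z₂^b` on `E₂`: it is `1, w, z` or `z w` modulo `Fix F`.
`Nf`: `Nf.sup`, `Nf.of_le`. `two`: `max`.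
-/

set_option autoImplicit false

noncomputable section

open NumberField Pool.Agent.CMR
open scoped Pointwise

namespace Pool.Agent.EMB

private theorem core {G A₁ A₂ : Type} [Group G] [Group A₁] [Group A₂] (φ₁ : G →* A₁)
    (φ₂ : G →* A₂) {a₁ : A₁} {a₂ : A₂} (s₁ : a₁ * a₁ = 1) (s₂ : a₂ * a₂ = 1) (n₁ : a₁ ≠ 1)
    (n₂ : a₂ ≠ 1) (c₁ : ∀ g, φ₁ g * a₁ = a₁ * φ₁ g) (c₂ : ∀ g, φ₂ g * a₂ = a₂ * φ₂ g)
    (ω ω' : G → G → ZMod 2)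
    (f₁ : ∀ g h, (ω g h = 0 → φ₁ (g * h * g⁻¹ * h⁻¹) = 1) ∧
      (ω g h = 1 → φ₁ (g * h * g⁻¹ * h⁻¹) = a₁))
    (f₂ : ∀ g h, (ω' g h = 0 → φ₂ (g * h * g⁻¹ * h⁻¹) = 1) ∧
      (ω' g h = 1 → φ₂ (g * h * g⁻¹ * h⁻¹) = a₂))
    (hz : ∃ g h, ω g h + ω' g h = 1) :
    ∃ D : Subgroup G, D.Normal ∧ (∀ g, φ₁ g = 1 → φ₂ g = 1 → g ∈ D) ∧
      ∃ z, z ∉ D ∧ z * z ∈ D ∧ ∀ g h, (ω g h + ω' g h = 0 → g * h * g⁻¹ * h⁻¹ ∈ D) ∧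
        (ω g h + ω' g h = 1 → g * h * g⁻¹ * h⁻¹ * z ∈ D) := by
  have i₁ : a₁⁻¹ = a₁ := inv_eq_of_mul_eq_one_left s₁
  have i₂ : a₂⁻¹ = a₂ := inv_eq_of_mul_eq_one_left s₂
  have hall : ∀ a b : ZMod 2, (a + b = 0 → (a = 0 ∧ b = 0) ∨ (a = 1 ∧ b = 1)) ∧
      (a + b = 1 → (a = 1 ∧ b = 0) ∨ (a = 0 ∧ b = 1)) := by decide
  let D : Subgroup G :=
    { carrier := {g | (φ₁ g = 1 ∧ φ₂ g = 1) ∨ (φ₁ g = a₁ ∧ φ₂ g = a₂)}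
      one_mem' := Or.inl ⟨map_one _, map_one _⟩
      mul_mem' := by
        rintro g h (⟨h1, h2⟩ | ⟨h1, h2⟩) (⟨h3, h4⟩ | ⟨h3, h4⟩)
        · exact Or.inl ⟨by rw [map_mul, h1, h3, mul_one], by rw [map_mul, h2, h4, mul_one]⟩
        · exact Or.inr ⟨by rw [map_mul, h1, h3, one_mul], by rw [map_mul, h2, h4, one_mul]⟩
        · exact Or.inr ⟨by rw [map_mul, h1, h3, mul_one], by rw [map_mul, h2, h4, mul_one]⟩
        · exact Or.inl ⟨by rw [map_mul, h1, h3, s₁], by rw [map_mul, h2, h4, s₂]⟩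
      inv_mem' := by
        rintro g (⟨h1, h2⟩ | ⟨h1, h2⟩)
        · exact Or.inl ⟨by rw [map_inv, h1, inv_one], by rw [map_inv, h2, inv_one]⟩
        · exact Or.inr ⟨by rw [map_inv, h1, i₁], by rw [map_inv, h2, i₂]⟩ }
  have hD : ∀ g, g ∈ D ↔ (φ₁ g = 1 ∧ φ₂ g = 1) ∨ (φ₁ g = a₁ ∧ φ₂ g = a₂) := fun _ => Iff.rfl
  have hcm : ∀ g h, (ω g h + ω' g h = 1 →
      (φ₁ (g * h * g⁻¹ * h⁻¹) = a₁ ∧ φ₂ (g * h * g⁻¹ * h⁻¹) = 1) ∨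
      (φ₁ (g * h * g⁻¹ * h⁻¹) = 1 ∧ φ₂ (g * h * g⁻¹ * h⁻¹) = a₂)) := by
    intro g h hg
    rcases (hall _ _).2 hg with ⟨ha, hb⟩ | ⟨ha, hb⟩
    · exact Or.inl ⟨(f₁ g h).2 ha, (f₂ g h).1 hb⟩
    · exact Or.inr ⟨(f₁ g h).1 ha, (f₂ g h).2 hb⟩
  obtain ⟨g₀, h₀, h0⟩ := hz
  refine ⟨D, ⟨?_⟩, fun g h1 h2 => Or.inl ⟨h1, h2⟩, g₀ * h₀ * g₀⁻¹ * h₀⁻¹, ?_, ?_, ?_⟩
  · rintro n (⟨h1, h2⟩ | ⟨h1, h2⟩) g
    · refine Or.inl ⟨?_, ?_⟩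
      · rw [map_mul, map_mul, map_inv, h1, mul_one, mul_inv_cancel]
      · rw [map_mul, map_mul, map_inv, h2, mul_one, mul_inv_cancel]
    · refine Or.inr ⟨?_, ?_⟩
      · rw [map_mul, map_mul, map_inv, h1, c₁, mul_assoc, mul_inv_cancel, mul_one]
      · rw [map_mul, map_mul, map_inv, h2, c₂, mul_assoc, mul_inv_cancel, mul_one]
  · rw [hD]
    rcases hcm _ _ h0 with ⟨ha, hb⟩ | ⟨ha, hb⟩ <;> rw [ha, hb]
    · rintro (⟨h1, -⟩ | ⟨-, h2⟩)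
      · exact n₁ h1
      · exact n₂ h2.symm
    · rintro (⟨-, h2⟩ | ⟨h1, -⟩)
      · exact n₂ h2
      · exact n₁ h1.symm
  · rw [hD, map_mul φ₁ (g₀ * h₀ * g₀⁻¹ * h₀⁻¹), map_mul φ₂ (g₀ * h₀ * g₀⁻¹ * h₀⁻¹)]
    rcases hcm _ _ h0 with ⟨ha, hb⟩ | ⟨ha, hb⟩ <;> rw [ha, hb]
    · exact Or.inl ⟨s₁, one_mul 1⟩
    · exact Or.inl ⟨one_mul 1, s₂⟩
  · intro g h
    constructor
    · intro hg
      rw [hD]
      rcases (hall _ _).1 hg with ⟨ha, hb⟩ | ⟨ha, hb⟩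
      · exact Or.inl ⟨(f₁ g h).1 ha, (f₂ g h).1 hb⟩
      · exact Or.inr ⟨(f₁ g h).2 ha, (f₂ g h).2 hb⟩
    · intro hg
      rw [hD, map_mul φ₁ (g * h * g⁻¹ * h⁻¹), map_mul φ₂ (g * h * g⁻¹ * h⁻¹)]
      rcases hcm _ _ h0 with ⟨ha, hb⟩ | ⟨ha, hb⟩ <;> rcases hcm _ _ hg with ⟨hc, hd⟩ | ⟨hc, hd⟩ <;>
        rw [ha, hb, hc, hd]
      · exact Or.inl ⟨s₁, one_mul 1⟩
      · exact Or.inr ⟨one_mul _, mul_one _⟩
      · exact Or.inr ⟨mul_one _, one_mul _⟩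
      · exact Or.inl ⟨one_mul 1, s₂⟩

private theorem Fix.pow {E : IntermediateField ℚ Qb} {g : GQ} (hg : Fix E g) (n : ℕ) :
    Fix E (g ^ n) := by
  induction n with
  | zero => rw [pow_zero]; exact Fix.one
  | succ n ih => rw [pow_succ]; exact ih.mul hg

private theorem Fix.two {E : IntermediateField ℚ Qb} {g : GQ} {m m' : ℕ} (hg : Fix E (g ^ 2 ^ m))
    (h : m ≤ m') : Fix E (g ^ 2 ^ m') := by
  obtain ⟨k, rfl⟩ := Nat.exists_eq_add_of_le h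
  rw [pow_add, pow_mul]
  exact hg.pow _

private theorem om_prod {x x' y : Qb} (hx : Sq x) (hx' : Sq x') (g h : GQ) :
    om (x * x') y g h = om x y g h + om x' y g h := by
  unfold om
  rw [sg_prod hx hx', sg_prod hx hx']
  ring

theorem rz_add {E₁ E₂ : IntermediateField ℚ Qb} {x x' y : Qb} {N : ℕ} (h₁ : Rz E₁ x y)
    (h₂ : Rz E₂ x' y) (hi₁ : Ind x y) (hi₂ : Ind x' y) (hi : Ind (x * x') y) (hn₁ : Nf E₁ N)
    (hn₂ : Nf E₂ N) : ∃ E : IntermediateField ℚ Qb, Rz E (x * x') y ∧ Nf E N := by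
  have := h₁.gal
  have := h₂.gal
  obtain ⟨z₁, n₁, s₁, -, -, c₁, f₁⟩ := h₁.central hi₁
  obtain ⟨z₂, n₂, s₂, -, -, c₂, f₂⟩ := h₂.central hi₂
  obtain ⟨m₁, hm₁⟩ := h₁.two
  obtain ⟨m₂, hm₂⟩ := h₂.two
  let φ₁ : GQ →* Gal(E₁/ℚ) := AlgEquiv.restrictNormalHom E₁
  let φ₂ : GQ →* Gal(E₂/ℚ) := AlgEquiv.restrictNormalHom E₂
  have e₁ : ∀ g, Fix E₁ g ↔ φ₁ g = 1 := fun g => fix_iff_restrict
  have e₂ : ∀ g, Fix E₂ g ↔ φ₂ g = 1 := fun g => fix_iff_restrict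
  have a₁ : φ₁ z₁ * φ₁ z₁ = 1 := by rw [← map_mul]; exact (e₁ _).1 s₁
  have a₂ : φ₂ z₂ * φ₂ z₂ = 1 := by rw [← map_mul]; exact (e₂ _).1 s₂
  have b₁ : ∀ g, φ₁ g * φ₁ z₁ = φ₁ z₁ * φ₁ g := fun g => by
    have h := (e₁ _).1 (c₁ g)
    rw [map_mul, map_mul, map_mul, map_inv, map_inv] at h
    exact eq_mul_of_mul_inv_eq (mul_inv_eq_one.1 h)
  have b₂ : ∀ g, φ₂ g * φ₂ z₂ = φ₂ z₂ * φ₂ g := fun g => by
    have h := (e₂ _).1 (c₂ g)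
    rw [map_mul, map_mul, map_mul, map_inv, map_inv] at h
    exact eq_mul_of_mul_inv_eq (mul_inv_eq_one.1 h)
  obtain ⟨D, hD, hF, z, z1, z2, z3⟩ := core φ₁ φ₂ a₁ a₂ (fun h => n₁ ((e₁ _).2 h))
    (fun h => n₂ ((e₂ _).2 h)) b₁ b₂ (om x y) (om x' y)
    (fun g h => ⟨fun h0 => (e₁ _).1 ((f₁ g h).1 h0), fun h0 => by
      have h3 := (e₁ _).1 ((f₁ g h).2 h0)
      rw [map_mul φ₁ (g * h * g⁻¹ * h⁻¹)] at h3
      rw [eq_inv_of_mul_eq_one_left h3]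
      exact inv_eq_of_mul_eq_one_left a₁⟩)
    (fun g h => ⟨fun h0 => (e₂ _).1 ((f₂ g h).1 h0), fun h0 => by
      have h3 := (e₂ _).1 ((f₂ g h).2 h0)
      rw [map_mul φ₂ (g * h * g⁻¹ * h⁻¹)] at h3
      rw [eq_inv_of_mul_eq_one_left h3]
      exact inv_eq_of_mul_eq_one_left a₂⟩)
    (by
      obtain ⟨g, hg, hg'⟩ := hi.ex 1 0
      obtain ⟨h, hh, hh'⟩ := hi.ex 0 1
      refine ⟨g, h, ?_⟩
      rw [← om_prod hi₁.sq hi₂.sq]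
      unfold om
      rw [hg, hg', hh, hh']
      decide)
  have hn : Nf (E₁ ⊔ E₂) N := hn₁.sup hn₂
  have hFD : ∀ g, Fix (E₁ ⊔ E₂) g → g ∈ D := fun g hg => by
    have h := fix_sup.1 hg
    exact hF g ((e₁ _).1 h.1) ((e₂ _).1 h.2)
  obtain ⟨E, hle, hfin, hnor, hfix⟩ := exists_field hD hn.fin hn.gal hFD
  refine ⟨E, ⟨hfin, hnor, ⟨max m₁ m₂, fun g => ?_⟩, z, fun h => z1 ((hfix _).1 h),
    (hfix _).2 z2, fun g h => ?_⟩, hn.of_le hle hnor⟩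
  · exact (hfix _).2 (hFD _ (fix_sup.2 ⟨(hm₁ g).two (le_max_left _ _),
      (hm₂ g).two (le_max_right _ _)⟩))
  · rw [om_prod hi₁.sq hi₂.sq]
    exact ⟨fun h0 => (hfix _).2 ((z3 g h).1 h0), fun h0 => (hfix _).2 ((z3 g h).2 h0)⟩

end Pool.Agent.EMB
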