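import Pool.Agent.EMB.Nfl
import Pool.Agent.StarkRQ.FrobQ

/-!
# EMB-TWIST removing the ramification at primes not dividing N

`twist`: let `F = E ⊔ Qm l` (`Nf F (N l)`: `Nf.sup`, `Nf.mono`; `N l · l` has the same primes), `G = Gal(F/ℚ)`, restriction `GQ → G` onto (`exists_restrict`). `ζ ∈ Qm l` primitive. If `g, h ∈ GQ` then `[g, h]` fixes `Qm l` (the action on `ζ` is `ζ ↦ ζ^a`), so if moreover it fixes `E` it fixes `F`. Let `Q` be a prime of `𝓞 F` over `l` (exists: `exists_prime_over`), `I` its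
inertia group. (1) For `g ∈ GQ` with `g|_F ∈ I`: `g x = x`, `g y = y` (`Nf.iner_fix` with `E = Qx x`, `l ∤ N`; `x, y ∈ E ≤ F` by `Rz.mem`), so `om x y g h = 0` for all `h`, so `[g, h]` fixes `E` and `F`: `I` is central in `G`. (2) `|G|` is prime to `l`: every prime divisor of `|G|` is `2` or divides `l - 1`: if `g|_F` has prime order `q ≠ 2` then
`g^{2^m}` fixes `E` (`Rz.two`), and `g^{2^m (l-1)}` fixes `F`, so `q ∣ 2^m (l - 1)` (Cauchy), `l ≠ 2`. (3) `card_inertia_dvd`: `|I| ∣ l - 1`. (4) `iner_root`: the map `I → (ZMod l)ˣ`, `σ ζ = ζ^{a(σ)}` is onto, so it is injective: an element of `I` which fixes `ζ` is `1`. (5) The inertia groups at all primes over `l` are conjugate (`exists_smul_eq_over`, StarkRQ/FrobF with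
`F = ℚ`, or the transitivity in FrobQ), so equal to `I` (`I` central). (6) `D = {g ∈ GQ : g|_F ∈ I}` is a normal subgroup; `exists_field`: `E' ≤ F` with `Fix E' g ↔ g ∈ D`. `Nf E' N`: `nf_fixed` with (5). (7) `Rz E' x y`: `two`: `g^{2^m}` acts trivially on `E`; as `x, y`...: the group `G/I`: `|G| ` divides `|Gal(E/ℚ)| (l - 1)` (injection `G → Gal(E/ℚ) × (ZMod l)ˣ`),
so `|G/I| = |G|/(l-1)` divides `|Gal(E/ℚ)|`, a power of two (a group in which all elements have order a power of two; `IsPGroup.iff_card`), so `g^{2^m} ∈ D`. `comm`: let `z₀` be as in `Rz.central` for `E` and `g₀, h₀` with `om x y g₀ h₀ = 1` (`Ind.ex`), `z = [g₀, h₀]`. `z z₀` fixes `E`, `z` fixes `Qm l`. `z ∉ D`: otherwise `z|_F ∈ I` fixes `ζ`, so it is `1` by (4), but `z` does not fix `E`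
(`z₀` does not). `z²` fixes `E` and `Qm l`, so `F`. If `om x y g h = 0` then `[g, h]` fixes `F`; if `om = 1` then `[g, h] z` fixes `E` and `Qm l`. `clean`: induction on the number of primes dividing `N'` and not `N`: if `l ∣ N'`, `l ∤ N` (`l ≠ 2`), write `N' = l^a N₁`, `l ∤ N₁`; apply `twist` with `N N₁` for `N` (`Nf.mono`).
-/

set_option autoImplicit false

noncomputable section

open NumberField Pool.Agent.CMR
open scoped Pointwise

namespace Pool.Agent.EMB

variable {E : IntermediateField ℚ Qb} {x y : Qb} {N : ℕ}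

private theorem twist_pow {g : GQ} (hg : Fix E g) (n : ℕ) : Fix E (g ^ n) := by
  induction n with
  | zero => rw [pow_zero]; exact Fix.one
  | succ n ih => rw [pow_succ]; exact ih.mul hg

/-- the action on a primitive root -/
private theorem twist_root {l : ℕ} (hl : l.Prime) {ζ : Qb} (hζ : IsPrimitiveRoot ζ l) (g : GQ) :
    ∃ a : ℕ, a.Coprime l ∧ g ζ = ζ ^ a := by
  have : NeZero l := ⟨hl.ne_zero⟩
  have h1 : IsPrimitiveRoot (g ζ) l := hζ.map_of_injective g.injective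
  obtain ⟨a, -, ha⟩ := hζ.eq_pow_of_pow_eq_one h1.pow_eq_one
  refine ⟨a, ?_, ha.symm⟩
  rw [← hζ.pow_iff_coprime hl.pos, ha]
  exact h1

private theorem twist_fix {l : ℕ} (hl : l.Prime) {ζ : Qb} (hζ : IsPrimitiveRoot ζ l) {g : GQ} :
    Fix (Qm l) g ↔ g ζ = ζ := by
  have : NeZero l := ⟨hl.ne_zero⟩
  rw [Qm, fix_adjoin]
  constructor
  · intro h
    exact h ζ hζ.pow_eq_one
  · rintro h x hx
    obtain ⟨i, -, rfl⟩ := hζ.eq_pow_of_pow_eq_one hx
    rw [map_pow, h]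

private theorem twist_comm {l : ℕ} (hl : l.Prime) {ζ : Qb} (hζ : IsPrimitiveRoot ζ l) (g h : GQ) :
    (g * h * g⁻¹ * h⁻¹) ζ = ζ := by
  obtain ⟨a, -, ha⟩ := twist_root hl hζ g
  obtain ⟨b, -, hb⟩ := twist_root hl hζ h
  obtain ⟨c, -, hc⟩ := twist_root hl hζ (g⁻¹ * h⁻¹)
  have h1 : (g * h * g⁻¹ * h⁻¹) ζ = g (h ((g⁻¹ * h⁻¹) ζ)) := by
    rw [mul_assoc, AlgEquiv.mul_apply, AlgEquiv.mul_apply]
  have h2 : ζ = h (g ((g⁻¹ * h⁻¹) ζ)) := by
    rw [← AlgEquiv.mul_apply, ← AlgEquiv.mul_apply, ← mul_assoc, mul_inv_cancel_right,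
      mul_inv_cancel, AlgEquiv.one_apply]
  rw [h1]
  conv_rhs => rw [h2]
  rw [hc]
  simp only [map_pow, ha, hb, ← pow_mul]
  congr 1
  ring

private theorem twist_pow_root {l : ℕ} (hl : l.Prime) {ζ : Qb} (hζ : IsPrimitiveRoot ζ l)
    (g : GQ) : (g ^ (l - 1)) ζ = ζ := by
  obtain ⟨a, hac, ha⟩ := twist_root hl hζ g
  have h1 : ∀ n : ℕ, (g ^ n) ζ = ζ ^ a ^ n := by
    intro n
    induction n with
    | zero => rw [pow_zero, pow_zero, pow_one, AlgEquiv.one_apply]
    | succ n ih => rw [pow_succ, AlgEquiv.mul_apply, ha, map_pow, ih, ← pow_mul, ← pow_succ]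
  have h2 : a ^ (l - 1) ≡ 1 [MOD l] := by
    rw [← Nat.totient_prime hl]
    exact Nat.ModEq.pow_totient hac
  have ha0 : 0 < a := by
    rcases Nat.eq_zero_or_pos a with h3 | h3
    · rw [h3, Nat.coprime_zero_left] at hac
      exact absurd hac hl.one_lt.ne'
    · exact h3
  have h3 : 1 ≤ a ^ (l - 1) := Nat.one_le_pow _ _ ha0
  obtain ⟨q, hq⟩ := (Nat.modEq_iff_dvd' h3).1 h2.symm
  have h4 : a ^ (l - 1) = 1 + l * q := by omega
  rw [h1, h4, pow_add, pow_mul, hζ.pow_eq_one, one_pow, pow_one, mul_one]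

/-- removing the ramification at an odd prime `l` -/
theorem twist (h : Rz E x y) (hi : Ind x y) {l : ℕ} (hE : Nf E (N * l)) (hx : Nf (Qx x) N)
    (hy : Nf (Qx y) N) (hl : l.Prime) (hl2 : l ≠ 2) (hlN : ¬ l ∣ N) :
    ∃ E' : IntermediateField ℚ Qb, Rz E' x y ∧ Nf E' N := by
  have : NeZero l := ⟨hl.ne_zero⟩
  have : Fact l.Prime := ⟨hl⟩
  obtain ⟨ζ, hζ⟩ := HasEnoughRootsOfUnity.exists_primitiveRoot Qb l
  have hQm : Nf (Qm l) (N * l) := (nf_Qm hl.ne_zero).mono fun p _ hp => hp.mul_left N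
  obtain ⟨F, hFdef⟩ : ∃ F : IntermediateField ℚ Qb, F = E ⊔ Qm l := ⟨_, rfl⟩
  have hF : Nf F (N * l) := hFdef ▸ hE.sup hQm
  have hEF : E ≤ F := hFdef ▸ le_sup_left
  have hζF : ζ ∈ F := by
    have h1 : ζ ∈ Qm l := IntermediateField.subset_adjoin _ _ hζ.pow_eq_one
    have h2 : Qm l ≤ F := hFdef ▸ le_sup_right
    exact h2 h1
  have : FiniteDimensional ℚ F := hF.fin
  have : Normal ℚ F := hF.gal
  have : NumberField F := numberField_of_fin hF.fin
  have : IsGalois ℚ F := ⟨⟩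
  have : Normal ℚ E := hE.gal
  let ρ : GQ →* Gal(F/ℚ) := AlgEquiv.restrictNormalHom F
  have hρs : Function.Surjective ρ := fun σ => exists_restrict σ
  have hρ : ∀ g, Fix F g ↔ ρ g = 1 := fun g => fix_iff_restrict
  have hρa : ∀ (g : GQ) (u : F), ((ρ g u : F) : Qb) = g u := fun g u => restrict_apply g u
  have hfixF : ∀ g, Fix E g → g ζ = ζ → Fix F g := fun g h1 h2 => by
    rw [hFdef]
    exact fix_sup.2 ⟨h1, (twist_fix hl hζ).2 h2⟩
  obtain ⟨hxE, hyE⟩ := h.mem hi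
  obtain ⟨Q, hQ, hlQ⟩ := StarkRQ.exists_prime_over (M := F) hl
  obtain ⟨z₀, hz₀, hz₀2, -, -, -, hcomm⟩ := h.central hi
  -- the inertia group is central
  have hQx : ∀ u : Qb, u ∈ E → Qx u ≤ F := fun u hu => by
    rw [Qx, IntermediateField.adjoin_le_iff]
    rintro _ rfl
    exact hEF hu
  have hinx : ∀ t : GQ, Iner Q (ρ t) → t x = x := fun t ht => by
    have h1 := hx.iner_fix (hQx x hxE) hl hlN hQ hlQ ht ⟨x, hEF hxE⟩
      (IntermediateField.mem_adjoin_simple_self ℚ x)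
    have h2 := congrArg (fun u : F => (u : Qb)) h1
    simp only [hρa] at h2
    exact h2
  have hiny : ∀ t : GQ, Iner Q (ρ t) → t y = y := fun t ht => by
    have h1 := hy.iner_fix (hQx y hyE) hl hlN hQ hlQ ht ⟨y, hEF hyE⟩
      (IntermediateField.mem_adjoin_simple_self ℚ y)
    have h2 := congrArg (fun u : F => (u : Qb)) h1
    simp only [hρa] at h2
    exact h2
  have hcen : ∀ τ : Gal(F/ℚ), Iner Q τ → ∀ σ : Gal(F/ℚ), τ * σ = σ * τ := by
    intro τ hτ σ
    obtain ⟨t, rfl⟩ := hρs τ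
    obtain ⟨g, rfl⟩ := hρs σ
    have h1 : sg x t = 0 := sg_eq_zero_iff.2 (hinx t hτ)
    have h2 : sg y t = 0 := sg_eq_zero_iff.2 (hiny t hτ)
    have hom : om x y t g = 0 := by rw [om, h1, h2, zero_mul, mul_zero, add_zero]
    have h4 := hfixF _ ((hcomm t g).1 hom) (twist_comm hl hζ t g)
    rw [hρ, map_mul, map_mul, map_mul, map_inv, map_inv, mul_inv_eq_one,
      mul_inv_eq_iff_eq_mul] at h4
    exact h4
  -- the order of the group
  obtain ⟨m, hm⟩ := h.two
  have hcop : (Nat.card Gal(F/ℚ)).Coprime l := by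
    rw [Nat.coprime_comm, Nat.Prime.coprime_iff_not_dvd hl]
    intro hdvd
    obtain ⟨σ, hσ⟩ := exists_prime_orderOf_dvd_card' l hdvd
    obtain ⟨g, rfl⟩ := hρs σ
    have h1 : Fix F (g ^ (2 ^ m * (l - 1))) := by
      rw [pow_mul]
      exact hfixF _ (twist_pow (hm g) _) (twist_pow_root hl hζ _)
    have h2 : l ∣ 2 ^ m * (l - 1) := by
      have h3 : orderOf (ρ g) ∣ 2 ^ m * (l - 1) := by
        apply orderOf_dvd_of_pow_eq_one
        rw [← map_pow]
        exact (hρ _).1 h1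
      rwa [hσ] at h3
    rcases (Nat.Prime.dvd_mul hl).1 h2 with h3 | h3
    · exact hl2 ((Nat.prime_dvd_prime_iff_eq hl Nat.prime_two).1 (hl.dvd_of_dvd_pow h3))
    · have h4 := hl.two_le
      have h5 := Nat.le_of_dvd (by omega) h3
      omega
  -- inertia elements which fix the roots of unity
  have hle : Nat.card (inerG Q) ≤ l - 1 :=
    Nat.le_of_dvd (by have := hl.two_le; omega) (card_inertia_dvd hl hcop hQ hlQ hcen)
  have hζ' : IsPrimitiveRoot (⟨ζ, hζF⟩ : F) l :=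
    IsPrimitiveRoot.of_map_of_injective (f := F.val) hζ F.val.injective
  obtain ⟨ζ', hζ'def⟩ : ∃ ζ' : F, ζ' = ⟨ζ, hζF⟩ := ⟨_, rfl⟩
  rw [← hζ'def] at hζ'
  have hinj : ∀ τ : Gal(F/ℚ), Iner Q τ → τ ζ' = ζ' → τ = 1 := by
    let f : inerG Q → primitiveRoots l F := fun τ =>
      ⟨τ.1 ζ', (mem_primitiveRoots hl.pos).2 (hζ'.map_of_injective τ.1.injective)⟩
    have hsurj : Function.Surjective f := by
      rintro ⟨ξ, hξ⟩
      have hξ' := (mem_primitiveRoots hl.pos).1 hξ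
      obtain ⟨a, -, ha⟩ := hζ'.eq_pow_of_pow_eq_one hξ'.pow_eq_one
      have hac : a.Coprime l := by
        rw [← hζ'.pow_iff_coprime hl.pos, ha]
        exact hξ'
      obtain ⟨σ, hσ, hσζ⟩ := iner_root hl hζ' hQ hlQ hac
      exact ⟨⟨σ, hσ⟩, Subtype.ext (hσζ.trans ha)⟩
    have hcard : Nat.card (inerG Q) ≤ Nat.card (primitiveRoots l F) := by
      rw [Nat.card_eq_finsetCard, hζ'.card_primitiveRoots, Nat.totient_prime hl]
      exact hle
    have hbij := hsurj.bijective_of_nat_card_le hcard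
    intro τ hτ h1
    have h2 : f ⟨τ, hτ⟩ = f ⟨1, (inerG Q).one_mem⟩ := Subtype.ext h1
    exact congrArg Subtype.val (hbij.1 h2)
  -- the other primes
  have hother : ∀ Q' : Ideal (𝓞 F), Q'.IsPrime → (l : 𝓞 F) ∈ Q' → ∀ σ : Gal(F/ℚ), Iner Q' σ →
      Iner Q σ := by
    intro Q' hQ' hlQ' σ hσ
    obtain ⟨γ, hγ⟩ := StarkRQ.exists_smul_eq hl hlQ hlQ'
    have h1 : Iner Q (γ⁻¹ * σ * γ) := by
      intro u
      have h2 := hσ (γ • u)
      rw [← hγ, Ideal.mem_pointwise_smul_iff_inv_smul_mem, smul_sub, inv_smul_smul, ← mul_smul,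
        ← mul_smul] at h2
      exact h2
    have h3 := hcen _ h1 γ⁻¹
    have h4 : γ⁻¹ * σ * γ = σ := by
      have h5 : γ⁻¹ * σ * γ * γ⁻¹ = γ⁻¹ * (γ⁻¹ * σ * γ) := h3
      rw [mul_inv_cancel_right] at h5
      have h6 := mul_left_cancel h5
      exact h6.symm
    rwa [h4] at h1
  -- the new field
  have hnorm : (inerG Q).Normal := by
    refine ⟨fun τ hτ g => ?_⟩
    rw [← hcen τ hτ g, mul_inv_cancel_right]
    exact hτ
  obtain ⟨E', hE'F, hE'fin, hE'nor, hE'⟩ := exists_field (D := (inerG Q).comap ρ)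
    (hnorm.comap ρ) hF.fin hF.gal (fun g hg => by
      rw [Subgroup.mem_comap, (hρ g).1 hg]
      exact (inerG Q).one_mem)
  have hE'' : ∀ g, Fix E' g ↔ Iner Q (ρ g) := fun g => (hE' g).trans Iff.rfl
  have hFE' : ∀ g, Fix F g → Fix E' g := fun g hg => hg.mono hE'F
  refine ⟨E', ⟨hE'fin, hE'nor, ⟨m + m, fun g => ?_⟩, ?_⟩, ?_⟩
  · -- powers of two
    obtain ⟨a, hac, ha⟩ := twist_root hl hζ (g ^ 2 ^ m)
    obtain ⟨τ, hτ, hτζ⟩ := iner_root hl hζ' hQ hlQ hac
    obtain ⟨t, rfl⟩ := hρs τ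
    have htζ : t ζ = ζ ^ a := by
      have h1 := congrArg (fun u : F => (u : Qb)) hτζ
      simp only [hρa, hζ'def] at h1
      exact h1
    obtain ⟨c, hc⟩ : ∃ c : GQ, c = g ^ 2 ^ m := ⟨_, rfl⟩
    rw [← hc] at ha
    have hcE : Fix E c := hc ▸ hm g
    have h1 : (t⁻¹ * c) ζ = ζ := by
      rw [AlgEquiv.mul_apply, ha, ← htζ, ← AlgEquiv.mul_apply, inv_mul_cancel,
        AlgEquiv.one_apply]
    have h2 : ∀ n : ℕ, ((t⁻¹ * c) ^ n) ζ = ζ := by
      intro n
      induction n with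
      | zero => rw [pow_zero, AlgEquiv.one_apply]
      | succ n ih => rw [pow_succ, AlgEquiv.mul_apply, h1, ih]
    have hcom : Commute (ρ t⁻¹) (ρ c) := by
      have h3 : Commute (ρ t) (ρ c) := hcen _ hτ _
      rw [map_inv]
      exact h3.inv_left
    -- the power is trivial on `F`
    have h3 : Fix F ((t⁻¹ * c) ^ 2 ^ m) := by
      refine hfixF _ ?_ (h2 _)
      exact hm _
    have h4 : (ρ t⁻¹) ^ 2 ^ m * (ρ c) ^ 2 ^ m = 1 := by
      rw [← hcom.mul_pow, ← map_mul, ← map_pow]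
      exact (hρ _).1 h3
    have h5 : ρ (c ^ 2 ^ m) = (ρ t) ^ 2 ^ m := by
      rw [map_pow]
      rw [map_inv, inv_pow, inv_mul_eq_one] at h4
      exact h4.symm
    rw [hE'', pow_add, pow_mul, ← hc, h5]
    exact (inerG Q).pow_mem hτ _
  · -- the commutators
    obtain ⟨g₀, hg1, hg2⟩ := hi.ex 1 0
    obtain ⟨h₀, hh1, hh2⟩ := hi.ex 0 1
    have hom : om x y g₀ h₀ = 1 := by
      rw [om, hg1, hg2, hh1, hh2]
      decide
    have h1 := (hcomm g₀ h₀).2 hom
    have h2 := twist_comm hl hζ g₀ h₀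
    obtain ⟨z, hz⟩ : ∃ z : GQ, z = g₀ * h₀ * g₀⁻¹ * h₀⁻¹ := ⟨_, rfl⟩
    rw [← hz] at h1 h2
    -- `z` and the inverse of `z₀` are the same on `E`
    have h3 : Fix E (z₀⁻¹ * z) := by
      have h4 : z₀⁻¹ * z = (z₀⁻¹ * (z * z₀) * z₀⁻¹⁻¹) * (z₀ * z₀)⁻¹ := by group
      rw [h4]
      exact (h1.conj z₀⁻¹).mul hz₀2.inv
    refine ⟨z, fun hfix => ?_, ?_, fun g h' => ⟨fun h0 => ?_, fun h0 => ?_⟩⟩
    · have h4 := (hE'' z).1 hfix
      have h5 : ρ z = 1 := by
        apply hinj _ h4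
        apply Subtype.ext
        rw [hρa, hζ'def]
        exact h2
      apply hz₀
      have h6 : Fix E z := ((hρ z).2 h5).mono hEF
      have h7 : z₀ = z⁻¹ * (z * z₀) := by group
      rw [h7]
      exact h6.inv.mul h1
    · apply hFE'
      refine hfixF _ ?_ ?_
      · have h4 : z * z = (z * z₀) * (z₀⁻¹ * z) := by group
        rw [h4]
        exact h1.mul h3
      · rw [AlgEquiv.mul_apply, h2, h2]
    · exact hFE' _ (hfixF _ ((hcomm g h').1 h0) (twist_comm hl hζ g h'))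
    · apply hFE'
      refine hfixF _ ?_ ?_
      · have h4 : g * h' * g⁻¹ * h'⁻¹ * z = (g * h' * g⁻¹ * h'⁻¹ * z₀) * (z₀⁻¹ * z) := by group
        rw [h4]
        exact ((hcomm g h').2 h0).mul h3
      · rw [AlgEquiv.mul_apply, h2, twist_comm hl hζ g h']
  · exact nf_fixed hF hl hE'F hE'nor fun Q' hQ' hlQ' σ hσ u hu => by
      have h1 := hother Q' hQ' hlQ' σ hσ
      obtain ⟨g, rfl⟩ := hρs σ
      apply Subtype.ext
      rw [hρa]
      exact (hE'' g).2 h1 u hu

/-- removing the ramification at all primes which do not divide `N` -/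
theorem clean (h : Rz E x y) (hi : Ind x y) (h2 : 2 ∣ N) (hN : N ≠ 0) (hx : Nf (Qx x) N)
    (hy : Nf (Qx y) N) : ∃ E' : IntermediateField ℚ Qb, Rz E' x y ∧ Nf E' N := by
  have key : ∀ S : Finset ℕ, (∀ l ∈ S, l.Prime) → ∀ E : IntermediateField ℚ Qb, Rz E x y →
      Nf E (N * ∏ l ∈ S, l) → ∃ E' : IntermediateField ℚ Qb, Rz E' x y ∧ Nf E' N := by
    intro S
    induction S using Finset.induction_on with
    | empty =>
      intro _ E hE hE'
      refine ⟨E, hE, ?_⟩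
      rwa [Finset.prod_empty, mul_one] at hE'
    | insert l S hlS ih =>
      intro hS E hE hE'
      have hl : l.Prime := hS l (Finset.mem_insert_self l S)
      have hS' : ∀ p ∈ S, p.Prime := fun p hp => hS p (Finset.mem_insert_of_mem hp)
      rw [Finset.prod_insert hlS] at hE'
      by_cases hlN : l ∣ N
      · refine ih hS' E hE (hE'.mono fun p hp hpd => ?_)
        rcases (Nat.Prime.dvd_mul hp).1 hpd with h1 | h1
        · exact h1.mul_right _
        · rcases (Nat.Prime.dvd_mul hp).1 h1 with h3 | h3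
          · exact (h3.trans hlN).mul_right _
          · exact h3.mul_left _
      · have hlP : ¬ l ∣ N * ∏ l ∈ S, l := by
          intro hd
          rcases (Nat.Prime.dvd_mul hl).1 hd with h1 | h1
          · exact hlN h1
          · obtain ⟨p, hp, hlp⟩ := (Prime.dvd_finsetProd_iff hl.prime _).1 h1
            have := (Nat.prime_dvd_prime_iff_eq hl (hS' p hp)).1 hlp
            rw [this] at hlS
            exact hlS hp
        have hl2 : l ≠ 2 := by
          rintro rfl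
          exact hlN h2
        obtain ⟨E₁, hE₁, hE₁'⟩ := twist (N := N * ∏ l ∈ S, l) hE hi
          (hE'.mono fun p hp hpd => by
            rw [mul_assoc, mul_comm (∏ l ∈ S, l) l]
            exact hpd) (hx.mono fun p _ hp => hp.mul_right _) (hy.mono fun p _ hp => hp.mul_right _)
          hl hl2 hlP
        exact ih hS' E₁ hE₁ hE₁'
  obtain ⟨N', hN', hE⟩ := exists_nf h.fin h.gal
  refine key N'.primeFactors (fun l hl => Nat.prime_of_mem_primeFactors hl) E h
    (hE.mono fun p hp hpd => ?_)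
  exact (Finset.dvd_prod_of_mem (fun l => l)
    (Nat.mem_primeFactors.2 ⟨hp, hpd, hN'⟩)).mul_left N

end Pool.Agent.EMB
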