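import Pool.Agent.EMB.RayB
import Pool.Agent.EMB.Twist
import Pool.Agent.EMB.Sum
import Pool.Agent.EMB.KWb

/-!
# EMB-PAIR every pair of independent quadratic characters

Let `i ∈ Qb`, `i² = -1` (`Sq i`, `Qx i` is unramified outside `2`: `nf_Qm` with `m = 4`, `Nf.of_le`, `Qx i ≤ Qm 4`). `exists_rz`: (1) `x² < 0`: by `kw` for `E = Qx x ⊔ Qx y` (abelian: commutators fix `x` and `y`, `sg` is a homomorphism; `Nf.sup`) there is `m = N^b ≥ 4` with `x, y ∈ Qm m`; `exists_rz_neg` (`Nf (Qx x) m` by `Nf.mono`), `clean`. (2) `y² < 0`: apply (1) to `y, x` (`Ind.swap`) and `om_swap` (the structure `Rz` is symmetric).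
(3) `x², y² > 0`: `(i x)² < 0`, `i² < 0`. `Ind (i x) y`, `Ind i y`: a complex conjugation `c ∈ GQ` (restriction of complex conjugation with respect to an embedding `Qb → ℂ`, which exists and has image stable under conjugation) fixes `x` and `y` (real) and `c i = -i`; so all values of `(sg i, sg x, sg y)` are taken: choose `g` with the given `sg x g, sg y g` and multiply by `c` if necessary; `sg_prod`.
By (1): `Rz E₁ (i x) y`, `Rz E₂ i y`, of level `N`; `rz_add`: `Rz E ((i x) i) y`, `(i x) i = - x`, `sg_neg` (so `om (-x) y = om x y`, and `Ind (- x) y`). `x²` is positive or negative: `x² = q`, `q ≠ 0`. `Nf (Qx (i x)) N`: `Qx (i x) ≤ Qx i ⊔ Qx x`.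
-/

set_option autoImplicit false

noncomputable section

open NumberField Pool.Agent.CMR
open scoped Pointwise

namespace Pool.Agent.EMB

/-- the structure `Rz` is symmetric. -/
private theorem pair_rz_swap {E : IntermediateField ℚ Qb} {x y : Qb} (h : Rz E y x) :
    Rz E x y := by
  obtain ⟨hf, hg, ht, z, hz, hz2, hc⟩ := h
  refine ⟨hf, hg, ht, z, hz, hz2, fun g h => ?_⟩
  rw [← om_swap g h]
  exact hc g h

/-- the case of a negative square -/
private theorem pair_neg {x y : Qb} (hi : Ind x y) {N : ℕ} (h2 : 2 ∣ N) (hN : N ≠ 0)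
    (hx : Nf (Qx x) N) (hy : Nf (Qx y) N) {q : ℚ} (hq : q < 0)
    (hxq : x ^ 2 = algebraMap ℚ Qb q) : ∃ E : IntermediateField ℚ Qb, Rz E x y ∧ Nf E N := by
  have hF : Nf (Qx x ⊔ Qx y) N := hx.sup hy
  have hcom : ∀ {w : Qb}, Sq w → ∀ g h : GQ, sg w (g * h * g⁻¹ * h⁻¹) = 0 := by
    intro w hw g h
    rw [sg_mul hw, sg_mul hw, sg_mul hw, sg_inv hw, sg_inv hw]
    have h2 : ∀ a b : ZMod 2, a + b + a + b = 0 := by decide
    exact h2 _ _
  have hab : ∀ g h : GQ, Fix (Qx x ⊔ Qx y) (g * h * g⁻¹ * h⁻¹) := fun g h =>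
    fix_sup.2 ⟨fix_Qx.2 (hcom hi.sq g h), fix_Qx.2 (hcom hi.sq' g h)⟩
  obtain ⟨a, ha⟩ := kw hF hab h2 hN
  have h3 : 2 ≤ N := Nat.le_of_dvd (Nat.pos_of_ne_zero hN) h2
  have hm : 4 ≤ N ^ max a 2 := by
    calc 4 = 2 ^ 2 := by norm_num
      _ ≤ N ^ 2 := Nat.pow_le_pow_left h3 2
      _ ≤ N ^ max a 2 := Nat.pow_le_pow_right (by omega) (le_max_right a 2)
  have hy' : y ∈ Qm (N ^ max a 2) :=
    ha (max a 2) (le_max_left a 2) ((le_sup_right : Qx y ≤ Qx x ⊔ Qx y)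
      (IntermediateField.mem_adjoin_simple_self ℚ y))
  have hx' : Nf (Qx x) (N ^ max a 2) := hx.mono fun p _ hp =>
    hp.trans (dvd_pow_self N (by have := le_max_right a 2; omega))
  obtain ⟨E, hE⟩ := exists_rz_neg hi hq hxq hm hx' hy'
  exact clean hE hi h2 hN hx hy

/-- complex conjugation -/
private theorem pair_conj : ∃ c : GQ, (∀ (x : Qb) (q : ℚ), 0 < q → x ^ 2 = algebraMap ℚ Qb q →
    c x = x) ∧ ∀ x : Qb, x ^ 2 = -1 → c x = -x := by
  haveI : Algebra.IsAlgebraic ℚ Qb := AlgebraicClosure.isAlgebraic ℚ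
  haveI : IsAlgClosure ℚ Qb := ⟨inferInstance, inferInstance⟩
  haveI : Normal ℚ Qb := IsAlgClosure.normal ℚ Qb
  let φ : Qb →ₐ[ℚ] ℂ := IsAlgClosed.lift
  letI : Algebra Qb ℂ := φ.toRingHom.toAlgebra
  haveI : IsScalarTower ℚ Qb ℂ := IsScalarTower.of_algebraMap_eq fun r => (φ.commutes r).symm
  let cc : ℂ ≃ₐ[ℚ] ℂ := Complex.conjAe.restrictScalars ℚ
  have hcc : ∀ z : ℂ, cc z = (starRingEnd ℂ) z := fun z => rfl
  let c : GQ := AlgEquiv.restrictNormal cc Qb
  have hc : ∀ x : Qb, φ (c x) = (starRingEnd ℂ) (φ x) := fun x =>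
    AlgEquiv.restrictNormal_commutes cc Qb x
  have hinj : Function.Injective φ := φ.toRingHom.injective
  refine ⟨c, ?_, ?_⟩
  · intro x q hq hx
    apply hinj
    rw [hc, Complex.conj_eq_iff_im]
    have h1 : φ x ^ 2 = ((q : ℝ) : ℂ) := by
      rw [← map_pow, hx, φ.commutes]
      simp
    have h2 := congrArg Complex.re h1
    have h3 := congrArg Complex.im h1
    rw [pow_two, Complex.mul_re, Complex.ofReal_re] at h2
    rw [pow_two, Complex.mul_im, Complex.ofReal_im] at h3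
    have h4 : (0 : ℝ) < q := by exact_mod_cast hq
    have h5 : (φ x).re * (φ x).im = 0 := by linarith
    rcases mul_eq_zero.1 h5 with h6 | h6
    · rw [h6] at h2
      nlinarith [mul_self_nonneg (φ x).im]
    · exact h6
  · intro x hx
    apply hinj
    rw [hc, map_neg]
    have h1 : φ x ^ 2 = -1 := by
      rw [← map_pow, hx, map_neg, map_one]
    have h2 := congrArg Complex.re h1
    have h3 := congrArg Complex.im h1
    rw [pow_two, Complex.mul_re, Complex.neg_re, Complex.one_re] at h2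
    rw [pow_two, Complex.mul_im, Complex.neg_im, Complex.one_im] at h3
    have h5 : (φ x).re * (φ x).im = 0 := by linarith
    have h6 : (φ x).re = 0 := by
      rcases mul_eq_zero.1 h5 with h6 | h6
      · exact h6
      · rw [h6] at h2
        nlinarith [mul_self_nonneg (φ x).re]
    apply Complex.ext
    · rw [Complex.conj_re, Complex.neg_re, h6, neg_zero]
    · rw [Complex.conj_im, Complex.neg_im]

theorem exists_rz {x y : Qb} (hi : Ind x y) {N : ℕ} (h2 : 2 ∣ N) (hN : N ≠ 0)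
    (hx : Nf (Qx x) N) (hy : Nf (Qx y) N) :
    ∃ E : IntermediateField ℚ Qb, Rz E x y ∧ Nf E N := by
  obtain ⟨hx0, q, hq⟩ := hi.sq
  obtain ⟨hy0, r, hr⟩ := hi.sq'
  have hne : ∀ {w : Qb} {t : ℚ}, w ≠ 0 → w ^ 2 = algebraMap ℚ Qb t → t ≠ 0 := by
    rintro w t hw h rfl
    rw [map_zero] at h
    exact hw (pow_eq_zero_iff two_ne_zero |>.1 h)
  rcases lt_or_gt_of_ne (hne hx0 hq) with hq0 | hq0
  · exact pair_neg hi h2 hN hx hy hq0 hq
  rcases lt_or_gt_of_ne (hne hy0 hr) with hr0 | hr0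
  · obtain ⟨E, h1, h3⟩ := pair_neg hi.swap h2 hN hy hx hr0 hr
    exact ⟨E, pair_rz_swap h1, h3⟩
  -- both squares are positive
  obtain ⟨i, hi2⟩ := IsAlgClosed.exists_pow_nat_eq (-1 : Qb) (n := 2) (by norm_num)
  have hi0 : i ≠ 0 := by
    rintro rfl
    norm_num at hi2
  have hiq : i ^ 2 = algebraMap ℚ Qb (-1) := by
    rw [hi2, map_neg, map_one]
  have hsi : Sq i := ⟨hi0, -1, hiq⟩
  obtain ⟨c, hc1, hc2⟩ := pair_conj
  have hcx : sg x c = 0 := sg_eq_zero_iff.2 (hc1 x q hq0 hq)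
  have hcy : sg y c = 0 := sg_eq_zero_iff.2 (hc1 y r hr0 hr)
  have hci : sg i c = 1 := (sg_eq_one_iff hsi).2 (hc2 i hi2)
  have hall : ∀ e a b : ZMod 2, ∃ g : GQ, sg i g = e ∧ sg x g = a ∧ sg y g = b := by
    intro e a b
    obtain ⟨g, hg1, hg2⟩ := hi.ex a b
    by_cases he : sg i g = e
    · exact ⟨g, he, hg1, hg2⟩
    · refine ⟨g * c, ?_, ?_, ?_⟩
      · rw [sg_mul hsi, hci]
        have h3 : ∀ s t : ZMod 2, s ≠ t → s + 1 = t := by decide
        exact h3 _ _ he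
      · rw [sg_mul hi.sq, hcx, hg1, add_zero]
      · rw [sg_mul hi.sq', hcy, hg2, add_zero]
  have hI1 : Ind (i * x) y := by
    refine ⟨hsi.mul hi.sq, hi.sq', fun a b => ?_⟩
    obtain ⟨g, h3, h4, h5⟩ := hall 0 a b
    exact ⟨g, by rw [sg_prod hsi hi.sq, h3, h4, zero_add], h5⟩
  have hI2 : Ind i y := by
    refine ⟨hsi, hi.sq', fun a b => ?_⟩
    obtain ⟨g, h3, -, h5⟩ := hall a 0 b
    exact ⟨g, h3, h5⟩
  have hmul : i * x * i = -x := by
    linear_combination x * hi2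
  have hI3 : Ind (i * x * i) y := by
    rw [hmul]
    refine ⟨hi.sq.neg, hi.sq', fun a b => ?_⟩
    obtain ⟨g, h3, h4⟩ := hi.ex a b
    exact ⟨g, by rw [sg_neg hi.sq, h3], h4⟩
  have hNi : Nf (Qx i) N := by
    have h3 : Nf (Qm 4) 4 := nf_Qm (by norm_num)
    have h4 : Qx i ≤ Qm 4 := by
      refine IntermediateField.adjoin_le_iff.2 (Set.singleton_subset_iff.2 ?_)
      refine IntermediateField.subset_adjoin ℚ _ ?_
      change i ^ 4 = 1
      linear_combination (i ^ 2 - 1) * hi2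
    refine (h3.of_le h4 hsi.normal).mono fun p hp h5 => ?_
    have h6 : p ∣ 2 ^ 2 := by simpa using h5
    rwa [(Nat.prime_dvd_prime_iff_eq hp Nat.prime_two).1 (hp.dvd_of_dvd_pow h6)]
  have hNix : Nf (Qx (i * x)) N := by
    refine (hNi.sup hx).of_le ?_ (hsi.mul hi.sq).normal
    refine IntermediateField.adjoin_le_iff.2 (Set.singleton_subset_iff.2 ?_)
    exact mul_mem ((le_sup_left : Qx i ≤ Qx i ⊔ Qx x)
      (IntermediateField.mem_adjoin_simple_self ℚ i)) ((le_sup_right : Qx x ≤ Qx i ⊔ Qx x)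
      (IntermediateField.mem_adjoin_simple_self ℚ x))
  obtain ⟨E₁, h3, h4⟩ := pair_neg hI1 h2 hN hNix hy (q := -q) (by linarith) (by
    rw [mul_pow, hi2, hq, map_neg, neg_one_mul])
  obtain ⟨E₂, h5, h6⟩ := pair_neg hI2 h2 hN hNi hy (q := -1) (by norm_num) hiq
  obtain ⟨E, h7, h8⟩ := rz_add h3 h5 hI1 hI2 hI3 h4 h6
  refine ⟨E, ?_, h8⟩
  rw [hmul] at h7
  obtain ⟨hf, hg, ht, z, hz, hz2, hc⟩ := h7
  refine ⟨hf, hg, ht, z, hz, hz2, fun g h => ?_⟩
  have h9 := hc g h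
  unfold om at h9 ⊢
  rwa [sg_neg hi.sq, sg_neg hi.sq] at h9

end Pool.Agent.EMB
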