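import Pool.Agent.EMB.Nfl
import Pool.Agent.EMB.Gen
import Pool.Agent.CMR.RFld
import Pool.Agent.CMR.RActA

/-!
# EMB-RAYA the Galois group acts on the torsion values through ray classes

`exists_RD hk hn h2 k` gives `F, B, X` (`RD n B X`, `n ∣ B`). `Algebra k Qb` is that of the intermediate field; `κ : F →ₐ[k] Qb` (`IsAlgClosed.lift`). Let `Ft` be the normal closure over `ℚ` in `Qb` of the compositum of `κ(F)` and `Qm n` (`IntermediateField.normalClosure`, finite). For `g ∈ GQ`, `𝔥` an ideal of `k` let `AA g 𝔥` mean: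
`g (κ (X 𝔤 a)) = κ (X (𝔤 𝔥) a)` for all `𝔤 ≠ ⊥` prime to `n` and all `a` with `¬ n ∣ a` (as in `Acts`). DEFINE `R g 𝔥 :⟺ Fix k g ∧ 𝔥 ≠ ⊥ ∧ Prm B 𝔥 ∧ (∀ c : GQ, AA (c g c⁻¹) (c|_k • 𝔥)) ∧ ∀ ζ, ζ^n = 1 → g ζ = ζ^{N𝔥}`. `fix`: `Prm.of_dvd`. `mul`: `c g g' c⁻¹ = (c g c⁻¹)(c g' c⁻¹)`, `smul_mul'` for ideals, composition as in `Acts.mul` (`𝔤 𝔥` is prime to `n`). `uniq`: `c = 1`:
`X 𝔥 a = X 𝔥' a` (`𝔤 = ⊤`, `κ` injective), `RD.inj`. `conj`: `mul_smul`; `N(σ • 𝔥) = N𝔥`; roots of unity: `c g c⁻¹ ζ = ζ^{N𝔥}` as `c⁻¹ ζ` is again an `n`-th root of unity; `Fix.conj`. `root`: clear. `fin`: `Ft`: if `g` fixes `Ft` then `c g c⁻¹` fixes `Ft ⊇ κ(F)`, so `AA (c g c⁻¹) ⊤`, `c|_k • ⊤ = ⊤`, `N ⊤ = 1`.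
`ex`: `frob_induction` for the extension `Ft/k` (`k ≤ Ft`: `Algebra k Ft`, e.g. via `IntermediateField.inclusion`, `IsGalois k Ft`), `P τ :⟺ ∃ 𝔥, R g 𝔥` for one (all) `g ∈ GQ` which fix `k` and restrict to `τ` on `Ft` (`R g 𝔥` only depends on `g|_{Ft}`; every `τ` lifts). `P 1`: `𝔥 = ⊤`. Products: `mul`. Frobenius elements: `φ ∈ Gal(Ft/k)` at a prime `𝔓 ∌ B` of `Ft`, `𝔭 = 𝔓 ∩ k`, `g` a lift of `φ`;
take `𝔥 = 𝔭` (prime to `B`). For `c ∈ GQ`: `c g c⁻¹` restricts to a Frobenius element at `c 𝔓` over `k` (`c` acts on `Ft`), `c 𝔓 ∩ k = c|_k • 𝔭`; its restriction to `κ(F)` gives (via `κ`) an element `φ'` of `Gal(F/k)` with `φ' x ≡ x^{N(c 𝔭)}` modulo the prime `κ⁻¹(c𝔓)` of `F`: `RD.frob`: `AA (c g c⁻¹) (c • 𝔭)`. Roots of unity: `g ζ ≡ ζ^{N𝔭}` mod `𝔓`, and `n ∉ 𝔓`, so `g ζ = ζ^{N𝔭}`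
(`lram_root` in `CMG/LRam.lean`, or `CMG.artin_root`, `StarkRQ/Cyclo`).
-/

set_option autoImplicit false

noncomputable section

open NumberField Pool.Agent.CMR
open scoped Pointwise

namespace Pool.Agent.EMB

set_option linter.unusedSectionVars false

section

variable {k : IntermediateField ℚ Qb} [NumberField k] [Normal ℚ k]

private theorem raya_rs (c : GQ) (x : k) :
    (((AlgEquiv.restrictNormalHom k c : Gal(k/ℚ)) x : k) : Qb) = c x :=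
  AlgEquiv.restrictNormal_commutes c k x

private theorem raya_norm (σ : Gal(k/ℚ)) (I : Ideal (𝓞 k)) :
    Ideal.absNorm (σ • I) = Ideal.absNorm I := by
  rw [Ideal.absNorm_apply, Ideal.absNorm_apply, Submodule.cardQuot_apply, Submodule.cardQuot_apply]
  refine (Nat.card_congr (Ideal.quotientEquiv I (σ • I)
    (MulSemiringAction.toRingEquiv (Gal(k/ℚ)) (𝓞 k) σ) ?_).toEquiv).symm
  rfl

private theorem raya_prm {N : ℕ} (σ : Gal(k/ℚ)) {I : Ideal (𝓞 k)} (h : Prm N I) :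
    Prm N (σ • I) := by
  rw [prm_iff] at h ⊢
  rwa [raya_norm]

private theorem raya_ne (σ : Gal(k/ℚ)) {I : Ideal (𝓞 k)} (h : I ≠ ⊥) : σ • I ≠ ⊥ := by
  intro h0
  apply h
  rw [← Ideal.absNorm_eq_zero_iff, ← raya_norm σ, h0, Ideal.absNorm_bot]

private theorem raya_top (σ : Gal(k/ℚ)) : σ • (⊤ : Ideal (𝓞 k)) = ⊤ := by
  rw [Ideal.eq_top_iff_one, Ideal.mem_pointwise_smul_iff_inv_smul_mem]
  exact Submodule.mem_top

private theorem raya_mul (σ : Gal(k/ℚ)) (I J : Ideal (𝓞 k)) : σ • (I * J) = σ • I * σ • J := by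
  rw [Ideal.pointwise_smul_def, Ideal.pointwise_smul_def, Ideal.pointwise_smul_def, Ideal.map_mul]

private theorem raya_conj {g : GQ} (hg : Fix k g) (c : GQ) : Fix k (c * g * c⁻¹) := by
  intro x hx
  have h1 : (c⁻¹ : GQ) x ∈ k := by
    have h2 := raya_rs c⁻¹ ⟨x, hx⟩
    rw [← h2]
    exact SetLike.coe_mem _
  rw [AlgEquiv.mul_apply, AlgEquiv.mul_apply, hg _ h1, ← AlgEquiv.mul_apply, mul_inv_cancel]
  rfl

/-- the action on the torsion values -/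
private def RayAct (n : ℕ) (Y : Ideal (𝓞 k) → 𝓞 k → Qb) (g : GQ) (𝔥 : Ideal (𝓞 k)) : Prop :=
  ∀ 𝔤 : Ideal (𝓞 k), 𝔤 ≠ ⊥ → Prm n 𝔤 → ∀ a : 𝓞 k, ¬ (n : 𝓞 k) ∣ a →
    g (Y 𝔤 a) = Y (𝔤 * 𝔥) a

/-- the relation -/
private structure RayRel (n B : ℕ) (Y : Ideal (𝓞 k) → 𝓞 k → Qb) (g : GQ)
    (𝔥 : Ideal (𝓞 k)) : Prop where
  fix : Fix k g
  ne : 𝔥 ≠ ⊥
  prm : Prm B 𝔥
  act : ∀ c : GQ, RayAct n Y (c * g * c⁻¹) ((AlgEquiv.restrictNormalHom k c : Gal(k/ℚ)) • 𝔥)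
  root : ∀ ζ : Qb, ζ ^ n = 1 → g ζ = ζ ^ Ideal.absNorm 𝔥

private theorem RayRel.mul {n B : ℕ} (hnB : n ∣ B) {Y : Ideal (𝓞 k) → 𝓞 k → Qb} {g g' : GQ}
    {𝔥 𝔥' : Ideal (𝓞 k)} (h : RayRel n B Y g 𝔥) (h' : RayRel n B Y g' 𝔥') :
    RayRel n B Y (g * g') (𝔥 * 𝔥') where
  fix x hx := by rw [AlgEquiv.mul_apply, h'.fix x hx, h.fix x hx]
  ne := mul_ne_zero h.ne h'.ne
  prm := (prm_mul_iff _ _).2 ⟨h.prm, h'.prm⟩
  act c := by
    intro 𝔤 h0 hp a ha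
    have e : c * (g * g') * c⁻¹ = (c * g * c⁻¹) * (c * g' * c⁻¹) := by group
    rw [e, AlgEquiv.mul_apply, h'.act c 𝔤 h0 hp a ha,
      h.act c _ (mul_ne_zero h0 (raya_ne _ h'.ne))
        ((prm_mul_iff _ _).2 ⟨hp, raya_prm _ (h'.prm.of_dvd hnB)⟩) a ha, raya_mul, mul_assoc,
      mul_comm (_ • 𝔥)]
  root ζ hζ := by
    rw [AlgEquiv.mul_apply, h'.root ζ hζ, map_pow, h.root ζ hζ, ← pow_mul, map_mul]

private theorem RayRel.conj {n B : ℕ} {Y : Ideal (𝓞 k) → 𝓞 k → Qb} {g : GQ}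
    {𝔥 : Ideal (𝓞 k)} (h : RayRel n B Y g 𝔥) (c : GQ) :
    RayRel n B Y (c * g * c⁻¹) ((AlgEquiv.restrictNormalHom k c : Gal(k/ℚ)) • 𝔥) where
  fix := raya_conj h.fix c
  ne := raya_ne _ h.ne
  prm := raya_prm _ h.prm
  act c' := by
    have e : c' * (c * g * c⁻¹) * c'⁻¹ = (c' * c) * g * (c' * c)⁻¹ := by group
    rw [e, ← mul_smul, ← map_mul]
    exact h.act _
  root ζ hζ := by
    have h1 : ((c⁻¹ : GQ) ζ) ^ n = 1 := by rw [← map_pow, hζ, map_one]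
    rw [AlgEquiv.mul_apply, AlgEquiv.mul_apply, h.root _ h1, raya_norm, map_pow,
      ← AlgEquiv.mul_apply, mul_inv_cancel]
    rfl

private theorem raya_root_eq {R : Type} [CommRing R] [IsDomain R] {Q : Ideal R} [Q.IsPrime]
    {n : ℕ} (hn : (n : R) ∉ Q) {z w : R} (hz : z ^ n = 1) (hw : w ^ n = 1) (h : w - z ∈ Q) :
    w = z := by
  have hn0 : n ≠ 0 := by
    rintro rfl
    apply hn
    rw [Nat.cast_zero]
    exact Q.zero_mem
  by_contra hne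
  have h1 := (Commute.all w z).geom_sum₂_mul n
  rw [hz, hw, sub_self] at h1
  have h2 : (∑ i ∈ Finset.range n, w ^ i * z ^ (n - 1 - i)) = 0 :=
    (mul_eq_zero.1 h1).resolve_right (sub_ne_zero.2 hne)
  have h3 : Ideal.Quotient.mk Q w = Ideal.Quotient.mk Q z := Ideal.Quotient.eq.2 h
  have h4 := congrArg (Ideal.Quotient.mk Q) h2
  rw [map_sum, map_zero] at h4
  simp only [map_mul, map_pow, h3] at h4
  rw [geom_sum₂_self] at h4
  have h5 : (Ideal.Quotient.mk Q z) ^ (n - 1) * Ideal.Quotient.mk Q z = 1 := by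
    rw [← pow_succ, Nat.sub_add_cancel (Nat.one_le_iff_ne_zero.2 hn0), ← map_pow, hz, map_one]
  have h6 : ((n : ℕ) : R ⧸ Q) = 0 := by
    calc ((n : ℕ) : R ⧸ Q) = n * ((Ideal.Quotient.mk Q z) ^ (n - 1) * Ideal.Quotient.mk Q z) := by
          rw [h5, mul_one]
      _ = 0 := by rw [← mul_assoc, h4, zero_mul]
  apply hn
  rw [← Ideal.Quotient.eq_zero_iff_mem, map_natCast]
  exact h6

omit [NumberField k] [Normal ℚ k] in
/-- elements of the Galois group act on normal extensions -/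
private theorem raya_lift {F : Type} [Field F] [Algebra k F] [Normal k F] (κ : F →ₐ[k] Qb)
    {g : GQ} (hg : Fix k g) : ∃ φ : Gal(F/k), ∀ x, κ (φ x) = g (κ x) := by
  let _ : Algebra F Qb := (κ : F →+* Qb).toAlgebra
  have : IsScalarTower k F Qb := IsScalarTower.of_algebraMap_eq fun x => (κ.commutes x).symm
  let χ : Qb ≃ₐ[k] Qb := AlgEquiv.ofRingEquiv (f := (g : Qb ≃+* Qb)) fun x => hg _ x.2
  exact ⟨χ.restrictNormal F, fun x => AlgEquiv.restrictNormal_commutes χ F x⟩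


/-- a Frobenius element of the big field -/
private theorem raya_frob {F : Type} [Field F] [NumberField F] [Algebra k F] [IsGalois k F]
    {n B : ℕ} {X : Ideal (𝓞 k) → 𝓞 k → F} (hX : RD n B X) {Ft : IntermediateField ℚ Qb}
    [NumberField Ft] [Normal ℚ Ft] [Algebra k Ft]
    (halg : ∀ x : k, ((algebraMap k Ft x : Ft) : Qb) = x) (κ : F →ₐ[k] Qb) (hκ : ∀ x, κ x ∈ Ft)
    (hroot : ∀ ζ : Qb, ζ ^ n = 1 → ζ ∈ Ft) (𝔓 : Ideal (𝓞 Ft)) (φ : Gal(Ft/k))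
    (hP : 𝔓.IsPrime) (h0 : 𝔓 ≠ ⊥) (hB : (B : 𝓞 Ft) ∉ 𝔓)
    (hφ : ∀ x : 𝓞 Ft,
      φ • x - x ^ Ideal.absNorm (𝔓.comap (algebraMap (𝓞 k) (𝓞 Ft))) ∈ 𝔓)
    {g : GQ} (hgk : Fix k g) (hg : ∀ x : Ft, g x = (φ x : Ft)) :
    RayRel n B (fun 𝔤 a => κ (X 𝔤 a)) g (𝔓.comap (algebraMap (𝓞 k) (𝓞 Ft))) := by
  set 𝔭 := 𝔓.comap (algebraMap (𝓞 k) (𝓞 Ft)) with h𝔭
  have hp : 𝔭.IsPrime := Ideal.comap_isPrime _ _
  have hp0 : 𝔭 ≠ ⊥ := fun h => h0 (Ideal.eq_bot_of_comap_eq_bot h)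
  have hBp : (B : 𝓞 k) ∉ 𝔭 := by
    intro h
    rw [h𝔭, Ideal.mem_comap, map_natCast] at h
    exact hB h
  refine ⟨hgk, hp0, ?_, fun c => ?_, fun ζ hζ => ?_⟩
  · have hmax : 𝔭.IsMaximal := hp.isMaximal hp0
    unfold Prm
    rw [Ideal.isCoprime_iff_sup_eq]
    by_contra hcon
    have h1 := hmax.eq_of_le hcon le_sup_left
    apply hBp
    rw [h1]
    exact Ideal.mem_sup_right (Ideal.mem_span_singleton_self _)
  · -- the embedding `c⁻¹ κ`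
    set σ : Gal(k/ℚ) := AlgEquiv.restrictNormalHom k c with hσ
    let κ' : F →+* Ft := (κ : F →+* Qb).codRestrict Ft hκ
    let jc : F →+* Ft := ((AlgEquiv.restrictNormalHom Ft c⁻¹ : Gal(Ft/ℚ)) : Ft →+* Ft).comp κ'
    have hjc : ∀ x, ((jc x : Ft) : Qb) = (c⁻¹ : GQ) (κ x) := fun x =>
      AlgEquiv.restrictNormal_commutes c⁻¹ Ft (κ' x)
    let J : 𝓞 F →+* 𝓞 Ft := RingOfIntegers.mapRingHom jc
    have hJ : ∀ x : 𝓞 F, ((J x : 𝓞 Ft) : Ft) = jc x := fun x => rfl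
    set 𝔔 : Ideal (𝓞 F) := 𝔓.comap J with h𝔔
    have hQ : 𝔔.IsPrime := Ideal.comap_isPrime _ _
    have hQ0 : 𝔔 ≠ ⊥ := by
      intro h
      have h1 : ((Ideal.absNorm 𝔓 : ℕ) : 𝓞 F) ∈ 𝔔 := by
        rw [h𝔔, Ideal.mem_comap, map_natCast]
        exact Ideal.absNorm_mem 𝔓
      rw [h, Ideal.mem_bot, Nat.cast_eq_zero, Ideal.absNorm_eq_zero_iff] at h1
      exact h0 h1
    have hQB : (B : 𝓞 F) ∉ 𝔔 := by
      intro h
      rw [h𝔔, Ideal.mem_comap, map_natCast] at h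
      exact hB h
    have hcomap : 𝔔.comap (algebraMap (𝓞 k) (𝓞 F)) = σ • 𝔭 := by
      ext y
      rw [Ideal.mem_pointwise_smul_iff_inv_smul_mem, Ideal.mem_comap, h𝔔, Ideal.mem_comap, h𝔭,
        Ideal.mem_comap]
      have h1 : J (algebraMap (𝓞 k) (𝓞 F) y) = algebraMap (𝓞 k) (𝓞 Ft) (σ⁻¹ • y) := by
        apply RingOfIntegers.ext
        apply Subtype.ext
        change ((jc (algebraMap k F (y : k)) : Ft) : Qb) =
          ((algebraMap k Ft ((σ⁻¹ : Gal(k/ℚ)) (y : k)) : Ft) : Qb)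
        rw [hjc, halg, κ.commutes, hσ, ← map_inv, raya_rs]
        rfl
      rw [h1]
    obtain ⟨ψ, hψ⟩ := raya_lift κ (raya_conj hgk c)
    have hψQ : ∀ x : 𝓞 F,
        ψ • x - x ^ Ideal.absNorm (𝔔.comap (algebraMap (𝓞 k) (𝓞 F))) ∈ 𝔔 := by
      intro x
      rw [hcomap, raya_norm, h𝔔, Ideal.mem_comap, map_sub, map_pow]
      have h1 : J (ψ • x) = φ • J x := by
        apply RingOfIntegers.ext
        apply Subtype.ext
        change ((jc (ψ (x : F)) : Ft) : Qb) = ((φ (jc (x : F)) : Ft) : Qb)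
        rw [hjc, hψ, ← hg, hjc, ← AlgEquiv.mul_apply, ← AlgEquiv.mul_apply]
        congr 1
        group
      rw [h1]
      exact hφ (J x)
    have h1 := hX.frob 𝔔 ψ hQ hQ0 hQB hψQ
    rw [hcomap] at h1
    intro 𝔤 h𝔤 h𝔤' a ha
    change (c * g * c⁻¹) (κ (X 𝔤 a)) = κ (X (𝔤 * σ • 𝔭) a)
    rw [← hψ, h1 𝔤 h𝔤 h𝔤' a ha]
  · have hn0 : n ≠ 0 := hX.n_ne
    have hnP : (n : 𝓞 Ft) ∉ 𝔓 := by
      intro h
      apply hB
      obtain ⟨m, hm⟩ := hX.dvd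
      rw [hm, Nat.cast_mul]
      exact 𝔓.mul_mem_right _ h
    have hζi : IsIntegral ℤ (⟨ζ, hroot ζ hζ⟩ : Ft) := by
      refine IsIntegral.of_pow (Nat.pos_of_ne_zero hn0) ?_
      have h1 : (⟨ζ, hroot ζ hζ⟩ : Ft) ^ n = 1 := Subtype.ext hζ
      rw [h1]
      exact isIntegral_one
    let z : 𝓞 Ft := ⟨⟨ζ, hroot ζ hζ⟩, hζi⟩
    have hz : z ^ n = 1 := by
      apply RingOfIntegers.ext
      apply Subtype.ext
      exact hζ
    have h1 := hφ z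
    have hz1 : (φ • z) ^ n = 1 := by rw [← smul_pow', hz, smul_one]
    have hz2 : (z ^ Ideal.absNorm 𝔭) ^ n = 1 := by rw [← pow_mul, mul_comm, pow_mul, hz, one_pow]
    have h2 := raya_root_eq hnP hz2 hz1 h1
    have h3 := congrArg (fun y : 𝓞 Ft => ((y : Ft) : Qb)) h2
    have h4 := hg ⟨ζ, hroot ζ hζ⟩
    exact h4.trans h3

end

private theorem raya_normal : Normal ℚ Qb := by
  have h : Algebra.IsAlgebraic ℚ Qb := by
    have e : (DivisionRing.toRatAlgebra : Algebra ℚ Qb) = AlgebraicClosure.instAlgebra ℚ :=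
      Subsingleton.elim _ _
    rw [e]
    exact AlgebraicClosure.isAlgebraic ℚ
  exact normal_iff.2 fun x => ⟨(h.isAlgebraic x).isIntegral, IsAlgClosed.splits _⟩

theorem exists_ray (k : IntermediateField ℚ Qb) [NumberField k] [Normal ℚ k] (hk : IsIQ k)
    {n : ℕ} (hn : 5 ≤ n) (h2 : 2 ∣ n) : ∃ R : GQ → Ideal (𝓞 k) → Prop, Ray k n R := by
  obtain ⟨F, iF, iN, iA, -, -, iG, B, X, hX⟩ := exists_RD hk hn h2 k
  let κ : F →ₐ[k] Qb := IsAlgClosed.lift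
  have hnQ : Normal ℚ Qb := raya_normal
  -- the big field
  obtain ⟨Ft, hfin, hnorm, hle, hκ, hroot⟩ : ∃ Ft : IntermediateField ℚ Qb,
      FiniteDimensional ℚ Ft ∧ Normal ℚ Ft ∧ k ≤ Ft ∧ (∀ x, κ x ∈ Ft) ∧
      ∀ ζ : Qb, ζ ^ n = 1 → ζ ∈ Ft := by
    let κQ : F →ₐ[ℚ] Qb := κ.restrictScalars ℚ
    let E : IntermediateField ℚ Qb := κQ.fieldRange ⊔ (Qm n ⊔ k)
    have hE1 : FiniteDimensional ℚ κQ.fieldRange :=
      LinearEquiv.finiteDimensional (AlgEquiv.ofInjectiveField κQ).toLinearEquiv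
    have hE2 : FiniteDimensional ℚ (Qm n) := (nf_Qm hX.n_ne).fin
    have hE3 : FiniteDimensional ℚ k := NumberField.to_finiteDimensional
    have hE4 : FiniteDimensional ℚ E := inferInstance
    have hle : E ≤ IntermediateField.normalClosure ℚ E Qb := IntermediateField.le_normalClosure E
    refine ⟨IntermediateField.normalClosure ℚ E Qb, inferInstance,
      normalClosure.normal ℚ E Qb, ?_, ?_, ?_⟩
    · exact (le_sup_right.trans le_sup_right).trans hle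
    · intro x
      exact hle ((le_sup_left : κQ.fieldRange ≤ E) ⟨x, rfl⟩)
    · intro ζ hζ
      refine hle ((le_sup_left.trans le_sup_right : Qm n ≤ E) ?_)
      exact IntermediateField.subset_adjoin _ _ hζ
  have hNF : NumberField Ft := numberField_of_fin hfin
  let _ : Algebra k Ft := (IntermediateField.inclusion hle : k →+* Ft).toAlgebra
  have halg : ∀ x : k, ((algebraMap k Ft x : Ft) : Qb) = x := fun x => rfl
  have hT : IsScalarTower ℚ k Ft := IsScalarTower.of_algebraMap_eq fun x => by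
    apply Subtype.ext
    rw [halg]
    rfl
  have hGQ : IsGalois ℚ Ft := ⟨⟩
  have hGk : IsGalois k Ft := IsGalois.tower_top_of_isGalois ℚ k Ft
  have hnk : Normal k Ft := inferInstance
  let ι : Ft →ₐ[k] Qb := { toRingHom := (algebraMap Ft Qb), commutes' := fun x => halg x }
  let Y : Ideal (𝓞 k) → 𝓞 k → Qb := fun 𝔤 a => κ (X 𝔤 a)
  -- elements which fix the big field
  have hfix : ∀ g : GQ, Fix Ft g → RayRel n B Y g ⊤ := by
    intro g hg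
    have hprm : ∀ m : ℕ, Prm m (⊤ : Ideal (𝓞 k)) := fun m => by
      rw [← Ideal.one_eq_top]
      exact isCoprime_one_left
    refine ⟨fun x hx => hg x (hle hx), top_ne_bot, hprm B, fun c => ?_, fun ζ hζ => ?_⟩
    · intro 𝔤 _ _ a _
      rw [raya_top, Ideal.mul_top]
      have h1 : (c⁻¹ : GQ) (Y 𝔤 a) ∈ Ft := by
        have h3 := AlgEquiv.restrictNormal_commutes (c⁻¹ : GQ) Ft ⟨Y 𝔤 a, hκ _⟩
        have h4 : (c⁻¹ : GQ) (algebraMap Ft Qb ⟨Y 𝔤 a, hκ _⟩) = (c⁻¹ : GQ) (Y 𝔤 a) := rfl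
        rw [← h4, ← h3]
        exact SetLike.coe_mem _
      rw [AlgEquiv.mul_apply, AlgEquiv.mul_apply, hg _ h1, ← AlgEquiv.mul_apply, mul_inv_cancel]
      rfl
    · rw [hg ζ (hroot ζ hζ), Ideal.absNorm_top, pow_one]
  -- all elements of the Galois group of the big field
  have hall : ∀ τ : Gal(Ft/k), ∀ g : GQ, Fix k g → (∀ x : Ft, g x = (τ x : Ft)) →
      ∃ 𝔥, RayRel n B Y g 𝔥 := by
    refine frob_induction hX.B_ne ?_ ?_ ?_
    · intro g _ hg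
      exact ⟨⊤, hfix g fun x hx => hg ⟨x, hx⟩⟩
    · intro σ τ hσ hτ g hgk hg
      let g' : GQ := (τ.restrictScalars ℚ).liftNormal Qb
      have hg' : ∀ x : Ft, g' x = (τ x : Ft) := fun x =>
        AlgEquiv.liftNormal_commutes (τ.restrictScalars ℚ) Qb x
      have hgk' : Fix k g' := by
        intro x hx
        have h3 := hg' (algebraMap k Ft ⟨x, hx⟩)
        rw [τ.commutes] at h3
        exact h3
      have hinv : ∀ x : Ft, (g'⁻¹ : GQ) x = (τ⁻¹ x : Ft) := by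
        intro x
        have h3 := hg' (τ⁻¹ x)
        have h4 : τ (τ⁻¹ x) = x := by
          rw [← AlgEquiv.mul_apply, mul_inv_cancel]
          rfl
        rw [h4] at h3
        rw [← h3, ← AlgEquiv.mul_apply, inv_mul_cancel]
        rfl
      obtain ⟨𝔥', h'⟩ := hτ g' hgk' hg'
      obtain ⟨𝔥, h⟩ := hσ (g * g'⁻¹) (by
        intro x hx
        have h3 : (g'⁻¹ : GQ) x = x := by
          have h4 := hgk' x hx
          have h5 : (g'⁻¹ : GQ) (g' x) = x := by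
            rw [← AlgEquiv.mul_apply, inv_mul_cancel]
            rfl
          rwa [h4] at h5
        rw [AlgEquiv.mul_apply, h3, hgk x hx]) (by
        intro x
        rw [AlgEquiv.mul_apply, hinv, hg]
        change (((σ * τ) (τ⁻¹ x) : Ft) : Qb) = _
        rw [← AlgEquiv.mul_apply, mul_assoc, mul_inv_cancel, mul_one])
      refine ⟨𝔥 * 𝔥', ?_⟩
      have h3 := h.mul hX.dvd h'
      rwa [inv_mul_cancel_right] at h3
    · intro 𝔓 φ hP h0 hB hφ g hgk hg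
      exact ⟨_, raya_frob hX halg κ hκ hroot 𝔓 φ hP h0 hB hφ hgk hg⟩
  refine ⟨RayRel n B Y, ?_, ?_, ?_, ?_, ?_, ?_, ?_⟩
  · intro g 𝔥 h
    exact ⟨h.fix, h.ne, h.prm.of_dvd hX.dvd⟩
  · intro g hg
    obtain ⟨τ, hτ⟩ := raya_lift ι hg
    exact hall τ g hg fun x => (hτ x).symm
  · intro g g' 𝔥 𝔥' h h'
    exact h.mul hX.dvd h'
  · intro g 𝔥 𝔥' h h'
    refine hX.inj 𝔥 𝔥' h.ne h'.ne (h.prm.of_dvd hX.dvd) (h'.prm.of_dvd hX.dvd) fun a ha => ?_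
    have h3 := h.act 1 ⊤ top_ne_bot (by
      rw [← Ideal.one_eq_top]
      exact isCoprime_one_left) a ha
    have h4 := h'.act 1 ⊤ top_ne_bot (by
      rw [← Ideal.one_eq_top]
      exact isCoprime_one_left) a ha
    rw [map_one, one_smul, Ideal.top_mul] at h3 h4
    exact κ.injective (h3.symm.trans h4)
  · intro g 𝔥 h c
    exact h.conj c
  · intro g 𝔥 h ζ hζ
    exact h.root ζ hζ
  · exact ⟨Ft, hfin, hnorm, hle, hfix⟩

end Pool.Agent.EMB
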