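import Pool.Agent.EMB.RayA
import Pool.Agent.EMB.Grp
import Pool.Agent.EMB.Inv
import Pool.Agent.CMR.RCyc

/-!
# EMB-RAYB a pair with one negative square

`k = Qx x` (`Sq.fin`, `Sq.normal`, imaginary quadratic: `x ∉ ℚ`, `x² < 0`), `n = 2 m ≥ 8`, `R` from `exists_ray`. `K = {g : ∃ 𝔥, R g 𝔥 ∧ REq n 𝔥 ⊤}`: a normal subgroup of `GQ` of finite index: products (`Ray.mul`, `REq.mul`), inverses: `g⁻¹` fixes `k`, `R g⁻¹ 𝔥'`, `R 1 (𝔥 𝔥')` and `R 1 ⊤` (`fin`), so `REq n (𝔥 𝔥') ⊤` (`uniq`) and `REq n 𝔥' ⊤`; conjugation: `Ray.conj`, and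
`REq n (σ • 𝔥) ⊤` (apply `σ`; `σ • ⊤ = ⊤`); `K` contains all `g` which fix the finite extension `F` (`Ray.fin`), so the index is finite (`GQ → Gal(F/ℚ)`). `exists_D` with `α = sg x`, `β = sg y`. `hle`: `g ∈ K` fixes `k ∋ x`, and `g ζ = ζ^{N𝔥}`, `N𝔥 ≡ 1` mod `n` (`absNorm_of_REq`), so `g` fixes `Qm m ∋ y` (`m ∣ n`). `hab`: `α g = 0` means `Fix k g` (`fix_Qx`). `R g 𝔥₁`, `R h 𝔥₂`, `u = [g, h]`, `R u 𝔲`:
`u (h g) = g h`, so `REq n (𝔲 (𝔥₂ 𝔥₁)) (𝔥₁ 𝔥₂)` (`uniq`), so `REq n 𝔲 ⊤` (`REq.cancel`). `hinv`: `α c = 1`, `α g = 0`, `u = [c, g] ∈ K`, `R u 𝔲`, `REq n 𝔲 ⊤`, `R g 𝔥`; `R (c g c⁻¹) (σ • 𝔥)` with `σ = c|_k ≠ 1`, and `c g c⁻¹ = u g`, so `REq n (σ • 𝔥) (𝔲 𝔥)`, `REq n 𝔥 (σ • 𝔥)`: `inv_class`: `N𝔥 ≡ r²` mod `m`, `r` prime to `m`. For `ζ^m = 1`: `g ζ = ζ^{N𝔥} = ζ^{r²}`. Choose `s ∈ GQ` with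
`s ζ = ζ^r` for all `m`-th roots of unity (irreducibility of the cyclotomic polynomial; `IsCyclotomicExtension.autEquivPow`, `exists_restrict`): `g` and `s²` agree on `Qm m`, so `sg y g = sg y (s s) = 0` (`y ∈ Qm m`). `exists_D` gives `D`, `z`; `exists_field`: `E` with `Fix E g ↔ g ∈ D` (`D ⊇ K ⊇ Fix F`).
-/

set_option autoImplicit false

noncomputable section

open NumberField Pool.Agent.CMR
open scoped Pointwise

namespace Pool.Agent.EMB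

private theorem rb_smul_span {k : Type} [Field k] [NumberField k] (σ : Gal(k/ℚ)) (a : 𝓞 k) :
    σ • Ideal.span {a} = Ideal.span {σ • a} := by
  rw [Ideal.pointwise_smul_def, Ideal.map_span, Set.image_singleton]
  rfl

private theorem rb_smul {k : Type} [Field k] [NumberField k] {n : ℕ} (σ : Gal(k/ℚ))
    {𝔞 𝔟 : Ideal (𝓞 k)} (h : REq n 𝔞 𝔟) : REq n (σ • 𝔞) (σ • 𝔟) := by
  obtain ⟨a, b, ha0, hb0, ha, hb, e⟩ := h
  have key : ∀ c : 𝓞 k, (n : 𝓞 k) ∣ c - 1 → (n : 𝓞 k) ∣ σ • c - 1 := by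
    rintro c ⟨d, hd⟩
    refine ⟨σ • d, ?_⟩
    have h1 := congrArg (fun z => σ • z) hd
    simp only [smul_sub, smul_one, smul_mul'] at h1
    rw [h1]
    congr 1
    exact map_natCast (MulSemiringAction.toRingHom _ (𝓞 k) σ) n
  refine ⟨σ • a, σ • b, (smul_ne_zero_iff_ne σ).2 ha0, (smul_ne_zero_iff_ne σ).2 hb0, key a ha,
    key b hb, ?_⟩
  rw [← rb_smul_span, ← rb_smul_span, ← smul_mul', ← smul_mul', e]

private theorem rb_smul_top {k : Type} [Field k] [NumberField k] (σ : Gal(k/ℚ)) :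
    σ • (⊤ : Ideal (𝓞 k)) = ⊤ := by
  rw [Ideal.pointwise_smul_def, ← Ideal.span_singleton_one, Ideal.map_span, Set.image_singleton,
    map_one]

private theorem rb_iq {x : Qb} {q : ℚ} (hq : q < 0)
    (hxq : x ^ 2 = algebraMap ℚ Qb q) [NumberField (Qx x)] : IsIQ (Qx x) := by
  have hint : IsIntegral ℚ x := by
    refine ⟨Polynomial.X ^ 2 - Polynomial.C q, Polynomial.monic_X_pow_sub_C q two_ne_zero, ?_⟩
    simp [hxq]
  constructor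
  · have h1 : Module.finrank ℚ (Qx x) = (minpoly ℚ x).natDegree :=
      IntermediateField.adjoin.finrank hint
    rw [h1]
    apply le_antisymm
    · have h2 : minpoly ℚ x ∣ Polynomial.X ^ 2 - Polynomial.C q := by
        apply minpoly.dvd
        simp [hxq]
      have h3 := Polynomial.natDegree_le_of_dvd h2
        (Polynomial.monic_X_pow_sub_C q two_ne_zero).ne_zero
      rwa [Polynomial.natDegree_X_pow_sub_C] at h3
    · rw [minpoly.two_le_natDegree_iff hint]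
      rintro ⟨r, hr⟩
      rw [← hr, ← map_pow] at hxq
      have h2 := (algebraMap ℚ Qb).injective hxq
      nlinarith [sq_nonneg r]
  · constructor
    intro v
    rw [← InfinitePlace.not_isReal_iff_isComplex]
    intro hv
    have hmem : x ∈ Qx x := IntermediateField.mem_adjoin_simple_self ℚ x
    have h1 : (⟨x, hmem⟩ : Qx x) ^ 2 = algebraMap ℚ (Qx x) q := Subtype.ext hxq
    have h2 := congrArg (InfinitePlace.embedding_of_isReal hv) h1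
    rw [map_pow] at h2
    have h3 : InfinitePlace.embedding_of_isReal hv (algebraMap ℚ (Qx x) q) = (q : ℝ) := by
      rw [eq_ratCast (algebraMap ℚ (Qx x)) q, map_ratCast]
    rw [h3] at h2
    have h4 : (q : ℝ) < 0 := by exact_mod_cast hq
    nlinarith [sq_nonneg (InfinitePlace.embedding_of_isReal hv ⟨x, hmem⟩)]

/-- an automorphism with a given action on roots of unity -/
private theorem rb_cyc {m r : ℕ} (hm : 0 < m) (hr : r.Coprime m) :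
    ∃ s : GQ, ∀ ζ : Qb, ζ ^ m = 1 → s ζ = ζ ^ r := by
  have : NeZero m := ⟨hm.ne'⟩
  obtain ⟨ζ₀, hζ₀⟩ := HasEnoughRootsOfUnity.exists_primitiveRoot Qb m
  have h1 : IsConjRoot ℚ (ζ₀ ^ r) ζ₀ := by
    unfold IsConjRoot
    rw [← Polynomial.cyclotomic_eq_minpoly_rat hζ₀ hm,
      ← Polynomial.cyclotomic_eq_minpoly_rat (hζ₀.pow_of_coprime r hr) hm]
  have hn : Normal ℚ Qb :=
    @IsAlgClosure.normal ℚ (AlgebraicClosure ℚ) _ _ (AlgebraicClosure.instAlgebra ℚ) _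
  obtain ⟨s, hs⟩ := isConjRoot_iff_exists_algEquiv.1 h1
  refine ⟨s, fun ζ hζ => ?_⟩
  obtain ⟨i, -, hi⟩ := hζ₀.eq_pow_of_pow_eq_one hζ
  rw [← hi, map_pow, hs, ← pow_mul, ← pow_mul, mul_comm]

theorem exists_rz_neg {x y : Qb} (hi : Ind x y) {q : ℚ} (hq : q < 0)
    (hxq : x ^ 2 = algebraMap ℚ Qb q) {m : ℕ} (hm : 4 ≤ m) (hx : Nf (Qx x) m) (hy : y ∈ Qm m) :
    ∃ E : IntermediateField ℚ Qb, Rz E x y := by
  have hfin : FiniteDimensional ℚ (Qx x) := hi.sq.fin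
  have : NumberField (Qx x) := numberField_of_fin hfin
  have : Normal ℚ (Qx x) := hi.sq.normal
  have : IsGalois ℚ (Qx x) := {}
  have hk : IsIQ (Qx x) := rb_iq hq hxq
  obtain ⟨R, hR⟩ := exists_ray (Qx x) hk (n := 2 * m) (by omega) (dvd_mul_right 2 m)
  obtain ⟨F, hF1, hF2, hkF, hF⟩ := hR.fin
  have hR1 : R 1 ⊤ := hF 1 Fix.one
  -- the subgroup `K`
  have hKinv : ∀ {g : GQ} {𝔥 : Ideal (𝓞 (Qx x))}, R g 𝔥 → REq (2 * m) 𝔥 ⊤ →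
      ∃ 𝔥', R g⁻¹ 𝔥' ∧ REq (2 * m) 𝔥' ⊤ := by
    intro g 𝔥 h1 h2
    obtain ⟨𝔥', h3⟩ := hR.ex g⁻¹ (hR.fix g 𝔥 h1).1.inv
    refine ⟨𝔥', h3, ?_⟩
    have h4 := hR.mul g g⁻¹ 𝔥 𝔥' h1 h3
    rw [mul_inv_cancel] at h4
    have h5 := hR.uniq 1 _ _ h4 hR1
    have h6 := h2.mul (REq.refl (N := 2 * m) 𝔥')
    rw [Ideal.top_mul] at h6
    exact h6.symm.trans h5
  let K : Subgroup GQ :=
    { carrier := {g | ∃ 𝔥, R g 𝔥 ∧ REq (2 * m) 𝔥 ⊤}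
      mul_mem' := by
        rintro g g' ⟨𝔥, h1, h2⟩ ⟨𝔥', h3, h4⟩
        refine ⟨𝔥 * 𝔥', hR.mul g g' 𝔥 𝔥' h1 h3, ?_⟩
        have h5 := h2.mul h4
        rwa [Ideal.top_mul] at h5
      one_mem' := ⟨⊤, hR1, REq.refl _⟩
      inv_mem' := by
        rintro g ⟨𝔥, h1, h2⟩
        exact hKinv h1 h2 }
  have hKn : K.Normal := by
    constructor
    rintro g ⟨𝔥, h1, h2⟩ c
    refine ⟨_, hR.conj g 𝔥 h1 c, ?_⟩
    have h3 := rb_smul (AlgEquiv.restrictNormalHom (Qx x) c : Gal(Qx x/ℚ)) h2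
    rwa [rb_smul_top] at h3
  have hFK : ∀ g, Fix F g → g ∈ K := fun g hg => ⟨⊤, hF g hg, REq.refl _⟩
  have hKi : K.index ≠ 0 := by
    have h1 : (AlgEquiv.restrictNormalHom F : GQ →* Gal(F/ℚ)).ker ≤ K := by
      intro g hg
      exact hFK g (fix_iff_restrict.2 hg)
    have : Finite (Gal(F/ℚ)) := inferInstance
    have h2 : (AlgEquiv.restrictNormalHom F : GQ →* Gal(F/ℚ)).ker.FiniteIndex :=
      Subgroup.finiteIndex_ker _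
    exact (Subgroup.finiteIndex_of_le h1).index_ne_zero
  -- roots of unity
  have hroot : ∀ {g : GQ} {𝔥 : Ideal (𝓞 (Qx x))}, R g 𝔥 → ∀ {r : ℕ},
      Ideal.absNorm 𝔥 ≡ r [MOD m] → ∀ ζ : Qb, ζ ^ m = 1 → g ζ = ζ ^ r := by
    intro g 𝔥 h1 r h2 ζ hζ
    rw [hR.root g 𝔥 h1 ζ (by rw [mul_comm, pow_mul, hζ, one_pow])]
    exact pow_eq_pow_of_modEq h2 hζ
  have hle : ∀ g ∈ K, sg x g = 0 ∧ sg y g = 0 := by
    rintro g ⟨𝔥, h1, h2⟩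
    refine ⟨fix_Qx.1 (hR.fix g 𝔥 h1).1, ?_⟩
    rw [sg_eq_zero_iff]
    have h3 := absNorm_of_REq hk h2
    rw [Ideal.absNorm_top] at h3
    have h4 := hroot h1 (h3.of_mul_left 2)
    exact (fix_adjoin {ζ : Qb | ζ ^ m = 1} g).2 (fun ζ hζ => by rw [h4 ζ hζ, pow_one]) y hy
  have hab : ∀ g h, sg x g = 0 → sg x h = 0 → g * h * g⁻¹ * h⁻¹ ∈ K := by
    intro g h hg hh
    have hg' : Fix (Qx x) g := fix_Qx.2 hg
    have hh' : Fix (Qx x) h := fix_Qx.2 hh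
    obtain ⟨𝔥₁, h1⟩ := hR.ex g hg'
    obtain ⟨𝔥₂, h2⟩ := hR.ex h hh'
    obtain ⟨𝔲, h3⟩ := hR.ex (g * h * g⁻¹ * h⁻¹) (((hg'.mul hh').mul hg'.inv).mul hh'.inv)
    refine ⟨𝔲, h3, ?_⟩
    have h4 := hR.mul _ _ _ _ h3 (hR.mul _ _ _ _ h2 h1)
    have h5 := hR.mul _ _ _ _ h1 h2
    have h6 : g * h * g⁻¹ * h⁻¹ * (h * g) = g * h := by group
    rw [h6] at h4
    have h7 := hR.uniq _ _ _ h4 h5
    rw [mul_comm 𝔥₂ 𝔥₁, ← Ideal.top_mul (𝔥₁ * 𝔥₂), ← mul_assoc, Ideal.mul_top] at h7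
    exact REq.cancel (mul_ne_zero (hR.fix _ _ h1).2.1 (hR.fix _ _ h2).2.1) h7
  have hinv : ∀ c g, sg x c = 1 → sg x g = 0 → c * g * c⁻¹ * g⁻¹ ∈ K → sg y g = 0 := by
    rintro c g hc hg ⟨𝔲, h1, h2⟩
    have hg' : Fix (Qx x) g := fix_Qx.2 hg
    obtain ⟨𝔥, h3⟩ := hR.ex g hg'
    have h4 := hR.conj g 𝔥 h3 c
    obtain ⟨σ, hσ⟩ : ∃ σ : Gal(Qx x/ℚ), σ = AlgEquiv.restrictNormalHom (Qx x) c := ⟨_, rfl⟩
    rw [← hσ] at h4
    have hσ1 : σ ≠ 1 := by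
      intro h
      rw [hσ] at h
      have h5 : sg x c = 0 := fix_Qx.1 (fix_iff_restrict.2 h)
      rw [h5] at hc
      exact zero_ne_one hc
    have h5 := hR.mul _ _ _ _ h1 h3
    have h6 : c * g * c⁻¹ * g⁻¹ * g = c * g * c⁻¹ := by group
    rw [h6] at h5
    have h7 := hR.uniq _ _ _ h4 h5
    have h8 := h2.mul (REq.refl (N := 2 * m) 𝔥)
    rw [Ideal.top_mul] at h8
    have h9 : REq (2 * m) 𝔥 (σ • 𝔥) := (h7.trans h8).symm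
    obtain ⟨r, hr, hr2⟩ := inv_class hk (m := m) (by omega) (hx.ram _) hσ1
      (hR.fix _ _ h3).2.1 (hR.fix _ _ h3).2.2 h9
    obtain ⟨s, hs⟩ := rb_cyc (m := m) (by omega) hr
    have h10 : ∀ ζ : Qb, ζ ^ m = 1 → g ζ = (s * s) ζ := by
      intro ζ hζ
      rw [hroot h3 hr2 ζ hζ, AlgEquiv.mul_apply, hs ζ hζ, map_pow, hs ζ hζ, ← pow_mul, sq]
    have h11 : ((s * s)⁻¹ * g) y = y := by
      refine (fix_adjoin {ζ : Qb | ζ ^ m = 1} ((s * s)⁻¹ * g)).2 (fun ζ hζ => ?_) y hy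
      rw [AlgEquiv.mul_apply, h10 ζ hζ, ← AlgEquiv.mul_apply, inv_mul_cancel]
      rfl
    have h12 : sg y ((s * s)⁻¹ * g) = 0 := sg_eq_zero_iff.2 h11
    rw [sg_mul hi.sq', sg_inv hi.sq', sg_mul hi.sq', CharTwo.add_self_eq_zero, zero_add] at h12
    exact h12
  obtain ⟨D, hD, hKD, hD2, z, hz1, hz2, hz3⟩ := exists_D (sg_mul hi.sq) (sg_mul hi.sq') hi.ex hKn
    hKi hle hab hinv
  obtain ⟨E, hEF, hE1, hE2, hE⟩ := exists_field hD hF1 hF2 fun g hg => hKD (hFK g hg)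
  refine ⟨E, hE1, hE2, ?_, z, fun h => hz1 ((hE z).1 h), (hE _).2 hz2, fun g h =>
    ⟨fun h1 => (hE _).2 ((hz3 g h).1 h1), fun h1 => (hE _).2 ((hz3 g h).2 h1)⟩⟩
  obtain ⟨t, ht⟩ := hD2
  exact ⟨t, fun g => (hE _).2 (ht g)⟩

end Pool.Agent.EMB
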