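import Pool.Agent.EMB.Base

/-!
# EMB-SQR quadratic characters

If `x² ∈ ℚ` and `x ≠ 0` then `g x = ± x`, and `sg x g = 1` iff `g x = - x` (`- x ≠ x`). `sg_mul`: four cases; `sg_prod`: four cases. `exists_sq`: `χ` factors through `Gal(E/ℚ)`: by Dedekind (linear independence of the automorphisms of `E`, `linearIndependent_toLinearMap` or `linearIndependent_monoidHom`) there is `w ∈ E` with
`x = ∑_{σ ∈ Gal(E/ℚ)} (-1)^{χ σ} σ w ≠ 0`; `τ x = (-1)^{χ τ} x`; `x²` is fixed by all of `Gal(E/ℚ)`, so rational. `Rz.mem`: if `g` fixes `E` then `[g, h]` fixes `E` for all `h` (`Fix.conj`), so `om x y g h ≠ 1` (else `z` would fix `E`), so `sg x g = sg y g = 0` (take `h` with `(sg x h, sg y h) = (1, 0), (0, 1)`): `mem_of_fix`.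
`Rz.central`: the same `z`: choose `g₀, h₀` with `om x y g₀ h₀ = 1`, `w = [g₀, h₀]`; `w z` fixes `E`, so `x` and `y`: `sg x z = sg x w = 0`. `g w g⁻¹ = [g g₀ g⁻¹, g h₀ g⁻¹]` and `om` is the same (`sg_conj`), so `g w g⁻¹ z` fixes `E`; `w z` and `z z` fix `E`, so `g z g⁻¹ z⁻¹` fixes `E`.
-/

set_option autoImplicit false

noncomputable section

open NumberField Pool.Agent.CMR
open scoped Pointwise

namespace Pool.Agent.EMB

section Sq

variable {x y : Qb} {g h : GQ}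

theorem Sq.neg (hx : Sq x) : Sq (-x) := by
  obtain ⟨h0, q, hq⟩ := hx
  exact ⟨neg_ne_zero.2 h0, q, by rw [neg_sq, hq]⟩

theorem Sq.mul (hx : Sq x) (hy : Sq y) : Sq (x * y) := by
  obtain ⟨h0, q, hq⟩ := hx
  obtain ⟨h0', q', hq'⟩ := hy
  exact ⟨mul_ne_zero h0 h0', q * q', by rw [mul_pow, hq, hq', map_mul]⟩

theorem sg_eq_zero_iff : sg x g = 0 ↔ g x = x := by
  classical
  unfold sg
  split_ifs with h <;> simp [h]

/-- `g x = ± x` -/
private theorem sqr_or (hx : Sq x) (g : GQ) : g x = x ∨ g x = -x := by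
  obtain ⟨_, q, hq⟩ := hx
  have h1 : (g x) ^ 2 = x ^ 2 := by
    rw [← map_pow, hq, AlgEquiv.commutes]
  exact sq_eq_sq_iff_eq_or_eq_neg.1 h1

private theorem sqr_neg_ne (hx : Sq x) : -x ≠ x := by
  intro h
  have h1 : x = 0 := by
    have h2 : (2 : Qb) * x = 0 := by linear_combination -h
    exact (mul_eq_zero.1 h2).resolve_left two_ne_zero
  exact hx.1 h1

private theorem sqr_zmod (a : ZMod 2) : a = 0 ∨ a = 1 := by
  revert a
  decide

private theorem sqr_add_self (a : ZMod 2) : a + a = 0 := by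
  revert a
  decide

theorem sg_eq_one_iff (hx : Sq x) : sg x g = 1 ↔ g x = -x := by
  constructor
  · intro h
    rcases sqr_or hx g with h1 | h1
    · rw [sg_eq_zero_iff.2 h1] at h
      exact absurd h zero_ne_one
    · exact h1
  · intro h
    rcases sqr_zmod (sg x g) with h1 | h1
    · exact absurd ((sg_eq_zero_iff.1 h1).symm.trans h).symm (sqr_neg_ne hx)
    · exact h1

theorem sg_one : sg x 1 = 0 := sg_eq_zero_iff.2 rfl

theorem sg_mul (hx : Sq x) (g h : GQ) : sg x (g * h) = sg x g + sg x h := by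
  rcases sqr_or hx g with hg | hg <;> rcases sqr_or hx h with hh | hh
  · rw [sg_eq_zero_iff.2 hg, sg_eq_zero_iff.2 hh, add_zero]
    rw [sg_eq_zero_iff, AlgEquiv.mul_apply, hh, hg]
  · rw [sg_eq_zero_iff.2 hg, (sg_eq_one_iff hx).2 hh, zero_add]
    rw [sg_eq_one_iff hx, AlgEquiv.mul_apply, hh, map_neg, hg]
  · rw [(sg_eq_one_iff hx).2 hg, sg_eq_zero_iff.2 hh, add_zero]
    rw [sg_eq_one_iff hx, AlgEquiv.mul_apply, hh, hg]
  · rw [(sg_eq_one_iff hx).2 hg, (sg_eq_one_iff hx).2 hh, sqr_add_self]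
    rw [sg_eq_zero_iff, AlgEquiv.mul_apply, hh, map_neg, hg, neg_neg]

theorem sg_inv (hx : Sq x) (g : GQ) : sg x g⁻¹ = sg x g := by
  have h1 := sg_mul hx g g⁻¹
  rw [mul_inv_cancel, sg_one] at h1
  have h2 := sqr_add_self (sg x g)
  linear_combination -h1 - h2

theorem sg_conj (hx : Sq x) (g h : GQ) : sg x (h * g * h⁻¹) = sg x g := by
  rw [sg_mul hx, sg_mul hx, sg_inv hx]
  have h2 := sqr_add_self (sg x h)
  linear_combination h2

theorem sg_neg (hx : Sq x) (g : GQ) : sg (-x) g = sg x g := by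
  rcases sqr_or hx g with hg | hg
  · rw [sg_eq_zero_iff.2 hg, sg_eq_zero_iff, map_neg, hg]
  · rw [(sg_eq_one_iff hx).2 hg, sg_eq_one_iff hx.neg, map_neg, hg]

theorem sg_prod (hx : Sq x) (hy : Sq y) (g : GQ) : sg (x * y) g = sg x g + sg y g := by
  rcases sqr_or hx g with hg | hg <;> rcases sqr_or hy g with hh | hh
  · rw [sg_eq_zero_iff.2 hg, sg_eq_zero_iff.2 hh, add_zero]
    rw [sg_eq_zero_iff, map_mul, hh, hg]
  · rw [sg_eq_zero_iff.2 hg, (sg_eq_one_iff hy).2 hh, zero_add]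
    rw [sg_eq_one_iff (hx.mul hy), map_mul, hh, hg, mul_neg]
  · rw [(sg_eq_one_iff hx).2 hg, sg_eq_zero_iff.2 hh, add_zero]
    rw [sg_eq_one_iff (hx.mul hy), map_mul, hh, hg, neg_mul]
  · rw [(sg_eq_one_iff hx).2 hg, (sg_eq_one_iff hy).2 hh, sqr_add_self]
    rw [sg_eq_zero_iff, map_mul, hh, hg, neg_mul_neg]

theorem fix_Qx : Fix (Qx x) g ↔ sg x g = 0 := by
  rw [Qx, fix_adjoin, sg_eq_zero_iff]
  constructor
  · intro h
    exact h x rfl
  · rintro h _ rfl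
    exact h

theorem Sq.fin (hx : Sq x) : FiniteDimensional ℚ (Qx x) := by
  obtain ⟨-, q, hq⟩ := hx
  refine IntermediateField.adjoin.finiteDimensional (IsIntegral.of_pow two_pos ?_)
  rw [hq]
  exact isIntegral_algebraMap

private theorem sqr_normal : Normal ℚ Qb := by
  have h : @Normal ℚ (AlgebraicClosure ℚ) _ _ (AlgebraicClosure.instAlgebra ℚ) := inferInstance
  convert h
  exact Subsingleton.elim _ _

theorem Sq.normal (hx : Sq x) : Normal ℚ (Qx x) := by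
  have hQ := sqr_normal
  have hn : @Normal ℚ (Qx x) _ _ (IntermediateField.algebra' (Qx x)) := by
    rw [IntermediateField.normal_iff_forall_map_le']
    intro σ
    rw [Qx, IntermediateField.adjoin_map, IntermediateField.adjoin_le_iff]
    rintro _ ⟨t, ht, rfl⟩
    have ht' : t = x := ht
    have h1 : x ∈ IntermediateField.adjoin ℚ {x} :=
      IntermediateField.mem_adjoin_simple_self ℚ x
    change σ t ∈ IntermediateField.adjoin ℚ {x}
    rw [ht']
    rcases sqr_or hx σ with h | h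
    · rw [h]
      exact h1
    · rw [h]
      exact neg_mem h1
  convert hn
  exact Subsingleton.elim _ _

/-- quadratic characters come from square roots of rational numbers -/
theorem exists_sq {E : IntermediateField ℚ Qb} (hE : FiniteDimensional ℚ E) (hE' : Normal ℚ E)
    {χ : GQ → ZMod 2} (hχ : ∀ g h, χ (g * h) = χ g + χ h) (h : ∀ g, Fix E g → χ g = 0) :
    ∃ x ∈ E, Sq x ∧ ∀ g, sg x g = χ g := by
  have h1 : χ 1 = 0 := by
    have h2 := hχ 1 1
    rw [mul_one] at h2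
    linear_combination -h2
  have hinv : ∀ g, χ g⁻¹ = χ g := by
    intro g
    have h2 := hχ g g⁻¹
    rw [mul_inv_cancel, h1] at h2
    have h3 := sqr_add_self (χ g)
    linear_combination -h2 - h3
  by_cases hz : ∀ g, χ g = 0
  · refine ⟨1, one_mem E, ⟨one_ne_zero, 1, by rw [one_pow, map_one]⟩, fun g => ?_⟩
    rw [hz g, sg_eq_zero_iff, map_one]
  push Not at hz
  obtain ⟨g₀, hg₀'⟩ := hz
  have hg₀ : χ g₀ = 1 := (sqr_zmod _).resolve_left hg₀'
  let φ : GQ →* Multiplicative (ZMod 2) :=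
    MonoidHom.mk' (fun g => Multiplicative.ofAdd (χ g)) fun a b => by
      rw [hχ, ofAdd_add]
  have hφ : ∀ g, g ∈ φ.ker ↔ χ g = 0 := by
    intro g
    rw [MonoidHom.mem_ker]
    exact Iff.rfl
  obtain ⟨E', hE'E, hfin, hnor, hfix⟩ := exists_field (D := φ.ker) (F := E) inferInstance hE hE'
    (fun g hg => (hφ g).2 (h g hg))
  have hnf : ¬ Fix E' g₀ := by
    rw [hfix, hφ]
    exact hg₀'
  unfold Fix at hnf
  push Not at hnf
  obtain ⟨u, hu, hne⟩ := hnf
  have h0 : ∀ g, χ g = 0 → g u = u := fun g hg => (hfix g).2 ((hφ g).2 hg) u hu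
  have hx1 : ∀ g, χ g = 1 → g (u - g₀ u) = -(u - g₀ u) := by
    intro g hg
    have h2 : g₀⁻¹ (g u) = u := by
      rw [← AlgEquiv.mul_apply]
      apply h0
      rw [hχ, hinv, hg₀, hg]
      decide
    have h3 : g u = g₀ u := by
      have h4 := congrArg g₀ h2
      rw [← AlgEquiv.mul_apply, mul_inv_cancel] at h4
      exact h4
    have h5 : g (g₀ u) = u := by
      rw [← AlgEquiv.mul_apply]
      apply h0
      rw [hχ, hg₀, hg]
      decide
    rw [map_sub, h3, h5, neg_sub]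
  have hx0 : ∀ g, χ g = 0 → g (u - g₀ u) = u - g₀ u := by
    intro g hg
    have h2 : g₀⁻¹ (g (g₀ u)) = u := by
      rw [← AlgEquiv.mul_apply, ← AlgEquiv.mul_apply]
      apply h0
      rw [hχ, hχ, hinv, hg₀, hg]
      decide
    have h3 : g (g₀ u) = g₀ u := by
      have h4 := congrArg g₀ h2
      rw [← AlgEquiv.mul_apply, mul_inv_cancel] at h4
      exact h4
    rw [map_sub, h0 g hg, h3]
  have hsq : ∀ g : GQ, g ((u - g₀ u) ^ 2) = (u - g₀ u) ^ 2 := by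
    intro g
    rw [map_pow]
    rcases sqr_zmod (χ g) with hg | hg
    · rw [hx0 g hg]
    · rw [hx1 g hg, neg_sq]
  have hSq : Sq (u - g₀ u) := by
    refine ⟨sub_ne_zero.2 (Ne.symm hne), ?_⟩
    have h2 : (u - g₀ u) ^ 2 ∈ (⊥ : IntermediateField ℚ Qb) := mem_of_fix fun g _ => hsq g
    obtain ⟨q, hq⟩ := IntermediateField.mem_bot.1 h2
    exact ⟨q, hq.symm⟩
  refine ⟨u - g₀ u, mem_of_fix fun g hg => hx0 g (h g hg), hSq, fun g => ?_⟩
  rcases sqr_zmod (χ g) with hg | hg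
  · rw [hg, sg_eq_zero_iff, hx0 g hg]
  · rw [hg, sg_eq_one_iff hSq, hx1 g hg]

theorem om_swap (g h : GQ) : om y x g h = om x y g h := by
  unfold om; ring

theorem Ind.swap (h : Ind x y) : Ind y x :=
  ⟨h.sq', h.sq, fun a b => (h.ex b a).imp fun _ hg => ⟨hg.2, hg.1⟩⟩

/-- `x` and `y` are in `E`. -/
private theorem sqr_mem {E : IntermediateField ℚ Qb} (h : Rz E x y) (hi : Ind x y) :
    x ∈ E ∧ y ∈ E := by
  obtain ⟨z, hz, hzz, hc⟩ := h.comm
  have hn := h.gal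
  have key : ∀ g : GQ, Fix E g → ∀ h : GQ, om x y g h = 0 := by
    intro g hg h
    rcases sqr_zmod (om x y g h) with h1 | h1
    · exact h1
    · exfalso
      apply hz
      have h2 := (hc g h).2 h1
      have h3 : Fix E (g * (h * g⁻¹ * h⁻¹)) := hg.mul (hg.inv.conj h)
      have h4 := h3.inv.mul h2
      have h5 : (g * (h * g⁻¹ * h⁻¹))⁻¹ * (g * h * g⁻¹ * h⁻¹ * z) = z := by group
      rwa [h5] at h4
  constructor
  · refine mem_of_fix fun g hg => sg_eq_zero_iff.1 ?_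
    obtain ⟨h₀, hhx, hhy⟩ := hi.ex 0 1
    have h1 := key g hg h₀
    unfold om at h1
    rw [hhx, hhy, mul_one, zero_mul, add_zero] at h1
    exact h1
  · refine mem_of_fix fun g hg => sg_eq_zero_iff.1 ?_
    obtain ⟨h₀, hhx, hhy⟩ := hi.ex 1 0
    have h1 := key g hg h₀
    unfold om at h1
    rw [hhx, hhy, mul_zero, one_mul, zero_add] at h1
    exact h1

/-- commutators are not changed modulo `E` by the conjugation -/
theorem Rz.central {E : IntermediateField ℚ Qb} (h : Rz E x y) (hi : Ind x y) :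
    ∃ z : GQ, ¬ Fix E z ∧ Fix E (z * z) ∧ sg x z = 0 ∧ sg y z = 0 ∧
      (∀ g : GQ, Fix E (g * z * g⁻¹ * z⁻¹)) ∧ ∀ g h : GQ,
      (om x y g h = 0 → Fix E (g * h * g⁻¹ * h⁻¹)) ∧
      (om x y g h = 1 → Fix E (g * h * g⁻¹ * h⁻¹ * z)) := by
  obtain ⟨hxE, hyE⟩ := sqr_mem h hi
  obtain ⟨z, hz, hzz, hc⟩ := h.comm
  have hn := h.gal
  obtain ⟨g₀, hgx, hgy⟩ := hi.ex 1 0
  obtain ⟨h₀, hhx, hhy⟩ := hi.ex 0 1
  have hom : om x y g₀ h₀ = 1 := by
    unfold om
    rw [hgx, hgy, hhx, hhy]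
    decide
  have hw : Fix E (g₀ * h₀ * g₀⁻¹ * h₀⁻¹ * z) := (hc g₀ h₀).2 hom
  have hsg : ∀ t : Qb, Sq t → t ∈ E → sg t z = 0 := by
    intro t ht htE
    have h1 : sg t (g₀ * h₀ * g₀⁻¹ * h₀⁻¹ * z) = 0 := sg_eq_zero_iff.2 (hw t htE)
    rw [sg_mul ht, sg_mul ht, sg_mul ht, sg_mul ht, sg_inv ht, sg_inv ht] at h1
    have h2 := sqr_add_self (sg t g₀)
    have h3 := sqr_add_self (sg t h₀)
    linear_combination h1 - h2 - h3
  refine ⟨z, hz, hzz, hsg x hi.sq hxE, hsg y hi.sq' hyE, fun g => ?_, hc⟩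
  have ha : Fix E ((g * g₀ * g⁻¹) * (g * h₀ * g⁻¹) * (g * g₀ * g⁻¹)⁻¹ * (g * h₀ * g⁻¹)⁻¹ * z) := by
    apply (hc _ _).2
    unfold om
    rw [sg_conj hi.sq, sg_conj hi.sq', sg_conj hi.sq, sg_conj hi.sq', hgx, hgy, hhx, hhy]
    decide
  have hb : Fix E (g * (g₀ * h₀ * g₀⁻¹ * h₀⁻¹ * z) * g⁻¹) := hw.conj g
  have h5 := (ha.inv.mul hb).conj z
  have h6 : z * (((g * g₀ * g⁻¹) * (g * h₀ * g⁻¹) * (g * g₀ * g⁻¹)⁻¹ * (g * h₀ * g⁻¹)⁻¹ * z)⁻¹ *
      (g * (g₀ * h₀ * g₀⁻¹ * h₀⁻¹ * z) * g⁻¹)) * z⁻¹ = g * z * g⁻¹ * z⁻¹ := by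
    group
  rwa [h6] at h5

/-- `x` and `y` are in `E`. -/
theorem Rz.mem {E : IntermediateField ℚ Qb} (h : Rz E x y) (hi : Ind x y) : x ∈ E ∧ y ∈ E :=
  sqr_mem h hi

end Sq

end Pool.Agent.EMB
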